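import Pool.Agent.Q65.TS.Conv

/-!
# A conservative realisation and a tensor compatible t-structure with generators in the heart
-/

set_option autoImplicit false
set_option linter.unusedSectionVars false
set_option linter.unusedSimpArgs false
set_option backward.isDefEq.respectTransparency false
set_option backward.defeqAttrib.useBackward true

open CategoryTheory Limits MonoidalCategory Pretriangulated Triangulated
open Pool.Agent.Y116.MT Pool.Agent.Y112.KD

namespace Pool.Agent.Q65.TS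

universe v u w

section

variable {C : Type u} [Category.{v} C] [Preadditive C] [HasZeroObject C] [HasShift C ℤ]
  [∀ n : ℤ, (shiftFunctor C n).Additive] [Pretriangulated C]
  {A : Type*} [Category A] [Abelian A] (H : C ⥤ A) [H.IsHomological]
  {X Y Z : C} {f : X ⟶ Y} {g : Y ⟶ Z} {h : Z ⟶ X⟦(1 : ℤ)⟧}
  (hT : Triangle.mk f g h ∈ distTriang C)

include hT in
lemma cone_zero (h1 : ∀ i : ℤ, IsIso (H.map (f⟦i⟧'))) (n : ℤ) : IsZero (H.obj (Z⟦n⟧)) := by
  let _ := Functor.ShiftSequence.tautological H ℤ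
  have a1 : Epi ((H.shift n).map f) := by
    have := h1 n
    change Epi (H.map (f⟦n⟧'))
    infer_instance
  have a2 : Mono ((H.shift (n + 1)).map f) := by
    have := h1 (n + 1)
    change Mono (H.map (f⟦n + 1⟧'))
    infer_instance
  have b1 := (H.homologySequence_epi_shift_map_mor₁_iff _ hT n).1 a1
  have b2 := (H.homologySequence_mono_shift_map_mor₁_iff _ hT n (n + 1) rfl).1 a2
  have b3 := (H.homologySequence_epi_shift_map_mor₂_iff _ hT n (n + 1) rfl).2 b2
  rw [b1] at b3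
  exact (IsZero.of_epi_eq_zero _ (rfl : (0 : (H.shift n).obj Y ⟶ (H.shift n).obj Z) = 0))

end

section

variable {C : Type u} [Category.{v} C] [Preadditive C] [HasZeroObject C] [HasShift C ℤ]
  [∀ n : ℤ, (shiftFunctor C n).Additive] [Pretriangulated C]
  [MonoidalCategory C] [SymmetricCategory C] [TensorTriangulated C] [MonoidalPreadditive C]
  {E : Type w} [Field E] {R : Realisation C E} {t : TStructure C}

/-- A family of realisations is jointly conservative if an object whose cohomology vanishes for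
all realisations of the family is zero. -/
def JointlyConservative {Λ : Type*} {E : Λ → Type w} [∀ l, Field (E l)]
    (R : ∀ l, Realisation C (E l)) : Prop :=
  ∀ X : C, (∀ (l : Λ) (i : ℤ), IsZero ((R l).H.obj (X⟦i⟧))) → IsZero X

/-- An idempotent which vanishes on the cohomology is zero, for a conservative family. -/
lemma idem_zero {Λ : Type*} {E : Λ → Type w} [∀ l, Field (E l)]
    {R : ∀ l, Realisation C (E l)} (hc : JointlyConservative R) {X : C}
    (e : X ⟶ X) (he : e ≫ e = e) (h : ∀ (l : Λ) (i : ℤ), (R l).H.map (e⟦i⟧') = 0) : e = 0 := by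
  obtain ⟨D, g, d, hT⟩ := distinguished_cocone_triangle (𝟙 X - e)
  have hiso : ∀ (l : Λ) (i : ℤ), IsIso ((R l).H.map ((𝟙 X - e)⟦i⟧')) := by
    intro l i
    have h1 : (R l).H.map ((𝟙 X - e)⟦i⟧') = 𝟙 _ := by
      rw [Functor.map_sub, Functor.map_sub, h l i, sub_zero, CategoryTheory.Functor.map_id,
        CategoryTheory.Functor.map_id]
    rw [h1]
    infer_instance
  have hD : IsZero D := hc D fun l => cone_zero (R l).H hT (hiso l)
  have h2 := isIso1_of_isZero3 hT hD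
  have h3 : (𝟙 X - e) ≫ e = 0 := by rw [Preadditive.sub_comp, Category.id_comp, he, sub_self]
  rw [← cancel_epi (𝟙 X - e), h3, comp_zero]

variable [Linear ℚ C] [MonoidalLinear ℚ C] [RightRigidCategory C] [CharZero E]

lemma pw_deg {M : C} (hM : R.Deg M 0) (n : ℕ) : R.Deg (pw (𝟙_ C) M n) 0 := by
  induction n with
  | zero => exact deg_unit
  | succ n ih => exact ih.tensor hM

/-- The antisymmetrizer of an object of degree zero vanishes on the cohomology. -/
lemma H_alt_zero {M : C} (hM : R.Deg M 0) :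
    R.H.map (alt (𝟙_ C) M (Module.finrank E (R.H.obj M) + 1)) = 0 := by
  have h1 := kap_iso (fun n => pw_deg hM n) (Module.finrank E (R.H.obj M) + 1)
  rw [← cancel_epi (kap R.H (𝟙_ C) M (Module.finrank E (R.H.obj M) + 1)), ← alt_lax,
    alt_vec_zero _ _ _ (Nat.lt_succ_self _), zero_comp, comp_zero]

lemma H_asym_zero {M : C} (n : ℕ) (h : R.H.map (alt (𝟙_ C) M n) = 0) :
    R.H.map (asym (-1 : ℚ) M n) = 0 := by
  have h1 := alt_anti (𝟙_ C) M n (𝟙_ C) (tp M n) ((ρ_ _).hom ≫ (ee M n).hom ≫ asym (-1 : ℚ) M n)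
    (fun s hs => by
      obtain ⟨s', h3, h4⟩ := swap_of_pswap M hs
      have h5 := (swap_asym (η := (-1 : ℚ)) (by norm_num) M h3).1
      rw [rightUnitor_naturality_assoc, reassoc_of% h4, h5, neg_smul, one_smul,
        Preadditive.comp_neg, Preadditive.comp_neg])
  rw [rightUnitor_naturality_assoc] at h1
  have h2 : (n.factorial : ℤ) • ((ρ_ (pw (𝟙_ C) M n)).hom ≫ (ee M n).hom ≫ asym (-1 : ℚ) M n) =
      (ρ_ (pw (𝟙_ C) M n)).hom ≫ (alt (𝟙_ C) M n) ≫ (ee M n).hom ≫ asym (-1 : ℚ) M n := h1.symm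
  rw [← Preadditive.comp_zsmul, cancel_epi, ← Preadditive.comp_zsmul] at h2
  have h3 := congrArg (fun z => R.H.map z) h2
  simp only [Functor.map_comp, h, zero_comp] at h3
  have h4 : R.H.map ((n.factorial : ℤ) • asym (-1 : ℚ) M n) = 0 := by
    rw [← cancel_epi (R.H.map (ee M n).hom), h3, comp_zero]
  rw [Functor.map_zsmul] at h4
  ext x
  have h5 := congrArg (fun z => z.hom x) h4
  simp only [ModuleCat.hom_zsmul, LinearMap.smul_apply, ModuleCat.hom_zero,
    LinearMap.zero_apply] at h5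
  rw [← Int.cast_smul_eq_zsmul E] at h5
  have h6 : (((n.factorial : ℕ) : ℤ) : E) ≠ 0 := by
    exact_mod_cast Nat.factorial_ne_zero n
  exact (smul_eq_zero.1 h5).resolve_left h6

lemma map_qsmul {X Y : C} (q : ℚ) (f : X ⟶ Y) : R.H.map (q • f) = (q : E) • R.H.map f := by
  have h1 : (q.den : ℤ) • (q • f) = q.num • f := by
    rw [← Int.cast_smul_eq_zsmul ℚ, ← Int.cast_smul_eq_zsmul ℚ, smul_smul]
    congr 1
    push_cast
    exact Rat.den_mul_eq_num q
  have h2 := congrArg (fun z => R.H.map z) h1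
  simp only [Functor.map_zsmul] at h2
  ext x
  have h5 := congrArg (fun z => z.hom x) h2
  simp only [ModuleCat.hom_zsmul, LinearMap.smul_apply] at h5
  rw [← Int.cast_smul_eq_zsmul E, ← Int.cast_smul_eq_zsmul E] at h5
  have h6 : (((q.den : ℕ) : ℤ) : E) ≠ 0 := by
    exact_mod_cast q.den_ne_zero
  have h7 : (q : E) = (((q.den : ℕ) : ℤ) : E)⁻¹ * (q.num : E) := by
    rw [Rat.cast_def]
    push_cast
    field_simp
  simp only [ModuleCat.hom_smul, LinearMap.smul_apply]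
  rw [h7, mul_smul, ← h5, smul_smul, inv_mul_cancel₀ h6, one_smul]

/-- The dimension of the realisation of an object of degree zero is its rank. -/
lemma finrank_eq {M : C} (hM : R.Deg M 0) {q : ℚ} (hq : tr (𝟙 M) = q • 𝟙 (𝟙_ C)) :
    (Module.finrank E (R.H.obj M) : ℚ) = q := by
  have h1 := H_trace hM (𝟙 M)
  rw [hq, map_qsmul, CategoryTheory.Functor.map_id, CategoryTheory.Functor.map_id,
    Linear.smul_comp, Linear.comp_smul, Category.id_comp, IsIso.hom_inv_id] at h1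
  have h2 : LinearMap.trace E (R.H.obj M) (𝟙 (R.H.obj M) : R.H.obj M ⟶ R.H.obj M).hom =
      (Module.finrank E (R.H.obj M) : E) := LinearMap.trace_id E _
  rw [h2] at h1
  have h3 : ((q : ℚ) : E) = (Module.finrank E (R.H.obj M) : E) := by
    rw [← h1]
    change (q : E) = (q : E) • (1 : E)
    simp
  have h4 : ((Module.finrank E (R.H.obj M) : ℚ) : E) = (q : E) := by
    rw [h3]
    push_cast
    rfl
  exact_mod_cast h4

omit [CharZero E] in
/-- Some exterior power of an object of degree zero for all realisations vanishes, for a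
conservative family. -/
lemma asym_zero_of {Λ : Type*} [Nonempty Λ] {E : Λ → Type w} [∀ l, Field (E l)]
    [∀ l, CharZero (E l)] {R : ∀ l, Realisation C (E l)} (hc : JointlyConservative R)
    (hq : ∀ e : 𝟙_ C ⟶ 𝟙_ C, ∃ q : ℚ, e = q • 𝟙 _) {M : C} (hM : ∀ l, (R l).Deg M 0) :
    ∃ n : ℕ, asym (-1 : ℚ) M n = 0 := by
  obtain ⟨l₀⟩ := ‹Nonempty Λ›
  obtain ⟨q, hq⟩ := hq (tr (𝟙 M))
  have hd : ∀ l, Module.finrank (E l) ((R l).H.obj M) =
      Module.finrank (E l₀) ((R l₀).H.obj M) := by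
    intro l
    have h1 := finrank_eq (hM l) hq
    have h2 := finrank_eq (hM l₀) hq
    exact_mod_cast h1.trans h2.symm
  refine ⟨Module.finrank (E l₀) ((R l₀).H.obj M) + 1, ?_⟩
  refine idem_zero hc _ (asym_idem (by norm_num) _ _) fun l i => ?_
  rw [← hd l]
  by_cases hi : i = 0
  · subst hi
    have h1 := H_asym_zero (R := R l) _ (H_alt_zero (hM l))
    have h2 := (shiftFunctorZero C ℤ).hom.naturality
      (asym (-1 : ℚ) M (Module.finrank (E l) ((R l).H.obj M) + 1))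
    have h3 := congrArg (fun z => (R l).H.map z) h2
    simp only [Functor.map_comp, Functor.id_map, h1, comp_zero] at h3
    rw [← cancel_mono ((R l).H.map ((shiftFunctorZero C ℤ).hom.app
      (tp M (Module.finrank (E l) ((R l).H.obj M) + 1)))), h3, zero_comp]
  · have h4 : (R l).Deg (tp M (Module.finrank (E l) ((R l).H.obj M) + 1)) 0 :=
      (pw_deg (hM l) _).iso (ee M _)
    exact (h4 i hi).eq_of_src _ _

/-- If an exterior power of `M` vanishes then all symmetric morphisms from a tensor power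
of `M ⊗ S` vanish, if the symmetry of `S ⊗ S` is `-1`. -/
lemma kill_sym' {M S : C} (hS : (β_ S S).hom = -𝟙 _) {n : ℕ}
    (hM : asym (-1 : ℚ) M n = 0) {Z : C} (h : tp (M ⊗ S) n ⟶ Z)
    (hh : ∀ s, IsSwap (M ⊗ S) n s → s ≫ h = h) : h = 0 := by
  have := zip_isIso M S n
  have h1 : ∀ s', IsSwap M n s' → (s' ▷ tp S n) ≫ (inv (zip M S n) ≫ h) =
      (-1 : ℚ) • (inv (zip M S n) ≫ h) := by
    intro s' hs'
    obtain ⟨s, s'', h2, h3, h4⟩ := zip_swap' M S hs'
    have h5 : s' ▷ tp S n = -(s' ⊗ₘ s'') := by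
      rw [swap_neg hS h3, MonoidalCategory.tensorHom_def, wl_neg, MonoidalCategory.whiskerLeft_id,
        Preadditive.comp_neg, Category.comp_id, neg_neg]
    have h6 : (s' ⊗ₘ s'') ≫ inv (zip M S n) = inv (zip M S n) ≫ s := by
      rw [IsIso.comp_inv_eq, Category.assoc, IsIso.eq_inv_comp, h4]
    rw [h5, Preadditive.neg_comp, ← Category.assoc, h6, Category.assoc, hh s h2, neg_smul,
      one_smul]
  have h2 := asym_whisker_comp (η := (-1 : ℚ)) (by norm_num) n _ h1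
  have h3 : (0 : tp M n ⟶ tp M n) ▷ tp S n = 0 := (tensorRight _).map_zero _ _
  rw [hM, h3, zero_comp] at h2
  rw [← cancel_epi (inv (zip M S n)), ← h2, comp_zero]

/-- The odd cohomology of an object with a vanishing exterior power is zero. -/
lemma odd_zero' {M : C} {n : ℕ} (hM : asym (-1 : ℚ) M n = 0) {j : ℤ} (hj : Odd j) :
    IsZero (R.H.obj (M⟦j⟧)) := by
  by_contra h
  have h1 : ¬ IsZero (R.H.obj (M ⊗ (𝟙_ C)⟦j⟧)) := fun h2 =>
    h (h2.of_iso (R.H.mapIso (shiftIso M j)).symm)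
  apply asym_ne_zero R h1 n
  have hS : (β_ ((𝟙_ C)⟦j⟧) ((𝟙_ C)⟦j⟧)).hom = -𝟙 _ := by
    have h2 := sgn_int C j
    rw [Sgn, Odd.neg_one_pow (Int.natAbs_odd.2 hj)] at h2
    rw [h2]
    simp
  refine kill_sym' hS hM _ fun s hs => ?_
  have h3 := (swap_asym (η := (1 : ℚ)) (by norm_num) _ hs).1
  rw [h3, one_smul]

end

section Sub

variable {C : Type u} [Category.{v} C] [Preadditive C] [HasZeroObject C] [HasShift C ℤ]
  [∀ n : ℤ, (shiftFunctor C n).Additive] [Pretriangulated C]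
  [MonoidalCategory C] [SymmetricCategory C] [TensorTriangulated C] [MonoidalPreadditive C]
  {t : TStructure C} (ht : TensorCompat t)

/-- Monomorphisms of the heart, in a strong form. -/
def Inj (t : TStructure C) {X Y : C} (f : X ⟶ Y) : Prop :=
  ∀ W, Hrt t W → ∀ K, t.IsLE K 0 → ∀ u : K ⟶ X ⊗ W, u ≫ (f ▷ W) = 0 → u = 0

/-- Epimorphisms of the heart, in a strong form. -/
def Surj (t : TStructure C) {X Y : C} (f : X ⟶ Y) : Prop :=
  ∀ W, Hrt t W → ∀ K, t.IsGE K 0 → ∀ u : Y ⊗ W ⟶ K, (f ▷ W) ≫ u = 0 → u = 0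

lemma tensor_dist_r (W : C) {X Y Z : C} {f : X ⟶ Y} {g : Y ⟶ Z} {h : Z ⟶ X⟦(1 : ℤ)⟧}
    (hT : Triangle.mk f g h ∈ distTriang C) :
    ∃ d, Triangle.mk (f ▷ W) (g ▷ W) d ∈ distTriang C := by
  obtain h1 := tensor_dist W hT
  refine ⟨(β_ Z W).hom ≫ (W ◁ h ≫ (rShift W X 1).hom) ≫ ((β_ X W).inv)⟦(1 : ℤ)⟧',
    isomorphic_distinguished _ h1 _ ?_⟩
  refine Triangle.isoMk _ _ (β_ X W) (β_ Y W) (β_ Z W) ?_ ?_ ?_
  · simp
  · simp
  · simp [← Functor.map_comp]

include ht in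
lemma inj_of_dist {X Y Z : C} {f : X ⟶ Y} {g : Y ⟶ Z} {h : Z ⟶ X⟦(1 : ℤ)⟧}
    (hT : Triangle.mk f g h ∈ distTriang C) (hZ : t.IsGE Z 0) : Inj t f := by
  intro W hW K hK u hu
  obtain ⟨d, hd⟩ := tensor_dist_r W hT
  have h1 := inv_rot_of_distTriang _ hd
  obtain ⟨v, hv⟩ := Triangle.coyoneda_exact₂ _ h1 u hu
  have h2 : t.IsGE (Z ⊗ W) 0 := by simpa using ht.isGE hZ hW.2
  have h3 : t.IsGE ((Z ⊗ W)⟦(-1 : ℤ)⟧) 1 := t.isGE_shift (Z ⊗ W) 0 (-1) 1
  have h4 : v = 0 := t.zero_of_isLE_of_isGE _ 0 1 (by omega) hK h3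
  rw [hv, h4, zero_comp]

include ht in
lemma surj_of_dist {X Y Z : C} {f : X ⟶ Y} {g : Y ⟶ Z} {h : Z ⟶ X⟦(1 : ℤ)⟧}
    (hT : Triangle.mk f g h ∈ distTriang C) (hX : t.IsLE X 0) : Surj t g := by
  intro W hW K hK u hu
  obtain ⟨d, hd⟩ := tensor_dist_r W hT
  obtain ⟨v, hv⟩ := Triangle.yoneda_exact₃ _ hd u hu
  have h2 : t.IsLE (X ⊗ W) 0 := by simpa using ht.isLE hX hW.1
  have h3 : t.IsLE ((X ⊗ W)⟦(1 : ℤ)⟧) (-1) := t.isLE_shift (X ⊗ W) 0 1 (-1)
  have h4 : v = 0 := t.zero_of_isLE_of_isGE _ (-1) 0 (by omega) h3 hK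
  rw [hv, h4, comp_zero]

lemma Inj.comp {X Y Z : C} {f : X ⟶ Y} {g : Y ⟶ Z} (hf : Inj t f) (hg : Inj t g) :
    Inj t (f ≫ g) := by
  intro W hW K hK u hu
  rw [comp_whiskerRight, ← Category.assoc] at hu
  exact hf W hW K hK u (hg W hW K hK _ hu)

lemma Surj.comp {X Y Z : C} {f : X ⟶ Y} {g : Y ⟶ Z} (hf : Surj t f) (hg : Surj t g) :
    Surj t (f ≫ g) := by
  intro W hW K hK u hu
  rw [comp_whiskerRight, Category.assoc] at hu
  exact hg W hW K hK u (hf W hW K hK _ hu)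

include ht in
lemma Inj.whisker {X Y : C} {f : X ⟶ Y} (hf : Inj t f) {V : C} (hV : Hrt t V) :
    Inj t (f ▷ V) := by
  intro W hW K hK u hu
  have h1 := hf (V ⊗ W) (ht.hrt hV hW) K hK (u ≫ (α_ X V W).hom) (by
    rw [Category.assoc, ← associator_naturality_left, ← Category.assoc, hu, zero_comp])
  rw [← cancel_mono (α_ X V W).hom, h1, zero_comp]

include ht in
lemma Surj.whisker {X Y : C} {f : X ⟶ Y} (hf : Surj t f) {V : C} (hV : Hrt t V) :
    Surj t (f ▷ V) := by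
  intro W hW K hK u hu
  have h1 := hf (V ⊗ W) (ht.hrt hV hW) K hK ((α_ Y V W).inv ≫ u) (by
    rw [associator_inv_naturality_left_assoc, hu, comp_zero])
  rw [← cancel_epi (α_ Y V W).inv, h1, comp_zero]

variable (hu : Hrt t (𝟙_ C))

include ht hu in
lemma tp_hrt {Z : C} (hZ : Hrt t Z) (n : ℕ) : Hrt t (tp Z n) := by
  induction n with
  | zero => exact hu
  | succ n ih => exact ht.hrt ih hZ

include ht hu in
lemma inj_tpm {X Y Z : C} {f : X ⟶ Y} {g : Y ⟶ Z} {h : Z ⟶ X⟦(1 : ℤ)⟧}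
    (hT : Triangle.mk f g h ∈ distTriang C) (hX : Hrt t X) (hY : Hrt t Y) (hZ : Hrt t Z)
    (n : ℕ) : Inj t (tpm f n) := by
  induction n with
  | zero =>
    intro W hW K hK u hu
    simpa [tpm] using hu
  | succ n ih =>
    have h1 : tpm f (n + 1) = (tpm f n ▷ X) ≫ (tp Y n ◁ f) := MonoidalCategory.tensorHom_def _ _
    rw [h1]
    refine (ih.whisker ht hX).comp ?_
    exact inj_of_dist ht (tensor_dist (tp Y n) hT) (ht.hrt (tp_hrt ht hu hY n) hZ).2

include ht hu in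
lemma surj_tpm {X Y Z : C} {f : X ⟶ Y} {g : Y ⟶ Z} {h : Z ⟶ X⟦(1 : ℤ)⟧}
    (hT : Triangle.mk f g h ∈ distTriang C) (hX : Hrt t X) (hY : Hrt t Y) (hZ : Hrt t Z)
    (n : ℕ) : Surj t (tpm g n) := by
  induction n with
  | zero =>
    intro W hW K hK u hu
    simpa [tpm] using hu
  | succ n ih =>
    have h1 : tpm g (n + 1) = (tpm g n ▷ Y) ≫ (tp Z n ◁ g) := MonoidalCategory.tensorHom_def _ _
    rw [h1]
    refine (ih.whisker ht hY).comp ?_
    exact surj_of_dist ht (tensor_dist (tp Z n) hT) (ht.hrt (tp_hrt ht hu hZ n) hX).1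

variable [Linear ℚ C] [MonoidalLinear ℚ C]

include ht hu in
/-- The exterior powers of a subobject. -/
lemma asym_sub {X Y Z : C} {f : X ⟶ Y} {g : Y ⟶ Z} {h : Z ⟶ X⟦(1 : ℤ)⟧}
    (hT : Triangle.mk f g h ∈ distTriang C) (hX : Hrt t X) (hY : Hrt t Y) (hZ : Hrt t Z)
    {n : ℕ} (hn : asym (-1 : ℚ) Y n = 0) : asym (-1 : ℚ) X n = 0 := by
  have h1 := asym_nat (η := (-1 : ℚ)) f n
  rw [hn, comp_zero] at h1
  have h2 := inj_tpm ht hu hT hX hY hZ n (𝟙_ C) hu (tp X n) (tp_hrt ht hu hX n).1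
    (asym (-1 : ℚ) X n ≫ (ρ_ _).inv) (by
      rw [Category.assoc, ← rightUnitor_inv_naturality, ← Category.assoc, ← h1, zero_comp])
  rw [← cancel_mono (ρ_ (tp X n)).inv, h2, zero_comp]

include ht hu in
/-- The exterior powers of a quotient. -/
lemma asym_quot {X Y Z : C} {f : X ⟶ Y} {g : Y ⟶ Z} {h : Z ⟶ X⟦(1 : ℤ)⟧}
    (hT : Triangle.mk f g h ∈ distTriang C) (hX : Hrt t X) (hY : Hrt t Y) (hZ : Hrt t Z)
    {n : ℕ} (hn : asym (-1 : ℚ) Y n = 0) : asym (-1 : ℚ) Z n = 0 := by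
  have h1 := asym_nat (η := (-1 : ℚ)) g n
  rw [hn, zero_comp] at h1
  have h2 := surj_tpm ht hu hT hX hY hZ n (𝟙_ C) hu (tp Z n) (tp_hrt ht hu hZ n).2
    ((ρ_ _).hom ≫ asym (-1 : ℚ) Z n) (by
      rw [rightUnitor_naturality_assoc, h1, comp_zero])
  rw [← cancel_epi (ρ_ (tp Z n)).hom, h2, comp_zero]

end Sub

end Pool.Agent.Q65.TS
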