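import Pool.Agent.Q65.TS.Aff

/-!
# Artin vanishing and conservativity imply exactness
-/

set_option autoImplicit false
set_option linter.unusedSectionVars false
set_option linter.unusedSimpArgs false
set_option backward.isDefEq.respectTransparency false
set_option backward.defeqAttrib.useBackward true

open CategoryTheory Limits MonoidalCategory Pretriangulated Triangulated ZeroObject
open Pool.Agent.Y116.MT Pool.Agent.Y112.KD

namespace Pool.Agent.Q65.TS

universe v u w

section Def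

variable {C : Type u} [Category.{v} C] [Preadditive C] [HasZeroObject C] [HasShift C ℤ]
  [∀ n : ℤ, (shiftFunctor C n).Additive] [Pretriangulated C]

/-- The objects built from the objects of a class by extensions. -/
inductive Built (A : ObjectProperty C) : C → Prop
  | of {X : C} (h : A X) : Built A X
  | ext {X Y Z : C} {f : X ⟶ Y} {g : Y ⟶ Z} {h : Z ⟶ X⟦(1 : ℤ)⟧}
      (hT : Triangle.mk f g h ∈ distTriang C) (hX : Built A X) (hZ : Built A Z) : Built A Y

variable [MonoidalCategory C] [SymmetricCategory C] [TensorTriangulated C]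

/-- Artin's vanishing theorem and Beilinson's basic lemma. `Aff` is the class of the motives
`h(U)(n)[j]`, where `U` is an affine variety, `j ≥ dim U` and `n` is an integer. `Good` is the class
of the motives `h(X, X ∩ H)(n)[dim X]`, where `X` is a smooth affine subvariety of a projective
space and `H` a general hyperplane. -/
structure ArtinSystem [RightRigidCategory C] (Aff Good : ObjectProperty C) {Λ : Type*}
    {E : Λ → Type w} [∀ l, Field (E l)] (R : ∀ l, Realisation C (E l)) : Prop where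
  artin (l : Λ) (X : C) : Aff X → ∀ i : ℤ, 0 < i → IsZero ((R l).H.obj (X⟦i⟧))
  good (X : C) : Good X → Built Aff X ∧ Built Aff (Xᘁ)
  basic (l : Λ) (X : C) : Good X → ∀ i : ℤ, i ≠ 0 → IsZero ((R l).H.obj (X⟦i⟧))
  generate (P : ObjectProperty C) : P.IsTriangulated → P.IsStableUnderRetracts → Good ≤ P →
    ∀ X, P X

/-- A non-degenerate t-structure compatible with the tensor product such that the motives of
affine varieties satisfy Artin vanishing. -/
structure IsReasonable (t : TStructure C) (Aff : ObjectProperty C) : Prop where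
  nondeg_le (X : C) : (∀ n : ℤ, t.le n X) → IsZero X
  nondeg_ge (X : C) : (∀ n : ℤ, t.ge n X) → IsZero X
  tensor_le (X Y : C) : t.le 0 X → t.le 0 Y → t.le 0 (X ⊗ Y)
  tensor_ge (X Y : C) : t.ge 0 X → t.ge 0 Y → t.ge 0 (X ⊗ Y)
  affine (X : C) : Aff X → t.le 0 X

end Def

section

variable {C : Type u} [Category.{v} C] [Preadditive C] [HasZeroObject C] [HasShift C ℤ]
  [∀ n : ℤ, (shiftFunctor C n).Additive] [Pretriangulated C]
  [MonoidalCategory C] [SymmetricCategory C] [TensorTriangulated C] [MonoidalPreadditive C]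
  [Linear ℚ C] [MonoidalLinear ℚ C] [RightRigidCategory C]
  {Λ : Type*} {E : Λ → Type w} [∀ l, Field (E l)] {R : ∀ l, Realisation C (E l)}
  {t : TStructure C}

/-- objects of degree `b`, with cohomology in degree `b` for all realisations -/
def DegF (t : TStructure C) (R : ∀ l, Realisation C (E l)) (b : ℤ) (Z : C) : Prop :=
  t.IsLE Z b ∧ t.IsGE Z b ∧ ∀ l, (R l).Deg Z b

lemma odd_sub_quot [Nonempty Λ] [∀ l, CharZero (E l)] (hc : JointlyConservative R)
    (hq : ∀ e : 𝟙_ C ⟶ 𝟙_ C, ∃ q : ℚ, e = q • 𝟙 _) (ht : TensorCompat t)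
    (hu : Hrt t (𝟙_ C)) {b : ℤ}
    {X Y Z : C} {f : X ⟶ Y} {g : Y ⟶ Z} {h : Z ⟶ X⟦(1 : ℤ)⟧}
    (hT : Triangle.mk f g h ∈ distTriang C) (h1 : t.IsLE X b) (h2 : t.IsGE X b)
    (h3 : t.IsLE Z b) (h4 : t.IsGE Z b) (hY : DegF t R b Y) (l : Λ) (i : ℤ)
    (hi : Odd (i - b)) :
    IsZero ((R l).H.obj (X⟦i⟧)) ∧ IsZero ((R l).H.obj (Z⟦i⟧)) := by
  have hT' := Triangle.shift_distinguished _ hT b
  have a1 : Hrt t (X⟦b⟧) := ⟨t.isLE_shift X b b 0, t.isGE_shift X b b 0⟩
  have a2 : Hrt t (Y⟦b⟧) := by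
    have b1 := hY.1
    have b2 := hY.2.1
    exact ⟨t.isLE_shift Y b b 0, t.isGE_shift Y b b 0⟩
  have a3 : Hrt t (Z⟦b⟧) := ⟨t.isLE_shift Z b b 0, t.isGE_shift Z b b 0⟩
  obtain ⟨n, hn⟩ := asym_zero_of hc hq (fun l => (hY.2.2 l).shift b 0 (by omega))
  have c1 := asym_sub ht hu hT' a1 a2 a3 hn
  have c2 := asym_quot ht hu hT' a1 a2 a3 hn
  exact ⟨(odd_zero' (R := R l) c1 hi).of_iso
    ((R l).H.mapIso ((shiftFunctorAdd' C b (i - b) i (by omega)).app X)),
    (odd_zero' (R := R l) c2 hi).of_iso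
    ((R l).H.mapIso ((shiftFunctorAdd' C b (i - b) i (by omega)).app Z))⟩

lemma degF_pieces (hodd : ∀ (b : ℤ) (X Y Z : C) (f : X ⟶ Y) (g : Y ⟶ Z) (h : Z ⟶ X⟦(1 : ℤ)⟧),
    Triangle.mk f g h ∈ distTriang C → t.IsLE X b → t.IsGE X b → t.IsLE Z b → t.IsGE Z b →
    DegF t R b Y → ∀ (l : Λ) (i : ℤ), Odd (i - b) →
    IsZero ((R l).H.obj (X⟦i⟧)) ∧ IsZero ((R l).H.obj (Z⟦i⟧))) :
    Pieces t (DegF t R) where
  le h := h.1
  ge h := h.2.1
  zero h := ⟨t.isLE_of_isZero h _, t.isGE_of_isZero h _, fun l i _ =>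
    (R l).H.map_isZero (isZero_shift h i)⟩
  sub := by
    intro b X Y Z f g h hT h1 h2 h3 h4 hY
    have hodd' := hodd b X Y Z f g h hT h1 h2 h3 h4 hY
    refine ⟨h1, h2, fun l i hi => ?_⟩
    by_cases hi' : Odd (i - b)
    · exact (hodd' l i hi').1
    · refine hz1 (R l).H hT i (hY.2.2 l i hi) (hodd' l (i - 1) ?_).2
      rw [Int.not_odd_iff_even] at hi'
      rcases hi' with ⟨r, hr⟩
      exact ⟨r - 1, by omega⟩
  quot := by
    intro b X Y Z f g h hT h1 h2 h3 h4 hY
    have hodd' := hodd b X Y Z f g h hT h1 h2 h3 h4 hY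
    refine ⟨h3, h4, fun l i hi => ?_⟩
    by_cases hi' : Odd (i - b)
    · exact (hodd' l i hi').2
    · refine hz3 (R l).H hT i (hY.2.2 l i hi) (hodd' l (i + 1) ?_).1
      rw [Int.not_odd_iff_even] at hi'
      rcases hi' with ⟨r, hr⟩
      exact ⟨r, by omega⟩
  ext := by
    intro b X Y Z f g h hT hX hZ
    exact ⟨isLE2 hT hX.1 hZ.1, isGE2 hT hX.2.1 hZ.2.1, fun l i hi =>
      hz2 (R l).H hT i (hX.2.2 l i hi) (hZ.2.2 l i hi)⟩
  shift := by
    intro a b n hab Z hZ
    have h1 := hZ.1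
    have h2 := hZ.2.1
    exact ⟨t.isLE_shift Z b n a (by omega), t.isGE_shift Z b n a (by omega),
      fun l => (hZ.2.2 l).shift n a hab⟩
  retract i r hir h := ⟨isLE_retract h.1 i r hir, isGE_retract h.2.1 i r hir,
    fun l => (h.2.2 l).retract i r hir⟩

variable [IsTriangulated C]

lemma exact_of_pieces (hS : Pieces t (DegF t R)) (G : ObjectProperty C)
    (hG : ∀ X, G X → Hrt t X) (hGd : ∀ l X, G X → (R l).Deg X 0)
    (hgen : ∀ P : ObjectProperty C, P.IsTriangulated → P.IsStableUnderRetracts → G ≤ P →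
      ∀ X, P X) (l : Λ) : TExact t (R l) := by
  have hall : ∀ X : C, TowP (DegF t R) X := by
    refine hgen _ (towP_triangulated hS) (towP_retracts hS) ?_
    intro X hX
    exact ⟨1, 0, 0, X, 0, 𝟙 X, 0, contractible_distinguished₁ X, isZero_zero C,
      (hG X hX).1, (hG X hX).2, fun l => hGd l X hX⟩
  constructor
  · intro X hX i hi
    obtain ⟨k, b, hk⟩ := hall X
    exact hk.strip_le hS (R l).H (fun b Z hZ i hi => hZ.2.2 l i (by omega)) (n := 0) ⟨hX⟩ i hi
  · intro X hX i hi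
    obtain ⟨k, b, hk⟩ := hall X
    exact hk.strip_ge hS (R l).H (fun b Z hZ i hi => hZ.2.2 l i (by omega)) (n := 0) ⟨hX⟩ i hi

omit [Linear ℚ C] [MonoidalLinear ℚ C] [IsTriangulated C] in
lemma built_isLE {Aff : ObjectProperty C} (h : ∀ X, Aff X → t.le 0 X) {X : C}
    (hX : Built Aff X) : t.IsLE X 0 := by
  induction hX with
  | of h' => exact ⟨h _ h'⟩
  | ext hT _ _ ih1 ih2 => exact isLE2 hT ih1 ih2

omit [Linear ℚ C] [MonoidalLinear ℚ C] [IsTriangulated C] in
lemma isGE_of_dual (ht : TensorCompat t) (hu : Hrt t (𝟙_ C)) {G : C} (h : t.IsLE (Gᘁ : C) 0) :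
    t.IsGE G 0 := by
  rw [t.isGE_iff_orthogonal (-1) 0 (by omega)]
  intro X f hX
  have h1 : t.IsLE ((Gᘁ : C) ⊗ X) (-1) := by simpa using ht.isLE h hX
  have h2 : (tensorLeftHomEquiv X G Gᘁ (𝟙_ C)).symm (f ≫ (ρ_ G).inv) = 0 :=
    t.zero_of_isLE_of_isGE _ (-1) 0 (by omega) h1 hu.2
  have h3 : f ≫ (ρ_ G).inv = 0 := by
    rw [← (tensorLeftHomEquiv X G Gᘁ (𝟙_ C)).apply_symm_apply (f ≫ (ρ_ G).inv), h2]
    simp [tensorLeftHomEquiv]
  rw [← cancel_mono (ρ_ G).inv, h3, zero_comp]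

end

section Main

variable {C : Type u} [Category.{v} C] [Preadditive C] [HasZeroObject C] [HasShift C ℤ]
  [∀ n : ℤ, (shiftFunctor C n).Additive] [Pretriangulated C] [IsTriangulated C]
  [MonoidalCategory C] [SymmetricCategory C] [TensorTriangulated C] [MonoidalPreadditive C]
  [Linear ℚ C] [MonoidalLinear ℚ C] [RightRigidCategory C]
  {Aff Good : ObjectProperty C} {Λ : Type*} {E : Λ → Type w} [∀ l, Field (E l)]
  [∀ l, CharZero (E l)] {R : ∀ l, Realisation C (E l)} (S : ArtinSystem Aff Good R)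

include S

lemma good_hrt {t : TStructure C} (h : IsReasonable t Aff) {X : C} (hX : Good X) : Hrt t X := by
  have ht : TensorCompat t := ⟨h.tensor_le, h.tensor_ge⟩
  have hu := unit_hrt ht h.nondeg_le h.nondeg_ge
  obtain ⟨h1, h2⟩ := S.good X hX
  exact ⟨built_isLE h.affine h1, isGE_of_dual ht hu (built_isLE h.affine h2)⟩

/-- Artin vanishing for the t-structure and joint conservativity imply exactness. -/
theorem exact_of_reasonable [Nonempty Λ] (hq : ∀ e : 𝟙_ C ⟶ 𝟙_ C, ∃ q : ℚ, e = q • 𝟙 _)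
    {t : TStructure C} (h : IsReasonable t Aff) (hc : JointlyConservative R) (l : Λ) :
    TExact t (R l) := by
  have ht : TensorCompat t := ⟨h.tensor_le, h.tensor_ge⟩
  have hu := unit_hrt ht h.nondeg_le h.nondeg_ge
  exact exact_of_pieces (degF_pieces (fun b X Y Z f g h hT h1 h2 h3 h4 hY =>
    odd_sub_quot hc hq ht hu hT h1 h2 h3 h4 hY)) Good (fun X hX => good_hrt S h hX)
    S.basic S.generate l

/-- The motivic t-structure satisfies Artin vanishing. -/
theorem reasonable_of_motivic (hid : ∀ e : 𝟙_ C ⟶ 𝟙_ C, e ≫ e = e → e = 0 ∨ e = 𝟙 _)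
    {t : TStructure C} {l : Λ} (h : IsMotivic t (fun _ : Unit => R l)) :
    IsReasonable t Aff ∧ IsMotivic t R ∧ ∀ l', Conservative (R l') := by
  have ht : TensorCompat t := ⟨h.tensor_le, h.tensor_ge⟩
  have he : TExact t (R l) := ⟨h.exact_le (), h.exact_ge ()⟩
  have hu := unit_hrt ht h.nondeg_le h.nondeg_ge
  have hc : Conservative (R l) := fun X hX => conservative ht he hu hid h.nondeg_le
      h.nondeg_ge hX
  have hr : IsReasonable t Aff := ⟨h.nondeg_le, h.nondeg_ge, h.tensor_le, h.tensor_ge,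
    fun X hX => (le_iff_H he hc X 0).2 (S.artin l X hX)⟩
  have he' : ∀ l', TExact t (R l') := fun l' =>
    exact_of_pieces (degF_pieces (fun b X Y Z f g h hT h1 h2 h3 h4 hY l i hi =>
      ⟨oddZero_of (R l) ht he hu hid b X h1 h2 i hi,
        oddZero_of (R l) ht he hu hid b Z h3 h4 i hi⟩)) Good
      (fun X hX => good_hrt S hr hX) S.basic S.generate l'
  exact ⟨hr, ⟨h.nondeg_le, h.nondeg_ge, h.tensor_le, h.tensor_ge, fun l' => (he' l').le,
    fun l' => (he' l').ge⟩, fun l' X hX => conservative ht (he' l') hu hid h.nondeg_le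
      h.nondeg_ge hX⟩

/-- **Conservativity and Artin vanishing for the t-structure.** -/
theorem main_aff [Nonempty Λ] (hq : ∀ e : 𝟙_ C ⟶ 𝟙_ C, ∃ q : ℚ, e = q • 𝟙 _) :
    (∀ t : TStructure C, IsReasonable t Aff → JointlyConservative R →
      IsMotivic t R ∧ (∀ l, Conservative (R l)) ∧ ∀ X : C, ∃ a b : ℤ, t.ge a X ∧ t.le b X) ∧
    (∀ (t : TStructure C) (l : Λ), IsMotivic t (fun _ : Unit => R l) → IsReasonable t Aff) ∧
    (∀ t t' : TStructure C, JointlyConservative R → IsReasonable t Aff →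
      IsReasonable t' Aff → t = t') ∧
    List.TFAE [
      ∃ t : TStructure C, IsMotivic t R,
      (∀ l, Conservative (R l)) ∧ ∃ t : TStructure C, IsReasonable t Aff,
      (∃ l, Conservative (R l)) ∧ ∃ t : TStructure C, IsReasonable t Aff,
      JointlyConservative R ∧ ∃ t : TStructure C, IsReasonable t Aff] := by
  have hid := idem_of_rat hq
  have h1 : ∀ t : TStructure C, IsReasonable t Aff → JointlyConservative R → ∀ l,
      IsMotivic t (fun _ : Unit => R l) := by
    intro t h hc l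
    have he := exact_of_reasonable S hq h hc l
    exact ⟨h.nondeg_le, h.nondeg_ge, h.tensor_le, h.tensor_ge, fun _ => he.le, fun _ => he.ge⟩
  refine ⟨?_, ?_, ?_, ?_⟩
  · intro t h hc
    obtain ⟨l⟩ := ‹Nonempty Λ›
    obtain ⟨_, h2, h3⟩ := reasonable_of_motivic S hid (h1 t h hc l)
    refine ⟨h2, h3, fun X => ?_⟩
    have ht : TensorCompat t := ⟨h.tensor_le, h.tensor_ge⟩
    have hu := unit_hrt ht h.nondeg_le h.nondeg_ge
    have : Nonempty Λ := ⟨l⟩
    obtain ⟨N, h4, h5⟩ := bounded_of_H ht (exact_of_reasonable S hq h hc l) hu hid h.nondeg_le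
      h.nondeg_ge X
    exact ⟨-N, N, h5.ge, h4.le⟩
  · intro t l h
    exact (reasonable_of_motivic S hid h).1
  · intro t t' hc h h'
    obtain ⟨l⟩ := ‹Nonempty Λ›
    have : Nonempty Λ := ⟨l⟩
    have he := exact_of_reasonable S hq h hc l
    have he' := exact_of_reasonable S hq h' hc l
    have hcl := (reasonable_of_motivic S hid (h1 t h hc l)).2.2 l
    apply tstr_ext
    · funext n X
      exact propext ((le_iff_H he hcl X n).trans (le_iff_H he' hcl X n).symm)
    · funext n X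
      exact propext ((ge_iff_H he hcl X n).trans (ge_iff_H he' hcl X n).symm)
  · tfae_have 1 → 2 := by
      rintro ⟨t, h⟩
      obtain ⟨l⟩ := ‹Nonempty Λ›
      obtain ⟨h2, _, h3⟩ := reasonable_of_motivic S hid (t := t) (l := l)
        ⟨h.nondeg_le, h.nondeg_ge, h.tensor_le, h.tensor_ge, fun _ => h.exact_le l,
        fun _ => h.exact_ge l⟩
      exact ⟨h3, t, h2⟩
    tfae_have 2 → 3 := by
      rintro ⟨h, h'⟩
      obtain ⟨l⟩ := ‹Nonempty Λ›
      exact ⟨⟨l, h l⟩, h'⟩
    tfae_have 3 → 4 := by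
      rintro ⟨⟨l, h⟩, h'⟩
      exact ⟨fun X hX => h X (hX l), h'⟩
    tfae_have 4 → 1 := by
      rintro ⟨hc, t, h⟩
      obtain ⟨l⟩ := ‹Nonempty Λ›
      exact ⟨t, (reasonable_of_motivic S hid (h1 t h hc l)).2.1⟩
    tfae_finish

end Main

end Pool.Agent.Q65.TS
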