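import Pool.Agent.Q65.TS.One

/-!
# Conservative exact realisations, uniqueness, dimensions
-/

set_option autoImplicit false
set_option linter.unusedSectionVars false
set_option linter.unusedSimpArgs false
set_option backward.isDefEq.respectTransparency false
set_option backward.defeqAttrib.useBackward true

open CategoryTheory Limits MonoidalCategory Pretriangulated Triangulated
open Pool.Agent.Y116.MT

namespace Pool.Agent.Q65.TS

universe v u w

section

variable {C : Type u} [Category.{v} C] [Preadditive C] [HasZeroObject C] [HasShift C ℤ]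
  [∀ n : ℤ, (shiftFunctor C n).Additive] [Pretriangulated C]
  [MonoidalCategory C] [SymmetricCategory C] [TensorTriangulated C] [MonoidalPreadditive C]
  [RightRigidCategory C]
  {E : Type w} [Field E] {R : Realisation C E} {t : TStructure C}

/-- A realisation is conservative if objects without cohomology are zero. -/
def Conservative (R : Realisation C E) : Prop :=
  ∀ X : C, (∀ i : ℤ, IsZero (R.H.obj (X⟦i⟧))) → IsZero X

lemma kunneth_zero {X Y : C} {n : ℤ}
    (h : ∀ i : ℤ, IsZero (R.H.obj (X⟦i⟧)) ∨ IsZero (R.H.obj (Y⟦n - i⟧))) :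
    IsZero (R.H.obj ((X ⊗ Y)⟦n⟧)) := by
  have h0 : IsZero (R.H.obj (X ⊗ Y⟦n⟧)) := by
    rw [ModuleCat.isZero_iff_subsingleton]
    have h1 : ∀ i : ℤ, Subsingleton (R.H.obj (X⟦i⟧) ⊗ R.H.obj (Y⟦n⟧⟦-i⟧) : ModuleCat.{w} E) := by
      intro i
      rcases h i with hi | hi
      · exact tensor_subsingleton_left hi
      · exact tensor_subsingleton_right (hi.of_iso
          (R.H.mapIso ((shiftFunctorAdd' C n (-i) (n - i) (by omega)).app Y).symm))
    have h2 : Subsingleton (DirectSum ℤ (fun i : ℤ =>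
        (R.H.obj (X⟦i⟧) ⊗ R.H.obj (Y⟦n⟧⟦-i⟧) : ModuleCat.{w} E))) := by
      constructor
      intro x y
      ext i
      have := h1 i
      exact Subsingleton.elim _ _
    exact (R.kunneth X (Y⟦n⟧)).2.subsingleton
  exact h0.of_iso (R.H.mapIso (rShift X Y n).symm)

lemma isLE_iff_H (he : TExact t R) (hc : Conservative R) (X : C) (n : ℤ) :
    t.IsLE X n ↔ ∀ i : ℤ, n < i → IsZero (R.H.obj (X⟦i⟧)) := by
  constructor
  · intro h i hi
    exact he.isLE h i hi
  · intro hX
    obtain ⟨A, B, hA, hB, f, g, h, hT⟩ := t.exists_triangle X n (n + 1) rfl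
    have hA1 : t.IsLE A n := ⟨hA⟩
    have hB1 : t.IsGE B (n + 1) := ⟨hB⟩
    have hBz : IsZero B := by
      apply hc
      intro i
      by_cases hi : i < n + 1
      · exact he.isGE hB1 i hi
      · exact hz3 R.H hT i (hX i (by omega)) (he.isLE hA1 _ (by omega))
    have h6 := isIso1_of_isZero3 hT hBz
    exact @TStructure.isLE_of_iso _ _ _ _ _ _ _ t _ _ (asIso f) _ hA1

lemma isGE_iff_H (he : TExact t R) (hc : Conservative R) (X : C) (n : ℤ) :
    t.IsGE X n ↔ ∀ i : ℤ, i < n → IsZero (R.H.obj (X⟦i⟧)) := by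
  constructor
  · intro h i hi
    exact he.isGE h i hi
  · intro hX
    obtain ⟨A, B, hA, hB, f, g, h, hT⟩ := t.exists_triangle X (n - 1) n (by omega)
    have hA1 : t.IsLE A (n - 1) := ⟨hA⟩
    have hB1 : t.IsGE B n := ⟨hB⟩
    have hAz : IsZero A := by
      apply hc
      intro i
      by_cases hi : n - 1 < i
      · exact he.isLE hA1 i hi
      · exact hz1 R.H hT i (hX i (by omega)) (he.isGE hB1 _ (by omega))
    have h6 := isIso2_of_isZero1 hT hAz
    exact @TStructure.isGE_of_iso _ _ _ _ _ _ _ t _ _ (asIso g).symm _ hB1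

lemma le_iff_H (he : TExact t R) (hc : Conservative R) (X : C) (n : ℤ) :
    t.le n X ↔ ∀ i : ℤ, n < i → IsZero (R.H.obj (X⟦i⟧)) :=
  ⟨fun h => (isLE_iff_H he hc X n).1 ⟨h⟩, fun h => ((isLE_iff_H he hc X n).2 h).le⟩

lemma ge_iff_H (he : TExact t R) (hc : Conservative R) (X : C) (n : ℤ) :
    t.ge n X ↔ ∀ i : ℤ, i < n → IsZero (R.H.obj (X⟦i⟧)) :=
  ⟨fun h => (isGE_iff_H he hc X n).1 ⟨h⟩, fun h => ((isGE_iff_H he hc X n).2 h).ge⟩

/-- A t-structure with an exact conservative realisation is non degenerate and compatible with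
the tensor product. -/
lemma motivic_of_conservative (he : TExact t R) (hc : Conservative R) :
    IsMotivic t (fun _ : Unit => R) where
  nondeg_le X h := hc X fun i => (le_iff_H he hc X (i - 1)).1 (h (i - 1)) i (by omega)
  nondeg_ge X h := hc X fun i => (ge_iff_H he hc X (i + 1)).1 (h (i + 1)) i (by omega)
  tensor_le X Y hX hY := by
    rw [le_iff_H he hc] at *
    intro n hn
    refine kunneth_zero fun i => ?_
    by_cases hi : 0 < i
    · exact Or.inl (hX i hi)
    · exact Or.inr (hY _ (by omega))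
  tensor_ge X Y hX hY := by
    rw [ge_iff_H he hc] at *
    intro n hn
    refine kunneth_zero fun i => ?_
    by_cases hi : i < 0
    · exact Or.inl (hX i hi)
    · exact Or.inr (hY _ (by omega))
  exact_le _ := he.le
  exact_ge _ := he.ge

lemma tstr_ext {t t' : TStructure C} (h1 : t.le = t'.le) (h2 : t.ge = t'.ge) : t = t' := by
  cases t
  cases t'
  congr

end

section Main

variable {C : Type u} [Category.{v} C] [Preadditive C] [HasZeroObject C] [HasShift C ℤ]
  [∀ n : ℤ, (shiftFunctor C n).Additive] [Pretriangulated C] [IsTriangulated C]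
  [MonoidalCategory C] [SymmetricCategory C] [TensorTriangulated C] [MonoidalPreadditive C]
  [Linear ℚ C] [MonoidalLinear ℚ C] [RightRigidCategory C]

variable {Chow : ObjectProperty C} {Λ : Type*} {E : Λ → Type w} [∀ l, Field (E l)]
  [∀ l, CharZero (E l)] {R : ∀ l, Realisation C (E l)} (W : WeightSystem Chow R)

lemma finrank_of_iso {E : Type w} [Field E] {M N : ModuleCat.{w} E} (e : M ≅ N) :
    Module.finrank E M = Module.finrank E N :=
  e.toLinearEquiv.finrank_eq

include W in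
/-- the dimensions do not depend on `l` -/
theorem dim_eq {t : TStructure C} (he : ∀ l, TExact t (R l)) (l l' : Λ) (m n : ℤ) (X : C) :
    Module.finrank (E l) ((W.gr l m).obj (X⟦n⟧)) =
      Module.finrank (E l') ((W.gr l' m).obj (X⟦n⟧)) := by
  obtain ⟨A, B, hA, hB, f, g, h, hT⟩ := t.exists_triangle X n (n + 1) rfl
  have hA1 : t.IsLE A n := ⟨hA⟩
  have hB1 : t.IsGE B (n + 1) := ⟨hB⟩
  obtain ⟨A', M, hA', hM, f', g', h', hT'⟩ := t.exists_triangle A (n - 1) n (by omega)
  have hA2 : t.IsLE A' (n - 1) := ⟨hA'⟩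
  have hM1 : t.IsGE M n := ⟨hM⟩
  have hM2 : t.IsLE M n := isLE3 hT' (t.isLE_of_le A' (n - 1) (n + 1)) hA1
  have key : ∀ l : Λ, Module.finrank (E l) ((W.gr l m).obj (X⟦n⟧)) =
      Module.finrank (E l) ((W.gr l m).obj (M⟦n⟧)) := by
    intro l
    have a1 : Mono ((W.gr l m).map (f⟦n⟧')) := hmono1 (W.gr l m) hT n
      ((W.isZero_iff l _).1 ((he l).isGE hB1 (n - 1) (by omega)) m)
    have a2 : Epi ((W.gr l m).map (f⟦n⟧')) := hepi1 (W.gr l m) hT n
      ((W.isZero_iff l _).1 ((he l).isGE hB1 n (by omega)) m)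
    have a3 : Mono ((W.gr l m).map (g'⟦n⟧')) := hmono2 (W.gr l m) hT' n
      ((W.isZero_iff l _).1 ((he l).isLE hA2 n (by omega)) m)
    have a4 : Epi ((W.gr l m).map (g'⟦n⟧')) := hepi2 (W.gr l m) hT' n
      ((W.isZero_iff l _).1 ((he l).isLE hA2 (n + 1) (by omega)) m)
    have a5 := isIso_of_mono_of_epi ((W.gr l m).map (f⟦n⟧'))
    have a6 := isIso_of_mono_of_epi ((W.gr l m).map (g'⟦n⟧'))
    rw [← finrank_of_iso (asIso ((W.gr l m).map (f⟦n⟧'))),
      finrank_of_iso (asIso ((W.gr l m).map (g'⟦n⟧')))]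
  rw [key l, key l']
  have key2 : ∀ l : Λ, ∑ᶠ k : ℤ, (k.negOnePow : ℤ) *
      (Module.finrank (E l) ((W.gr l m).obj (M⟦k⟧)) : ℤ) =
      (n.negOnePow : ℤ) * (Module.finrank (E l) ((W.gr l m).obj (M⟦n⟧)) : ℤ) := by
    intro l
    rw [finsum_eq_single _ n]
    intro k hk
    have h1 : IsZero ((R l).H.obj (M⟦k⟧)) := by
      rcases lt_or_gt_of_ne hk with h | h
      · exact (he l).isGE hM1 k h
      · exact (he l).isLE hM2 k h
    have h3 := (W.isZero_iff l _).1 h1 m
    have h4 : Subsingleton ((W.gr l m).obj (M⟦k⟧)) := ModuleCat.subsingleton_of_isZero h3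
    rw [Module.finrank_zero_of_subsingleton]
    simp
  have h5 := W.euler l l' m M
  rw [key2 l, key2 l'] at h5
  have h7 : (n.negOnePow : ℤ) ≠ 0 := Units.ne_zero _
  exact_mod_cast mul_left_cancel₀ h7 h5

include W in
/-- **One prime suffices.** -/
theorem main [Nonempty Λ] (hid : ∀ e : 𝟙_ C ⟶ 𝟙_ C, e ≫ e = e → e = 0 ∨ e = 𝟙 _) :
    (∀ (t : TStructure C) (l : Λ), IsMotivic t (fun _ : Unit => R l) →
      IsMotivic t R ∧ (∀ l', Conservative (R l')) ∧
      (∀ X : C, ∃ a b : ℤ, t.ge a X ∧ t.le b X) ∧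
      (∀ (l' l'' : Λ) (m n : ℤ) (X : C), Module.finrank (E l') ((W.gr l' m).obj (X⟦n⟧)) =
        Module.finrank (E l'') ((W.gr l'' m).obj (X⟦n⟧)))) ∧
    (∀ (t t' : TStructure C) (l l' : Λ), IsMotivic t (fun _ : Unit => R l) →
      IsMotivic t' (fun _ : Unit => R l') → t = t') ∧
    List.TFAE [
      ∃ t : TStructure C, IsMotivic t R,
      ∃ (l : Λ) (t : TStructure C), IsMotivic t (fun _ : Unit => R l),
      ∃ (l : Λ) (t : TStructure C), Conservative (R l) ∧ TExact t (R l),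
      (∀ l : Λ, Conservative (R l)) ∧ ∃ t : TStructure C, ∀ l : Λ, TExact t (R l)] := by
  have h0 : ∀ (t : TStructure C) (l : Λ), IsMotivic t (fun _ : Unit => R l) →
      (∀ l', TExact t (R l')) ∧ (∀ l', Conservative (R l')) := by
    intro t l h
    have ht : TensorCompat t := ⟨h.tensor_le, h.tensor_ge⟩
    have he : TExact t (R l) := ⟨h.exact_le (), h.exact_ge ()⟩
    have h1 := fun l' => exact_all W ht h.nondeg_le h.nondeg_ge hid l l' he
    have hu := unit_hrt ht h.nondeg_le h.nondeg_ge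
    exact ⟨h1, fun l' X hX => conservative ht (h1 l') hu hid h.nondeg_le
      h.nondeg_ge hX⟩
  have h1 : ∀ (t : TStructure C) (l : Λ), IsMotivic t (fun _ : Unit => R l) → IsMotivic t R := by
    intro t l h
    obtain ⟨h2, h3⟩ := h0 t l h
    exact ⟨h.nondeg_le, h.nondeg_ge, h.tensor_le, h.tensor_ge, fun l' => (h2 l').le,
      fun l' => (h2 l').ge⟩
  refine ⟨?_, ?_, ?_⟩
  · intro t l h
    obtain ⟨h2, h3⟩ := h0 t l h
    refine ⟨h1 t l h, h3, ?_, fun l' l'' m n X => dim_eq W h2 l' l'' m n X⟩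
    intro X
    have ht : TensorCompat t := ⟨h.tensor_le, h.tensor_ge⟩
    have hu := unit_hrt ht h.nondeg_le h.nondeg_ge
    obtain ⟨N, h4, h5⟩ := bounded_of_H ht (h2 l) hu hid h.nondeg_le h.nondeg_ge X
    exact ⟨-N, N, h5.ge, h4.le⟩
  · intro t t' l l' h h'
    obtain ⟨h2, h3⟩ := h0 t l h
    obtain ⟨h2', h3'⟩ := h0 t' l' h'
    apply tstr_ext
    · funext n X
      exact propext ((le_iff_H (h2 l) (h3 l) X n).trans (le_iff_H (h2' l) (h3 l) X n).symm)
    · funext n X
      exact propext ((ge_iff_H (h2 l) (h3 l) X n).trans (ge_iff_H (h2' l) (h3 l) X n).symm)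
  · tfae_have 1 → 2 := by
      rintro ⟨t, h⟩
      obtain ⟨l⟩ := ‹Nonempty Λ›
      exact ⟨l, t, h.nondeg_le, h.nondeg_ge, h.tensor_le, h.tensor_ge, fun _ => h.exact_le l,
        fun _ => h.exact_ge l⟩
    tfae_have 2 → 1 := by
      rintro ⟨l, t, h⟩
      exact ⟨t, h1 t l h⟩
    tfae_have 2 → 4 := by
      rintro ⟨l, t, h⟩
      obtain ⟨h2, h3⟩ := h0 t l h
      exact ⟨h3, t, h2⟩
    tfae_have 4 → 3 := by
      rintro ⟨h, t, h'⟩
      obtain ⟨l⟩ := ‹Nonempty Λ›
      exact ⟨l, t, h l, h' l⟩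
    tfae_have 3 → 2 := by
      rintro ⟨l, t, h, h'⟩
      exact ⟨l, t, motivic_of_conservative h' h⟩
    tfae_finish

end Main

end Pool.Agent.Q65.TS
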