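import Pool.Agent.Q65.TS.Uni2
import Pool.Agent.Q65.TS.Aff2

/-!
# Tensor t-structures and conservative realisations
-/

set_option autoImplicit false
set_option linter.unusedSectionVars false
set_option linter.unusedSimpArgs false
set_option backward.isDefEq.respectTransparency false
set_option backward.defeqAttrib.useBackward true

open CategoryTheory Limits MonoidalCategory Pretriangulated Triangulated
open Pool.Agent.Y116.MT Pool.Agent.Y112.KD

namespace Pool.Agent.Q65.TS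

universe v u w

section Def

variable {C : Type u} [Category.{v} C] [Preadditive C] [HasZeroObject C] [HasShift C ℤ]
  [∀ n : ℤ, (shiftFunctor C n).Additive] [Pretriangulated C] [MonoidalCategory C]
  [SymmetricCategory C] [TensorTriangulated C]

/-- The objects with cohomology in degree zero for all realisations generate the category (a
consequence of Beilinson's basic lemma). -/
def BasicLemma {Λ : Type*} {E : Λ → Type w} [∀ l, Field (E l)]
    (R : ∀ l, Realisation C (E l)) : Prop :=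
  ∀ P : ObjectProperty C, P.IsTriangulated → P.IsStableUnderRetracts →
    (∀ X, (∀ l, (R l).Deg X 0) → P X) → ∀ X, P X

end Def

section Tensor

variable {C : Type u} [Category.{v} C] [Preadditive C] [HasZeroObject C] [HasShift C ℤ]
  [∀ n : ℤ, (shiftFunctor C n).Additive] [Pretriangulated C]
  [MonoidalCategory C] [SymmetricCategory C] [TensorTriangulated C] [MonoidalPreadditive C]
  {t : TStructure C} (ht : TensorCompat t)
  {P M Q : C} {f : P ⟶ M} {g : M ⟶ Q} {h : Q ⟶ P⟦(1 : ℤ)⟧}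
  (hT : Triangle.mk f g h ∈ distTriang C) {i : ℤ} (hP : t.IsLE P i) (hQ : t.IsGE Q i)

include ht hT hP hQ

lemma umono_trunc' : UMono t f := by
  intro m W
  obtain ⟨W1, W2, h1, h2, a, w, d, hW⟩ := t.exists_triangle W (m - i - 1) (m - i) (by omega)
  have h1' : t.IsLE W1 (m - i - 1) := ⟨h1⟩
  have h2' : t.IsGE W2 (m - i) := ⟨h2⟩
  have b1 : t.IsLE (P ⊗ W1) (m - 1) := by
    have := ht.isLE hP h1'
    rwa [show i + (m - i - 1) = m - 1 by ring] at this
  have b2 : t.IsGE (Q ⊗ W2) m := by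
    have := ht.isGE hQ h2'
    rwa [show i + (m - i) = m by ring] at this
  have c1 : MonoH t m (P ◁ w) := monoH_of_fiber (tensor_dist P hW) b1
  obtain ⟨d', hd'⟩ := tensor_dist_r W2 hT
  have c2 : MonoH t m (f ▷ W2) := monoH_of_cofiber hd' b2
  have c3 := c1.comp c2
  rw [whisker_exchange] at c3
  exact c3.of_comp

lemma uepi_trunc' : UEpi t g := by
  intro m W
  obtain ⟨W1, W2, h1, h2, a, w, d, hW⟩ := t.exists_triangle W (m - i) (m - i + 1) (by omega)
  have h1' : t.IsLE W1 (m - i) := ⟨h1⟩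
  have h2' : t.IsGE W2 (m - i + 1) := ⟨h2⟩
  have b1 : t.IsLE (P ⊗ W1) m := by
    have := ht.isLE hP h1'
    rwa [show i + (m - i) = m by ring] at this
  have b2 : t.IsGE (Q ⊗ W2) (m + 1) := by
    have := ht.isGE hQ h2'
    rwa [show i + (m - i + 1) = m + 1 by ring] at this
  obtain ⟨d', hd'⟩ := tensor_dist_r W1 hT
  have c1 : EpiH t m (g ▷ W1) := epiH_of_fiber hd' b1
  have c2 : EpiH t m (Q ◁ a) := epiH_of_cofiber (tensor_dist Q hW) b2
  have c3 := c1.comp c2
  rw [← whisker_exchange] at c3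
  exact c3.of_comp

lemma umono_tpm' (n : ℕ) : UMono t (tpm f n) := by
  induction n with
  | zero => exact umono_iso (𝟙 (𝟙_ C))
  | succ n ih =>
    have h1 : tpm f (n + 1) = (tpm f n ▷ P) ≫ (tp M n ◁ f) := MonoidalCategory.tensorHom_def _ _
    rw [h1]
    exact (ih.whisker P).comp ((umono_trunc' ht hT hP hQ).whiskerL _)

lemma uepi_tpm' (n : ℕ) : UEpi t (tpm g n) := by
  induction n with
  | zero => exact uepi_iso (𝟙 (𝟙_ C))
  | succ n ih =>
    have h1 : tpm g (n + 1) = (tpm g n ▷ M) ≫ (tp Q n ◁ g) := MonoidalCategory.tensorHom_def _ _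
    rw [h1]
    exact (ih.whisker M).comp ((uepi_trunc' ht hT hP hQ).whiskerL _)

variable [Linear ℚ C] [MonoidalLinear ℚ C] [IsIdempotentComplete C]
  (hle : ∀ X : C, (∀ n : ℤ, t.le n X) → IsZero X)
  (hge : ∀ X : C, (∀ n : ℤ, t.ge n X) → IsZero X)

include hle hge

/-- The two parts of an object with a vanishing exterior power have this property, too. -/
lemma asym_trunc' {n : ℕ} (hn : asym (-1 : ℚ) M n = 0) :
    asym (-1 : ℚ) P n = 0 ∧ asym (-1 : ℚ) Q n = 0 := by
  constructor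
  · refine ghost_idem_zero hle hge (asym_idem (by norm_num) _ _) ?_
    intro m A B hA hB a b
    have h1 := asym_nat (η := (-1 : ℚ)) f n
    rw [hn, comp_zero] at h1
    have h2 := umono_tpm' ht hT hP hQ n m (𝟙_ C) A hA (a ≫ asym (-1 : ℚ) P n ≫ (ρ_ _).inv)
      (fun B hB b => by
        simp only [Category.assoc]
        rw [← rightUnitor_inv_naturality_assoc, ← reassoc_of% h1, zero_comp, comp_zero]) B hB
      ((ρ_ _).hom ≫ b)
    simpa using h2
  · refine ghost_idem_zero hle hge (asym_idem (by norm_num) _ _) ?_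
    intro m A B hA hB a b
    have h1 := asym_nat (η := (-1 : ℚ)) g n
    rw [hn, zero_comp] at h1
    have h2 := uepi_tpm' ht hT hP hQ n m (𝟙_ C) B hB ((ρ_ _).hom ≫ asym (-1 : ℚ) Q n ≫ b)
      (fun A hA a => by
        rw [rightUnitor_naturality_assoc, reassoc_of% h1, zero_comp, comp_zero, comp_zero]) A hA
      (a ≫ (ρ_ _).inv)
    simpa using h2

end Tensor

section Deg

variable {C : Type u} [Category.{v} C] [Preadditive C] [HasZeroObject C] [HasShift C ℤ]
  [∀ n : ℤ, (shiftFunctor C n).Additive] [Pretriangulated C]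
  [MonoidalCategory C] [SymmetricCategory C] [TensorTriangulated C] [MonoidalPreadditive C]
  [Linear ℚ C] [MonoidalLinear ℚ C] [RightRigidCategory C] [IsIdempotentComplete C]
  {Λ : Type*} [Nonempty Λ] {E : Λ → Type w} [∀ l, Field (E l)] [∀ l, CharZero (E l)]
  {R : ∀ l, Realisation C (E l)} {t : TStructure C} (h : IsTensor t)
  (hc : JointlyConservative R) (hq : ∀ e : 𝟙_ C ⟶ 𝟙_ C, ∃ q : ℚ, e = q • 𝟙 _)

include h hc hq

/-- The two parts of an object of one degree have the same degree. -/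
theorem deg_trunc {P M Q : C} {f : P ⟶ M} {g : M ⟶ Q} {d : Q ⟶ P⟦(1 : ℤ)⟧}
    (hT : Triangle.mk f g d ∈ distTriang C) {i b : ℤ} (hP : t.IsLE P i) (hQ : t.IsGE Q i)
    (hM : ∀ l, (R l).Deg M b) : (∀ l, (R l).Deg P b) ∧ (∀ l, (R l).Deg Q b) := by
  have ht : TensorCompat t := ⟨h.tensor_le, h.tensor_ge⟩
  have hT' := Triangle.shift_distinguished _ hT b
  have a1 : t.IsLE (P⟦b⟧) (i - b) := t.isLE_shift P i b (i - b)
  have a2 : t.IsGE (Q⟦b⟧) (i - b) := t.isGE_shift Q i b (i - b)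
  obtain ⟨n, hn⟩ := asym_zero_of hc hq (fun l => (hM l).shift b 0 (by omega))
  obtain ⟨h1, h2⟩ := asym_trunc' ht hT' a1 a2 h.nondeg_le h.nondeg_ge hn
  have c1 : ∀ (l : Λ) (j : ℤ), Odd (j - b) → IsZero ((R l).H.obj (P⟦j⟧)) := fun l j hj =>
    (odd_zero' (R := R l) h1 hj).of_iso
      ((R l).H.mapIso ((shiftFunctorAdd' C b (j - b) j (by omega)).app P))
  have c2 : ∀ (l : Λ) (j : ℤ), Odd (j - b) → IsZero ((R l).H.obj (Q⟦j⟧)) := fun l j hj =>
    (odd_zero' (R := R l) h2 hj).of_iso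
      ((R l).H.mapIso ((shiftFunctorAdd' C b (j - b) j (by omega)).app Q))
  constructor
  · intro l j hj
    by_cases hj' : Odd (j - b)
    · exact c1 l j hj'
    · refine hz1 (R l).H hT j (hM l j hj) (c2 l (j - 1) ?_)
      rw [Int.not_odd_iff_even] at hj'
      rcases hj' with ⟨r, hr⟩
      exact ⟨r - 1, by omega⟩
  · intro l j hj
    by_cases hj' : Odd (j - b)
    · exact c2 l j hj'
    · refine hz3 (R l).H hT j (hM l j hj) (c1 l (j + 1) ?_)
      rw [Int.not_odd_iff_even] at hj'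
      rcases hj' with ⟨r, hr⟩
      exact ⟨r, by omega⟩

omit h in
/-- an object of one degree without cohomology for one realisation is zero -/
lemma zero_of_one {X : C} {b : ℤ} (hX : ∀ l, (R l).Deg X b) (l₀ : Λ)
    (h0 : IsZero ((R l₀).H.obj (X⟦b⟧))) : IsZero X := by
  apply hc
  intro l j
  by_cases hj : j = b
  · subst hj
    obtain ⟨q, hq⟩ := hq (tr (𝟙 (X⟦j⟧)))
    have h1 := finrank_eq ((hX l).shift j 0 (by omega)) hq
    have h2 := finrank_eq ((hX l₀).shift j 0 (by omega)) hq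
    have h3 : Subsingleton ((R l₀).H.obj (X⟦j⟧)) := ModuleCat.subsingleton_of_isZero h0
    have h4 : Module.finrank (E l₀) ((R l₀).H.obj (X⟦j⟧)) = 0 :=
      Module.finrank_zero_of_subsingleton
    have h5 : Module.finrank (E l) ((R l).H.obj (X⟦j⟧)) = 0 := by
      rw [h4] at h2
      rw [← h2] at h1
      exact_mod_cast h1
    rw [ModuleCat.isZero_iff_subsingleton]
    exact (Module.finrank_zero_iff (R := E l)).1 h5
  · exact hX l j hj

/-- existence of simple objects -/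
theorem exists_simple (l₀ : Λ) {d : ℤ} : ∀ (n : ℕ) (Z : C), Hrt t Z → ¬ IsZero Z →
    (∀ l, (R l).Deg Z d) → Module.finrank (E l₀) ((R l₀).H.obj (Z⟦d⟧)) ≤ n →
    ∃ S : C, SimpleHeart t S ∧ ∀ l, (R l).Deg S d := by
  intro n
  induction n with
  | zero =>
    intro Z hZ hz hd hn
    exact absurd (zero_of_one hc hq hd l₀ (by
      rw [ModuleCat.isZero_iff_subsingleton]
      exact (Module.finrank_zero_iff (R := E l₀)).1 (by omega))) hz
  | succ n ih =>
    intro M hM hz hd hn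
    by_cases hs : SimpleHeart t M
    · exact ⟨M, hs, hd⟩
    have h3 : ∃ (P Q : C) (f : P ⟶ M) (g : M ⟶ Q) (h : Q ⟶ P⟦(1 : ℤ)⟧),
        Triangle.mk f g h ∈ distTriang C ∧ Hrt t P ∧ Hrt t Q ∧ ¬ IsZero P ∧ ¬ IsZero Q := by
      by_contra hcon
      apply hs
      refine ⟨hM.1.le, hM.2.ge, hz, ?_⟩
      intro P Q f g h hT a1 a2 a3 a4
      by_contra hc
      push Not at hc
      exact hcon ⟨P, Q, f, g, h, hT, ⟨⟨a1⟩, ⟨a2⟩⟩, ⟨⟨a3⟩, ⟨a4⟩⟩, hc.1, hc.2⟩
    obtain ⟨P, Q, f, g, δ, hT, hP, hQ, hPz, hQz⟩ := h3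
    obtain ⟨dP, dQ⟩ := deg_trunc h hc hq hT hP.1 hQ.2 hd
    have m0 : Mono ((R l₀).H.map (f⟦d⟧')) := hmono1 (R l₀).H hT d (dQ l₀ (d - 1) (by omega))
    have p0 : Epi ((R l₀).H.map (g⟦d⟧')) := hepi2 (R l₀).H hT d (dP l₀ (d + 1) (by omega))
    have i1 : Function.Injective ((R l₀).H.map (f⟦d⟧')).hom :=
      (ModuleCat.mono_iff_injective _).1 m0
    have s1 : Function.Surjective ((R l₀).H.map (g⟦d⟧')).hom :=
      (ModuleCat.epi_iff_surjective _).1 p0
    have fg : ((R l₀).H.map (g⟦d⟧')).hom ∘ₗ ((R l₀).H.map (f⟦d⟧')).hom = 0 := by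
      have h5 : f ≫ g = 0 := comp_distTriang_mor_zero₁₂ _ hT
      have h6 : (R l₀).H.map (f⟦d⟧') ≫ (R l₀).H.map (g⟦d⟧') = 0 := by
        rw [← Functor.map_comp, ← Functor.map_comp, h5, Functor.map_zero, Functor.map_zero]
      exact congrArg ModuleCat.Hom.hom h6
    have hQn : ¬ Subsingleton ((R l₀).H.obj (Q⟦d⟧)) := fun hs =>
      hQz (zero_of_one hc hq dQ l₀ (ModuleCat.isZero_iff_subsingleton.2 hs))
    have d1 : Module.finrank (E l₀) ((R l₀).H.obj (P⟦d⟧)) <
        Module.finrank (E l₀) ((R l₀).H.obj (M⟦d⟧)) := by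
      refine lt_of_le_of_ne (LinearMap.finrank_le_finrank_of_injective i1) fun hd => hQn ?_
      have s2 : Function.Surjective ((R l₀).H.map (f⟦d⟧')).hom :=
        (LinearMap.injective_iff_surjective_of_finrank_eq_finrank hd).1 i1
      constructor
      intro x y
      obtain ⟨x', rfl⟩ := s1 x
      obtain ⟨y', rfl⟩ := s1 y
      obtain ⟨x'', rfl⟩ := s2 x'
      obtain ⟨y'', rfl⟩ := s2 y'
      have q1 : ((R l₀).H.map (g⟦d⟧')).hom (((R l₀).H.map (f⟦d⟧')).hom x'') = 0 :=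
        LinearMap.congr_fun fg x''
      have q2 : ((R l₀).H.map (g⟦d⟧')).hom (((R l₀).H.map (f⟦d⟧')).hom y'') = 0 :=
        LinearMap.congr_fun fg y''
      rw [q1, q2]
    exact ih P hP hPz dP (by omega)

omit h hc hq [Nonempty Λ] [Linear ℚ C] [MonoidalLinear ℚ C] [IsIdempotentComplete C]
  [∀ l, CharZero (E l)] in
lemma tpow_R {X : C} {a : ℤ} (l : Λ) (hX : (R l).Deg X a) (n : ℕ) :
    (R l).Deg (tpow X n) (n * a) := by
  induction n with
  | zero =>
    rw [Nat.cast_zero, zero_mul]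
    exact deg_unit
  | succ n ih =>
    have e : ((n + 1 : ℕ) : ℤ) * a = n * a + a := by push_cast; ring
    rw [e]
    exact ih.tensor hX

omit h hc hq [Nonempty Λ] [Linear ℚ C] [MonoidalLinear ℚ C] [IsIdempotentComplete C]
  [∀ l, CharZero (E l)] in
lemma power_R {L T : C} {n : ℤ} (l : Λ) (hL : (R l).Deg L 0) (hT : IsPower L n T) :
    (R l).Deg T 0 := by
  obtain ⟨k, ⟨rfl, ⟨e⟩⟩ | ⟨rfl, ⟨e⟩⟩⟩ := hT
  · have h1 := tpow_R l hL k
    rw [mul_zero] at h1
    exact h1.iso e.symm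
  · have h1 := tpow_R l hL k
    rw [mul_zero] at h1
    have hN : ¬ IsZero ((R l).H.obj ((tpow L k)⟦(0 : ℤ)⟧)) := by
      intro h0
      have h2 : ∀ i : ℤ, IsZero ((R l).H.obj ((tpow L k)⟦i⟧)) := by
        intro i
        by_cases hi : i = 0
        · subst hi; exact h0
        · exact h1 i hi
      have h3 : IsZero ((R l).H.obj ((T ⊗ tpow L k)⟦(0 : ℤ)⟧)) :=
        kunneth_zero fun i => Or.inr (h2 _)
      have h4 : IsZero ((R l).H.obj (𝟙_ C)) := h3.of_iso
        ((R l).H.mapIso (((shiftFunctorZero C ℤ).app _) ≪≫ e)).symm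
      exact not_isZero_H_unit (R l) h4
    intro i hi
    by_contra h5
    have h6 := not_isZero_tensor h5 hN
    apply h6
    rw [add_zero]
    have h7 : (R l).Deg (T ⊗ tpow L k) 0 := (deg_unit (R := R l)).iso e.symm
    exact h7 i hi

variable {L : C} (hL : ∀ l, (R l).Deg L 0) (hS : TateSummands t L)

include hL hS

/-- pieces of degree different from zero vanish -/
theorem piece_zero {Z : C} {j : ℤ} (h1 : t.IsLE Z j) (h2 : t.IsGE Z j)
    (hZ : ∀ l, (R l).Deg Z 0) (hj : j ≠ 0) : IsZero Z := by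
  by_contra hz
  obtain ⟨l₀⟩ := ‹Nonempty Λ›
  have a1 : Hrt t (Z⟦j⟧) := ⟨t.isLE_shift Z j j 0, t.isGE_shift Z j j 0⟩
  have a2 : ¬ IsZero (Z⟦j⟧) := fun h => hz (isZero_of_shift j h)
  have : Nonempty Λ := ⟨l₀⟩
  obtain ⟨S, hs, hd⟩ := exists_simple h hc hq l₀ _ (Z⟦j⟧) a1 a2
    (fun l => (hZ l).shift j (-j) (by omega)) le_rfl
  obtain ⟨p, n, hp, T, i, r, hTz, hT, hir⟩ := hS S hs
  apply hTz
  apply hc
  intro l k
  have b1 : (R l).Deg T 0 := power_R l (hL l) hT
  have b2 : (R l).Deg T (p * (-j)) := (tpow_R l (hd l) p).retract i r hir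
  by_cases hk : k = 0
  · subst hk
    refine b2 0 ?_
    intro h0
    rcases mul_eq_zero.1 h0.symm with h3 | h3 <;> omega
  · exact b1 k hk

theorem le_all {k : ℤ} (hk : k < 0) {M : C} (hM : ∀ l, (R l).Deg M 0) (n : ℕ) :
    ∀ {P Q : C} {f : P ⟶ M} {g : M ⟶ Q} {d : Q ⟶ P⟦(1 : ℤ)⟧},
    Triangle.mk f g d ∈ distTriang C → t.IsLE P k → t.IsGE Q (k + 1) → t.IsLE P (k - n) := by
  induction n with
  | zero => intro P Q f g d _ hP _; simpa using hP
  | succ n ih =>
    intro P Q f g d hT hP hQ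
    have h1 := ih hT hP hQ
    obtain ⟨P', Z, hP', hZ, f', g', d', hT'⟩ := t.exists_triangle P (k - n - 1) (k - n) (by omega)
    have a1 : t.IsLE P' (k - n - 1) := ⟨hP'⟩
    have a2 : t.IsGE Z (k - n) := ⟨hZ⟩
    have a3 : t.IsLE Z (k - n) := isLE3 hT' (t.isLE_of_le P' (k - n - 1) (k - n + 1)) h1
    have b1 := (deg_trunc h hc hq hT hP (t.isGE_of_ge Q k (k + 1) (by omega)) hM).1
    have b2 := (deg_trunc h hc hq hT' (i := k - n) (t.isLE_of_le P' (k - n - 1) (k - n)
      (by omega)) a2 b1).2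
    have hz := piece_zero h hc hq hL hS a3 a2 b2 (by omega)
    have h6 := isIso1_of_isZero3 hT' hz
    push_cast
    rw [show k - ((n : ℤ) + 1) = k - n - 1 by ring]
    exact @TStructure.isLE_of_iso _ _ _ _ _ _ _ t _ _ (asIso f') _ a1

theorem ge_all {k : ℤ} (hk : 0 < k) {M : C} (hM : ∀ l, (R l).Deg M 0) (n : ℕ) :
    ∀ {P Q : C} {f : P ⟶ M} {g : M ⟶ Q} {d : Q ⟶ P⟦(1 : ℤ)⟧},
    Triangle.mk f g d ∈ distTriang C → t.IsLE P (k - 1) → t.IsGE Q k → t.IsGE Q (k + n) := by
  induction n with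
  | zero => intro P Q f g d _ _ hQ; simpa using hQ
  | succ n ih =>
    intro P Q f g d hT hP hQ
    have h1 := ih hT hP hQ
    obtain ⟨Z, Q', hZ, hQ', f', g', d', hT'⟩ := t.exists_triangle Q (k + n) (k + n + 1) (by omega)
    have a1 : t.IsLE Z (k + n) := ⟨hZ⟩
    have a2 : t.IsGE Q' (k + n + 1) := ⟨hQ'⟩
    have a3 : t.IsGE Z (k + n) := isGE1 hT' h1 (t.isGE_of_ge Q' (k + n - 1) (k + n + 1))
    have b1 := (deg_trunc h hc hq hT (t.isLE_of_le P (k - 1) k (by omega)) hQ hM).2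
    have b2 := (deg_trunc h hc hq hT' (i := k + n) a1 (t.isGE_of_ge Q' (k + n) (k + n + 1)
      (by omega)) b1).1
    have hz := piece_zero h hc hq hL hS a1 a3 b2 (by omega)
    have h6 := isIso2_of_isZero1 hT' hz
    push_cast
    rw [show k + ((n : ℤ) + 1) = k + n + 1 by ring]
    exact @TStructure.isGE_of_iso _ _ _ _ _ _ _ t _ _ (asIso g').symm _ a2

/-- objects of degree zero lie in the heart -/
theorem mem_heart {M : C} (hM : ∀ l, (R l).Deg M 0) : Hrt t M := by
  constructor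
  · obtain ⟨P, Q, h1, h2, f, g, d, hT⟩ := t.exists_triangle M 0 1 rfl
    have h1' : t.IsLE P 0 := ⟨h1⟩
    have h2' : t.IsGE Q 1 := ⟨h2⟩
    have hQ : IsZero Q := by
      apply h.nondeg_ge
      intro n
      by_cases hn : n ≤ 1
      · exact (t.isGE_of_ge Q n 1 hn).ge
      · have h3 := ge_all h hc hq hL hS (k := 1) (by omega) hM (n - 1).toNat hT (by simpa) h2'
        have h4 : 1 + ((n - 1).toNat : ℤ) = n := by omega
        rw [h4] at h3
        exact h3.ge
    have h6 := isIso1_of_isZero3 hT hQ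
    exact @TStructure.isLE_of_iso _ _ _ _ _ _ _ t _ _ (asIso f) _ h1'
  · obtain ⟨P, Q, h1, h2, f, g, d, hT⟩ := t.exists_triangle M (-1) 0 (by omega)
    have h1' : t.IsLE P (-1) := ⟨h1⟩
    have h2' : t.IsGE Q 0 := ⟨h2⟩
    have hP : IsZero P := by
      apply h.nondeg_le
      intro n
      by_cases hn : -1 ≤ n
      · exact (t.isLE_of_le P (-1) n hn).le
      · have h3 := le_all h hc hq hL hS (k := -1) (by omega) hM (-1 - n).toNat hT h1'
          (by simpa)
        have h4 : -1 - ((-1 - n).toNat : ℤ) = n := by omega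
        rw [h4] at h3
        exact h3.le
    have h6 := isIso2_of_isZero1 hT hP
    exact @TStructure.isGE_of_iso _ _ _ _ _ _ _ t _ _ (asIso g).symm _ h2'

end Deg

section Main

variable {C : Type u} [Category.{v} C] [Preadditive C] [HasZeroObject C] [HasShift C ℤ]
  [∀ n : ℤ, (shiftFunctor C n).Additive] [Pretriangulated C] [IsTriangulated C]
  [MonoidalCategory C] [SymmetricCategory C] [TensorTriangulated C] [MonoidalPreadditive C]
  [Linear ℚ C] [MonoidalLinear ℚ C] [RightRigidCategory C] [IsIdempotentComplete C]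
  {Λ : Type*} [Nonempty Λ] {E : Λ → Type w} [∀ l, Field (E l)] [∀ l, CharZero (E l)]
  {R : ∀ l, Realisation C (E l)}

theorem main_con (hq : ∀ e : 𝟙_ C ⟶ 𝟙_ C, ∃ q : ℚ, e = q • 𝟙 _) (hB : BasicLemma R) :
    (∀ t : TStructure C, IsTensor t → JointlyConservative R →
      ∀ (M P Q : C) (f : P ⟶ M) (g : M ⟶ Q) (d : Q ⟶ P⟦(1 : ℤ)⟧) (i b : ℤ),
        Triangle.mk f g d ∈ distTriang C → t.le i P → t.ge i Q → (∀ l, (R l).Deg M b) →
        (∀ l, (R l).Deg P b) ∧ (∀ l, (R l).Deg Q b)) ∧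
    (∀ (t : TStructure C) (L : C), IsTensor t → JointlyConservative R →
      (∀ l, (R l).Deg L 0) → TateSummands t L →
      IsMotivic t R ∧ ∀ l, Conservative (R l)) ∧
    (∀ L : C, (∀ l, (R l).Deg L 0) →
      ((∃ t : TStructure C, IsMotivic t R ∧ TateSummands t L) ↔
        JointlyConservative R ∧ ∃ t : TStructure C, IsTensor t ∧ TateSummands t L)) ∧
    (∀ (t t' : TStructure C) (L L' : C), JointlyConservative R → (∀ l, (R l).Deg L 0) →
      (∀ l, (R l).Deg L' 0) → IsTensor t → TateSummands t L → IsTensor t' → TateSummands t' L' →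
      t = t') := by
  have hid := idem_of_rat hq
  have key : ∀ (t : TStructure C) (L : C), IsTensor t → JointlyConservative R →
      (∀ l, (R l).Deg L 0) → TateSummands t L → (∀ l, TExact t (R l)) ∧
      ∀ l, Conservative (R l) := by
    intro t L h hc hL hS
    have ht : TensorCompat t := ⟨h.tensor_le, h.tensor_ge⟩
    have hu := unit_hrt ht h.nondeg_le h.nondeg_ge
    have he : ∀ l, TExact t (R l) := exact_of_pieces (degF_pieces
      (fun b X Y Z f g d hT h1 h2 h3 h4 hY => odd_sub_quot hc hq ht hu hT h1 h2 h3 h4 hY))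
      (fun X => ∀ l, (R l).Deg X 0) (fun X hX => mem_heart h hc hq hL hS hX)
      (fun l X hX => hX l) (fun P h1 h2 h3 => hB P h1 h2 h3)
    exact ⟨he, fun l X hX => conservative ht (he l) hu hid h.nondeg_le h.nondeg_ge hX⟩
  refine ⟨?_, ?_, ?_, ?_⟩
  · intro t h hc M P Q f g d i b hT h1 h2 hM
    exact deg_trunc h hc hq hT ⟨h1⟩ ⟨h2⟩ hM
  · intro t L h hc hL hS
    obtain ⟨h1, h2⟩ := key t L h hc hL hS
    exact ⟨⟨h.nondeg_le, h.nondeg_ge, h.tensor_le, h.tensor_ge, fun l => (h1 l).le,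
      fun l => (h1 l).ge⟩, h2⟩
  · intro L hL
    constructor
    · rintro ⟨t, h, hS⟩
      obtain ⟨l⟩ := ‹Nonempty Λ›
      have ht : TensorCompat t := ⟨h.tensor_le, h.tensor_ge⟩
      have he : TExact t (R l) := ⟨h.exact_le l, h.exact_ge l⟩
      have hu := unit_hrt ht h.nondeg_le h.nondeg_ge
      refine ⟨fun X hX => conservative ht he hu hid h.nondeg_le h.nondeg_ge (hX l), t,
        ⟨h.nondeg_le, h.nondeg_ge, h.tensor_le, h.tensor_ge⟩, hS⟩
    · rintro ⟨hc, t, h, hS⟩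
      obtain ⟨h1, h2⟩ := key t L h hc hL hS
      exact ⟨t, ⟨h.nondeg_le, h.nondeg_ge, h.tensor_le, h.tensor_ge, fun l => (h1 l).le,
        fun l => (h1 l).ge⟩, hS⟩
  · intro t t' L L' hc hL hL' h hS h' hS'
    obtain ⟨l⟩ := ‹Nonempty Λ›
    have : Nonempty Λ := ⟨l⟩
    obtain ⟨h1, h2⟩ := key t L h hc hL hS
    obtain ⟨h1', h2'⟩ := key t' L' h' hc hL' hS'
    apply tstr_ext
    · funext n X
      exact propext ((le_iff_H (h1 l) (h2 l) X n).trans (le_iff_H (h1' l) (h2 l) X n).symm)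
    · funext n X
      exact propext ((ge_iff_H (h1 l) (h2 l) X n).trans (ge_iff_H (h1' l) (h2 l) X n).symm)

end Main

end Pool.Agent.Q65.TS
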