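import Pool.Agent.Y116.MT.HomNum
import Pool.Agent.Y112.KD.Zip

/-!
# The odd cohomology of the objects of the heart vanishes for every realisation
-/

set_option autoImplicit false
set_option linter.unusedSectionVars false
set_option linter.unusedSimpArgs false
set_option backward.isDefEq.respectTransparency false
set_option backward.defeqAttrib.useBackward true

open CategoryTheory Limits MonoidalCategory Pretriangulated Triangulated
open Pool.Agent.Y116.MT Pool.Agent.Y112.KD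

namespace Pool.Agent.Q65.TS

universe v u w

section Perm

variable {C : Type u} [Category.{v} C] [MonoidalCategory C] [SymmetricCategory C]

/-- the exchanges of adjacent factors -/
inductive PSwap (X Z : C) : ∀ n : ℕ, (pw X Z n ⟶ pw X Z n) → Prop
  | last (n : ℕ) : PSwap X Z (n + 2) (exch (pw X Z n) Z Z).hom
  | lift (n : ℕ) (s : pw X Z n ⟶ pw X Z n) : PSwap X Z n s → PSwap X Z (n + 1) (s ▷ Z)

section Add

variable [Preadditive C] [MonoidalPreadditive C]

lemma mv_anti (X Z : C) (n : ℕ) : ∀ (i : Fin (n + 1)) (W W' : C) (g : pw X Z (n + 1) ⊗ W ⟶ W'),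
    (∀ s, PSwap X Z (n + 1) s → (s ▷ W) ≫ g = -g) →
    (mv X Z n i ▷ W) ≫ g = ((-1 : ℤ) ^ (n + i.val)) • g := by
  induction n with
  | zero =>
    intro i W W' g _
    obtain rfl : i = 0 := Subsingleton.elim (α := Fin 1) _ _
    simp [mv]
  | succ n ih =>
    intro i W W' g hg
    refine Fin.lastCases ?_ (fun j => ?_) i
    · rw [mv_last, id_whiskerRight, Category.id_comp, Fin.val_last,
        Even.neg_one_pow ⟨n + 1, rfl⟩, one_zsmul]
    · have h1 := ih j (Z ⊗ W) W' ((α_ _ Z W).inv ≫ g) (fun s hs => by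
        rw [associator_inv_naturality_left_assoc, hg _ (PSwap.lift _ _ hs),
          Preadditive.comp_neg])
      rw [associator_inv_naturality_left_assoc] at h1
      have h2 : (mv X Z n j ▷ Z) ▷ W ≫ g = ((-1 : ℤ) ^ (n + j.val)) • g := by
        rw [← cancel_epi (α_ _ Z W).inv, h1, Preadditive.comp_zsmul]
      rw [mv_castSucc, comp_whiskerRight, Category.assoc, hg _ (PSwap.last n),
        Preadditive.comp_neg, h2, Fin.val_castSucc,
        show n + 1 + j.val = (n + j.val) + 1 by omega, pow_succ]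
      simp

lemma alt_anti (X Z : C) (n : ℕ) : ∀ (W W' : C) (g : pw X Z n ⊗ W ⟶ W'),
    (∀ s, PSwap X Z n s → (s ▷ W) ≫ g = -g) →
    (alt X Z n ▷ W) ≫ g = (n.factorial : ℤ) • g := by
  induction n with
  | zero => intro W W' g _; simp [alt]
  | succ n ih =>
    intro W W' g hg
    have h1 := ih (Z ⊗ W) W' ((α_ _ Z W).inv ≫ g) (fun s hs => by
        rw [associator_inv_naturality_left_assoc, hg _ (PSwap.lift _ _ hs),
          Preadditive.comp_neg])
    rw [associator_inv_naturality_left_assoc] at h1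
    have h2 : (alt X Z n ▷ Z) ▷ W ≫ g = (n.factorial : ℤ) • g := by
      rw [← cancel_epi (α_ _ Z W).inv, h1, Preadditive.comp_zsmul]
    have h3 : alt X Z (n + 1) ▷ W = ∑ i : Fin (n + 1),
        ((-1 : ℤ) ^ (n + i.val)) • ((mv X Z n i ▷ W) ≫ ((alt X Z n ▷ Z) ▷ W)) := by
      rw [alt, sum_whiskerRight]
      refine Finset.sum_congr rfl fun i _ => ?_
      rw [wr_zsmul, comp_whiskerRight]
    rw [h3, Preadditive.sum_comp]
    rw [Finset.sum_congr rfl (g := fun _ => (n.factorial : ℤ) • g)]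
    · rw [Finset.sum_const, Finset.card_univ, Fintype.card_fin, ← natCast_zsmul, smul_smul,
        Nat.factorial_succ]
      push_cast
      rfl
    · intro i _
      rw [Preadditive.zsmul_comp, Category.assoc, h2, Preadditive.comp_zsmul,
        mv_anti X Z n i W W' g hg, smul_smul, smul_smul, mul_right_comm, ← pow_add,
        Even.neg_one_pow ⟨n + i.val, rfl⟩, one_mul]

end Add

/-- the two descriptions of the tensor power -/
def ee (Z : C) : ∀ n : ℕ, pw (𝟙_ C) Z n ≅ tp Z n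
  | 0 => Iso.refl _
  | n + 1 => whiskerRightIso (ee Z n) Z

lemma sw_eq (Q X : C) : sw Q X = (exch Q X X).hom := rfl

lemma swap_of_pswap (Z : C) {n : ℕ} {s : pw (𝟙_ C) Z n ⟶ pw (𝟙_ C) Z n}
    (hs : PSwap (𝟙_ C) Z n s) :
    ∃ s', IsSwap Z n s' ∧ s ≫ (ee Z n).hom = (ee Z n).hom ≫ s' := by
  induction hs with
  | last n =>
    refine ⟨_, IsSwap.last n, ?_⟩
    simp only [ee, whiskerRightIso_hom, sw_eq]
    exact (exch_natural_first (ee Z n).hom Z Z).symm
  | lift n s hs ih =>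
    obtain ⟨s', h1, h2⟩ := ih
    refine ⟨_, IsSwap.lift _ _ h1, ?_⟩
    simp only [ee, whiskerRightIso_hom]
    rw [← comp_whiskerRight, h2, comp_whiskerRight]

lemma zip_swap' (A B : C) {n : ℕ} {s' : tp A n ⟶ tp A n} (hs : IsSwap A n s') :
    ∃ (s : tp (A ⊗ B) n ⟶ tp (A ⊗ B) n) (s'' : tp B n ⟶ tp B n), IsSwap (A ⊗ B) n s ∧
      IsSwap B n s'' ∧ s ≫ zip A B n = zip A B n ≫ (s' ⊗ₘ s'') := by
  induction hs with
  | last n =>
    refine ⟨_, _, IsSwap.last n, IsSwap.last n, ?_⟩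
    rw [zip_succ, zip_succ, comp_whiskerRight]
    simp only [Category.assoc]
    rw [← sw_mu, reassoc_of% (sw_nat_left (X := A ⊗ B) (zip A B n))]
  | lift n s' hs ih =>
    obtain ⟨s, s'', h1, h2, h3⟩ := ih
    refine ⟨_, _, IsSwap.lift _ _ h1, IsSwap.lift _ _ h2, ?_⟩
    rw [zip_succ, ← comp_whiskerRight_assoc, h3, comp_whiskerRight_assoc, tensorμ_natural_left,
      Category.assoc]

lemma zip_isIso (A B : C) (n : ℕ) : IsIso (zip A B n) := by
  induction n with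
  | zero => rw [zip]; infer_instance
  | succ n ih =>
    rw [zip_succ]
    have : IsIso (tensorμ (tp A n) (tp B n) A B) :=
      ⟨tensorδ _ _ _ _, tensorμ_tensorδ _ _ _ _, tensorδ_tensorμ _ _ _ _⟩
    infer_instance

section Add

variable [Preadditive C] [MonoidalPreadditive C]

lemma swap_neg {S : C} (hS : (β_ S S).hom = -𝟙 _) {n : ℕ} {s : tp S n ⟶ tp S n}
    (hs : IsSwap S n s) : s = -𝟙 _ := by
  induction hs with
  | last n =>
    rw [sw, hS, wl_neg, MonoidalCategory.whiskerLeft_id, Preadditive.neg_comp,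
      Preadditive.comp_neg, Category.id_comp, Iso.hom_inv_id]
  | lift n s hs ih => rw [ih, wr_neg, id_whiskerRight]

lemma zero_of_zsmul' [Linear ℚ C] {X Y : C} (f : X ⟶ Y) (n : ℤ) (hn : n ≠ 0) (h : n • f = 0) :
    f = 0 := by
  have h1 : ((n : ℚ)⁻¹ * (n : ℚ)) • f = 0 := by
    rw [mul_smul, Int.cast_smul_eq_zsmul, h, smul_zero]
  rwa [inv_mul_cancel₀ (by exact_mod_cast hn), one_smul] at h1

/-- If the exterior power of `M` vanishes then all symmetric morphisms from a tensor power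
of `M ⊗ S` vanish, if the symmetry of `S ⊗ S` is `-1`. -/
lemma kill_sym [Linear ℚ C] {M S : C} (hS : (β_ S S).hom = -𝟙 _) {n : ℕ}
    (hM : alt (𝟙_ C) M n = 0) {Z : C} (h : tp (M ⊗ S) n ⟶ Z)
    (hh : ∀ s, IsSwap (M ⊗ S) n s → s ≫ h = h) : h = 0 := by
  have := zip_isIso M S n
  have h1 : ∀ s', IsSwap M n s' → (s' ▷ tp S n) ≫ (inv (zip M S n) ≫ h) =
      -(inv (zip M S n) ≫ h) := by
    intro s' hs'
    obtain ⟨s, s'', h2, h3, h4⟩ := zip_swap' M S hs'
    have h5 : s' ▷ tp S n = -(s' ⊗ₘ s'') := by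
      rw [swap_neg hS h3, MonoidalCategory.tensorHom_def, wl_neg, MonoidalCategory.whiskerLeft_id,
        Preadditive.comp_neg, Category.comp_id, neg_neg]
    have h6 : (s' ⊗ₘ s'') ≫ inv (zip M S n) = inv (zip M S n) ≫ s := by
      rw [IsIso.comp_inv_eq, Category.assoc, IsIso.eq_inv_comp, h4]
    rw [h5, Preadditive.neg_comp, ← Category.assoc, h6, Category.assoc, hh s h2]
  have h2 := alt_anti (𝟙_ C) M n (tp S n) Z (((ee M n).hom ▷ tp S n) ≫ (inv (zip M S n) ≫ h))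
    (fun s hs => by
      obtain ⟨s', h3, h4⟩ := swap_of_pswap M hs
      rw [← comp_whiskerRight_assoc, h4, comp_whiskerRight_assoc, h1 s' h3, Preadditive.comp_neg])
  have h3 : (0 : pw (𝟙_ C) M n ⟶ pw (𝟙_ C) M n) ▷ tp S n = 0 := (tensorRight _).map_zero _ _
  rw [hM, h3, zero_comp] at h2
  have h4 := zero_of_zsmul' _ _ (by exact_mod_cast Nat.factorial_ne_zero n) h2.symm
  rw [← cancel_epi (inv (zip M S n)), ← cancel_epi ((ee M n).hom ▷ tp S n), h4, comp_zero,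
    comp_zero]

/-- the symmetry of an object with itself is a sign -/
def Sgn (X : C) (e : ℤ) : Prop := (β_ X X).hom = e • 𝟙 _

lemma Sgn.iso {X Y : C} {e : ℤ} (h : Sgn X e) (i : X ≅ Y) : Sgn Y e := by
  have h1 : (i.inv ⊗ₘ i.inv) ≫ (β_ X X).hom ≫ (i.hom ⊗ₘ i.hom) = (β_ Y Y).hom := by
    rw [BraidedCategory.braiding_naturality_assoc i.inv i.inv, tensorHom_comp_tensorHom]
    simp
  rw [Sgn, ← h1, h]
  simp

lemma Sgn.tensor {X Y : C} {a b : ℤ} (hX : Sgn X a) (hY : Sgn Y b) : Sgn (X ⊗ Y) (a * b) := by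
  have h1 := SymmetricCategory.tensorμ_braid_swap X Y
  rw [hX, hY, MonoidalCategory.tensorHom_def, wr_zsmul, wl_zsmul, id_whiskerRight,
    MonoidalCategory.whiskerLeft_id, Preadditive.zsmul_comp, Preadditive.comp_zsmul,
    Category.id_comp, smul_smul] at h1
  have h2 := congrArg (fun z => tensorδ X X Y Y ≫ z) h1
  simp only [tensorδ_tensorμ_assoc] at h2
  rw [Sgn, h2, Preadditive.zsmul_comp, Preadditive.comp_zsmul, Category.id_comp,
    tensorδ_tensorμ]

lemma sgn_unit : Sgn (𝟙_ C) 1 := by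
  rw [Sgn, one_zsmul]
  have h2 : (ρ_ (𝟙_ C)).hom = (λ_ (𝟙_ C)).hom := unitors_equal.symm
  rw [← cancel_mono (λ_ (𝟙_ C)).hom, Category.id_comp]
  rw [braiding_leftUnitor, h2]

/-- tensoring with an invertible object is faithful -/
lemma whisker_cancel {X Y S T : C} (e : S ⊗ T ≅ 𝟙_ C) (f g : X ⟶ Y) (h : f ▷ S = g ▷ S) :
    f = g := by
  have h1 : ∀ k : X ⟶ Y, k = (ρ_ X).inv ≫ (X ◁ e.inv) ≫ (α_ X S T).inv ≫ ((k ▷ S) ▷ T) ≫
      (α_ Y S T).hom ≫ (Y ◁ e.hom) ≫ (ρ_ Y).hom := by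
    intro k
    rw [associator_naturality_left_assoc, Iso.inv_hom_id_assoc, ← whisker_exchange_assoc,
      MonoidalCategory.whiskerLeft_inv_hom_assoc]
    simp
  rw [h1 f, h1 g, h]

/-- the sign of an inverse -/
lemma Sgn.inv {S T : C} {e : ℤ} (he : e * e = 1) (hS : Sgn S e) (i : T ⊗ S ≅ 𝟙_ C) :
    Sgn T e := by
  have h1 := SymmetricCategory.tensorμ_braid_swap T S
  have h2 : Sgn (T ⊗ S) 1 := (sgn_unit (C := C)).iso i.symm
  rw [h2, one_zsmul, Category.comp_id] at h1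
  have h3 : ((β_ T T).hom ⊗ₘ (β_ S S).hom) = 𝟙 _ := by
    have : IsIso (tensorμ T T S S) :=
      ⟨tensorδ _ _ _ _, tensorμ_tensorδ _ _ _ _, tensorδ_tensorμ _ _ _ _⟩
    rw [← cancel_mono (tensorμ T T S S), ← h1, Category.id_comp]
  rw [hS, MonoidalCategory.tensorHom_def, wl_zsmul, MonoidalCategory.whiskerLeft_id,
    Preadditive.comp_zsmul, Category.comp_id] at h3
  have h5 : (β_ T T).hom ▷ (S ⊗ S) = (e • 𝟙 (T ⊗ T)) ▷ (S ⊗ S) := by
    rw [wr_zsmul, id_whiskerRight, ← h3, smul_smul, he, one_zsmul]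
  have k : (S ⊗ S) ⊗ (T ⊗ T) ≅ 𝟙_ C :=
    α_ S S (T ⊗ T) ≪≫ whiskerLeftIso S ((α_ S T T).symm ≪≫ whiskerRightIso (β_ S T ≪≫ i) T ≪≫
      λ_ T) ≪≫ β_ S T ≪≫ i
  exact whisker_cancel k _ _ h5

end Add

end Perm

section Shift

variable {C : Type u} [Category.{v} C] [Preadditive C] [HasZeroObject C] [HasShift C ℤ]
  [∀ n : ℤ, (shiftFunctor C n).Additive] [Pretriangulated C] [MonoidalCategory C]
  [SymmetricCategory C] [TensorTriangulated C] [MonoidalPreadditive C]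

/-- tensoring with a shift of the unit -/
noncomputable def shiftIso (X : C) (n : ℤ) : X ⊗ (𝟙_ C)⟦n⟧ ≅ X⟦n⟧ :=
  rShift X (𝟙_ C) n ≪≫ (shiftFunctor C n).mapIso (ρ_ X)

variable (C) in
lemma sgn_nat (n : ℕ) : Sgn ((𝟙_ C)⟦(n : ℤ)⟧) ((-1) ^ n) := by
  induction n with
  | zero =>
    exact (sgn_unit (C := C)).iso ((shiftFunctorZero' C ((0 : ℕ) : ℤ) (by simp)).app _).symm
  | succ n ih =>
    have h1 : Sgn ((𝟙_ C)⟦(1 : ℤ)⟧) (-1) := by
      rw [Sgn, TensorTriangulated.sign]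
      simp
    have h2 := (ih.tensor h1).iso (shiftIso ((𝟙_ C)⟦(n : ℤ)⟧) 1 ≪≫
      ((shiftFunctorAdd' C (n : ℤ) 1 ((n + 1 : ℕ) : ℤ) (by push_cast; ring)).app _).symm)
    rw [pow_succ]
    exact h2

variable (C) in
lemma sgn_int (n : ℤ) : Sgn ((𝟙_ C)⟦n⟧) ((-1) ^ n.natAbs) := by
  rcases Int.natAbs_eq n with h | h
  · have h1 := sgn_nat C n.natAbs
    rw [← h] at h1
    exact h1
  · have h1 := sgn_nat C n.natAbs
    refine Sgn.inv (by rw [← pow_add, Even.neg_one_pow ⟨n.natAbs, rfl⟩]) h1 ?_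
    exact shiftIso ((𝟙_ C)⟦n⟧) (n.natAbs : ℤ) ≪≫
      ((shiftFunctorAdd' C n (n.natAbs : ℤ) 0 (by omega)).app _).symm ≪≫
      (shiftFunctorZero C ℤ).app _

variable {E : Type w} [Field E] (R : Realisation C E)

open Functor.LaxMonoidal

lemma toModule_inj {M : ℤ → Type w} [∀ i, AddCommGroup (M i)]
    [∀ i, Module E (M i)] {N : Type w} [AddCommGroup N] [Module E N] (f : ∀ i, M i →ₗ[E] N)
    (a : ℤ) (hb : Function.Injective (DirectSum.toModule E ℤ N f)) :
    Function.Injective (f a) := by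
  have h2 : f a = (DirectSum.toModule E ℤ N f) ∘ₗ (DirectSum.lof E ℤ M a) := by
    ext x
    simp
  rw [h2]
  exact hb.comp (DirectSum.of_injective a)

lemma mono_mu (X Y : C) : Mono (μ R.H X Y) := by
  have h0 : Function.Injective ((μ R.H (X⟦(0 : ℤ)⟧) (Y⟦-(0 : ℤ)⟧) ≫
      R.H.map (shiftTensorIso X Y 0).hom).hom) := by
    exact toModule_inj (E := E)
      (M := fun i : ℤ => (R.H.obj (X⟦i⟧) ⊗ R.H.obj (Y⟦-i⟧) : ModuleCat.{w} E))
      (fun i : ℤ => (μ R.H (X⟦i⟧) (Y⟦-i⟧) ≫ R.H.map (shiftTensorIso X Y i).hom).hom) 0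
      (R.kunneth X Y).1
  have h1 : Mono (μ R.H (X⟦(0 : ℤ)⟧) (Y⟦-(0 : ℤ)⟧) ≫ R.H.map (shiftTensorIso X Y 0).hom) :=
    (ModuleCat.mono_iff_injective _).2 h0
  have h2 : Mono (μ R.H (X⟦(0 : ℤ)⟧) (Y⟦-(0 : ℤ)⟧)) :=
    mono_of_mono _ (R.H.map (shiftTensorIso X Y 0).hom)
  let e : X⟦(0 : ℤ)⟧ ≅ X := (shiftFunctorZero C ℤ).app X
  let f : Y⟦-(0 : ℤ)⟧ ≅ Y := (shiftFunctorZero' C (-0 : ℤ) (by simp)).app Y
  have h : μ R.H (X⟦(0 : ℤ)⟧) (Y⟦-(0 : ℤ)⟧) ≫ R.H.map (e.hom ⊗ₘ f.hom) =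
      (R.H.map e.hom ⊗ₘ R.H.map f.hom) ≫ μ R.H X Y :=
    (μ_natural R.H e.hom f.hom).symm
  have h3 : μ R.H X Y = inv (R.H.map e.hom ⊗ₘ R.H.map f.hom) ≫
      μ R.H (X⟦(0 : ℤ)⟧) (Y⟦-(0 : ℤ)⟧) ≫ R.H.map (e.hom ⊗ₘ f.hom) := by
    rw [h, IsIso.inv_hom_id_assoc]
  rw [h3]
  infer_instance

lemma tmul_zero {M N : Type w} [AddCommGroup M] [Module E M] [AddCommGroup N] [Module E N]
    {a : M} {b : N} (h : a ⊗ₜ[E] b = 0) : a = 0 ∨ b = 0 := by
  by_contra hcon
  push Not at hcon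
  obtain ⟨ha, hb⟩ := hcon
  have h1 : ∃ φ : Module.Dual E M, φ a ≠ 0 := by
    by_contra h2
    push Not at h2
    exact ha ((Module.forall_dual_apply_eq_zero_iff E a).1 h2)
  have h2 : ∃ φ : Module.Dual E N, φ b ≠ 0 := by
    by_contra h2
    push Not at h2
    exact hb ((Module.forall_dual_apply_eq_zero_iff E b).1 h2)
  obtain ⟨φ, hφ⟩ := h1
  obtain ⟨ψ, hψ⟩ := h2
  have h3 := congrArg (fun z => (TensorProduct.lid E E) ((TensorProduct.map φ ψ) z)) h
  simp only [TensorProduct.map_tmul, TensorProduct.lid_tmul, map_zero, smul_eq_mul,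
    mul_eq_zero] at h3
  rcases h3 with h3 | h3
  · exact hφ h3
  · exact hψ h3

/-- the powers of an element of `H(N)` -/
noncomputable def xs {N : C} (x : R.H.obj N) : ∀ n : ℕ, R.H.obj (tp N n)
  | 0 => (ε R.H).hom (1 : E)
  | n + 1 => (μ R.H (tp N n) N).hom (xs x n ⊗ₜ[E] x)

lemma xs_ne_zero {N : C} (x : R.H.obj N) (hx : x ≠ 0) (n : ℕ) : xs R x n ≠ 0 := by
  induction n with
  | zero =>
    intro h
    have h1 : Function.Injective ((ε R.H).hom) :=
      (ModuleCat.mono_iff_injective _).1 inferInstance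
    have h2 : (1 : E) = 0 := h1 (by rw [map_zero]; exact h)
    exact one_ne_zero h2
  | succ n ih =>
    intro h
    have h1 : Function.Injective ((μ R.H (tp N n) N).hom) :=
      (ModuleCat.mono_iff_injective _).1 (mono_mu R _ _)
    have h2 : (xs R x n ⊗ₜ[E] x : TensorProduct E (R.H.obj (tp N n)) (R.H.obj N)) = 0 :=
      h1 (by rw [map_zero]; exact h)
    rcases tmul_zero h2 with h3 | h3
    · exact ih h3
    · exact hx h3

/-- the value of a morphism on a product -/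
lemma map_whiskerRight_mu {A B : C} (f : A ⟶ B) (N : C) (a : R.H.obj A) (x : R.H.obj N) :
    (R.H.map (f ▷ N)).hom ((μ R.H A N).hom (a ⊗ₜ[E] x)) =
      (μ R.H B N).hom ((R.H.map f).hom a ⊗ₜ[E] x) := by
  have h1 := μ_natural_left R.H f N
  have h2 := congrArg (fun z => z.hom (a ⊗ₜ[E] x)) h1
  exact h2.symm

lemma map_sw_mu {Q N : C} (a : R.H.obj Q) (x : R.H.obj N) :
    (R.H.map (sw Q N)).hom ((μ R.H (Q ⊗ N) N).hom ((μ R.H Q N).hom (a ⊗ₜ[E] x) ⊗ₜ[E] x)) =
      (μ R.H (Q ⊗ N) N).hom ((μ R.H Q N).hom (a ⊗ₜ[E] x) ⊗ₜ[E] x) := by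
  have h1 := exch_lax R.H N Q N
  have h2 := congrArg (fun z => z.hom ((a ⊗ₜ[E] x) ⊗ₜ[E] x)) h1
  exact h2.symm

lemma asym_xs [Linear ℚ C] [CharZero E] {N : C} (x : R.H.obj N) (n : ℕ) :
    (R.H.map (asym 1 N n)).hom (xs R x n) = xs R x n := by
  induction n with
  | zero =>
    rw [asym_zero, CategoryTheory.Functor.map_id]
    rfl
  | succ n ih =>
    rcases n with - | n
    · rw [asym_one, CategoryTheory.Functor.map_id]
      rfl
    · have h1 : (((n + 1 : ℕ) : ℤ) + 1) • asym (1 : ℚ) N (n + 2) =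
          asym 1 N (n + 1) ▷ N + (((n + 1 : ℕ) : ℤ)) • ((asym 1 N (n + 1) ▷ N) ≫ sw (tp N n) N ≫
            (asym 1 N (n + 1) ▷ N)) := by
        have h2 : (((n + 1 : ℕ) : ℚ) + 1) ≠ 0 := by positivity
        rw [asym_succ, ← Int.cast_smul_eq_zsmul ℚ, smul_smul]
        push_cast
        rw [← Int.cast_smul_eq_zsmul ℚ]
        push_cast
        rw [mul_inv_cancel₀ (by positivity), one_smul, one_mul]
      have hA : (R.H.map (asym 1 N (n + 1) ▷ N)).hom (xs R x (n + 2)) = xs R x (n + 2) := by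
        have h3 : xs R x (n + 2) = (μ R.H (tp N (n + 1)) N).hom (xs R x (n + 1) ⊗ₜ[E] x) := rfl
        rw [h3, map_whiskerRight_mu, ih]
      have hS : (R.H.map (sw (tp N n) N)).hom (xs R x (n + 2)) = xs R x (n + 2) :=
        map_sw_mu R (xs R x n) x
      have h2 := congrArg (fun z => (R.H.map z).hom (xs R x (n + 2))) h1
      simp only [Functor.map_add, Functor.map_zsmul, Functor.map_comp, ModuleCat.hom_add,
        ModuleCat.hom_zsmul, ModuleCat.hom_comp, LinearMap.add_apply, LinearMap.smul_apply,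
        LinearMap.comp_apply, hA, hS] at h2
      have h3 : ((((n + 1 : ℕ) : ℤ) + 1 : ℤ) : E) ≠ 0 := by
        have : (((n + 1 : ℕ) : ℤ) + 1 : ℤ) ≠ 0 := by positivity
        exact_mod_cast this
      have h4 : (((n + 1 : ℕ) : ℤ) + 1) • ((R.H.map (asym 1 N (n + 2))).hom (xs R x (n + 2))) =
          (((n + 1 : ℕ) : ℤ) + 1) • xs R x (n + 2) := by
        rw [h2, add_smul, one_smul]
        exact add_comm _ _
      rw [← Int.cast_smul_eq_zsmul E, ← Int.cast_smul_eq_zsmul E] at h4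
      exact smul_right_injective _ h3 h4

/-- No symmetric power of `N` vanishes if `H(N)` is not zero. -/
lemma asym_ne_zero [Linear ℚ C] [CharZero E] {N : C} (hN : ¬ IsZero (R.H.obj N)) (n : ℕ) :
    asym (1 : ℚ) N n ≠ 0 := by
  rw [ModuleCat.isZero_iff_subsingleton, not_subsingleton_iff_nontrivial] at hN
  obtain ⟨x, hx⟩ := exists_ne (0 : R.H.obj N)
  intro h
  have h1 := asym_xs R x n
  rw [h, Functor.map_zero] at h1
  exact xs_ne_zero R x hx n h1.symm

/-- **The odd cohomology of an object whose exterior power vanishes is zero.** -/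
theorem odd_zero [Linear ℚ C] [MonoidalLinear ℚ C] [CharZero E] {M : C} {n : ℕ}
    (hM : alt (𝟙_ C) M n = 0) {j : ℤ} (hj : Odd j) : IsZero (R.H.obj (M⟦j⟧)) := by
  by_contra h
  have h1 : ¬ IsZero (R.H.obj (M ⊗ (𝟙_ C)⟦j⟧)) := fun h2 =>
    h (h2.of_iso (R.H.mapIso (shiftIso M j)).symm)
  apply asym_ne_zero R h1 n
  have hS : (β_ ((𝟙_ C)⟦j⟧) ((𝟙_ C)⟦j⟧)).hom = -𝟙 _ := by
    have h2 := sgn_int C j
    rw [Sgn, Odd.neg_one_pow (Int.natAbs_odd.2 hj)] at h2
    rw [h2]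
    simp
  refine kill_sym hS hM _ fun s hs => ?_
  have h3 := (swap_asym (η := (1 : ℚ)) (by norm_num) _ hs).1
  rw [h3, one_smul]

end Shift

end Pool.Agent.Q65.TS
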