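import Pool.Agent.Q65.TS.Tow
import Pool.Agent.Q65.TS.Odd

/-!
# One exact realisation suffices
-/

set_option autoImplicit false
set_option linter.unusedSectionVars false
set_option linter.unusedSimpArgs false
set_option backward.isDefEq.respectTransparency false
set_option backward.defeqAttrib.useBackward true

open CategoryTheory Limits MonoidalCategory Pretriangulated Triangulated
open Pool.Agent.Y116.MT

namespace Pool.Agent.Q65.TS

universe v u w

section Def

variable {C : Type u} [Category.{v} C] [Preadditive C] [HasZeroObject C] [HasShift C ℤ]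
  [∀ n : ℤ, (shiftFunctor C n).Additive] [Pretriangulated C] [MonoidalCategory C]
  [SymmetricCategory C] [TensorTriangulated C]

/-- The theory of weights for a family of realisations `R l` of a category of motives, the
category being generated by the class `Chow` of Chow motives: the functors
`gr l w : X ↦ Gr^W_w H^0_l(X)`, where `H^n_l(X) = (R l).H.obj (X⟦n⟧)`. They are homological, they
vanish for all `w` only if `H^0_l(X)` does; `H^n_l` of a Chow motive is pure of weight `n`; the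
Euler characteristic of each weight does not depend on `l`. -/
structure WeightSystem (Chow : ObjectProperty C) {Λ : Type*} {E : Λ → Type w}
    [∀ l, Field (E l)] (R : ∀ l, Realisation C (E l)) where
  /-- the graded pieces of the weight filtration of the zeroth cohomology -/
  gr (l : Λ) (m : ℤ) : C ⥤ ModuleCat.{w} (E l)
  homological (l : Λ) (m : ℤ) : (gr l m).IsHomological
  finite (l : Λ) (m : ℤ) (X : C) : Module.Finite (E l) ((gr l m).obj X)
  isZero_iff (l : Λ) (X : C) : IsZero ((R l).H.obj X) ↔ ∀ m, IsZero ((gr l m).obj X)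
  pure (l : Λ) (X : C) : Chow X → ∀ n m : ℤ, m ≠ n → IsZero ((gr l m).obj (X⟦n⟧))
  euler (l l' : Λ) (m : ℤ) (X : C) :
    ∑ᶠ n : ℤ, (n.negOnePow : ℤ) * (Module.finrank (E l) ((gr l m).obj (X⟦n⟧)) : ℤ) =
      ∑ᶠ n : ℤ, (n.negOnePow : ℤ) * (Module.finrank (E l') ((gr l' m).obj (X⟦n⟧)) : ℤ)
  generate (P : ObjectProperty C) : P.IsTriangulated → P.IsStableUnderRetracts → Chow ≤ P →
    ∀ X, P X

attribute [instance] WeightSystem.homological WeightSystem.finite

end Def

section Tower

variable {C : Type u} [Category.{v} C] [Preadditive C] [HasZeroObject C] [HasShift C ℤ]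
  [∀ n : ℤ, (shiftFunctor C n).Additive] [Pretriangulated C] [MonoidalCategory C]
  [SymmetricCategory C] [TensorTriangulated C] {t : TStructure C}
  {E : Type w} [Field E] (R : Realisation C E)

/-- objects of degree `b`, with cohomology in degree `b` -/
def DegS (t : TStructure C) (R : Realisation C E) (b : ℤ) (Z : C) : Prop :=
  t.IsLE Z b ∧ t.IsGE Z b ∧ R.Deg Z b

/-- the odd part of the cohomology of the objects of the heart vanishes -/
def OddZero (t : TStructure C) (R : Realisation C E) : Prop :=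
  ∀ (b : ℤ) (Z : C), t.IsLE Z b → t.IsGE Z b → ∀ i : ℤ, Odd (i - b) →
    IsZero (R.H.obj (Z⟦i⟧))

variable {R}

lemma degS_pieces (ho : OddZero t R) : Pieces t (DegS t R) where
  le h := h.1
  ge h := h.2.1
  zero h := ⟨t.isLE_of_isZero h _, t.isGE_of_isZero h _, fun i _ =>
    R.H.map_isZero (isZero_shift h i)⟩
  sub := by
    intro b X Y Z f g h hT h1 h2 h3 h4 hY
    refine ⟨h1, h2, fun i hi => ?_⟩
    by_cases hi' : Odd (i - b)
    · exact ho b X h1 h2 i hi'
    · refine hz1 R.H hT i (hY.2.2 i hi) (ho b Z h3 h4 (i - 1) ?_)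
      rw [Int.not_odd_iff_even] at hi'
      rcases hi' with ⟨r, hr⟩
      exact ⟨r - 1, by omega⟩
  quot := by
    intro b X Y Z f g h hT h1 h2 h3 h4 hY
    refine ⟨h3, h4, fun i hi => ?_⟩
    by_cases hi' : Odd (i - b)
    · exact ho b Z h3 h4 i hi'
    · refine hz3 R.H hT i (hY.2.2 i hi) (ho b X h1 h2 (i + 1) ?_)
      rw [Int.not_odd_iff_even] at hi'
      rcases hi' with ⟨r, hr⟩
      exact ⟨r, by omega⟩
  ext := by
    intro b X Y Z f g h hT hX hZ
    exact ⟨isLE2 hT hX.1 hZ.1, isGE2 hT hX.2.1 hZ.2.1, fun i hi =>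
      hz2 R.H hT i (hX.2.2 i hi) (hZ.2.2 i hi)⟩
  shift := by
    intro a b n hab Z hZ
    have h1 := hZ.1
    have h2 := hZ.2.1
    exact ⟨t.isLE_shift Z b n a (by omega), t.isGE_shift Z b n a (by omega),
      hZ.2.2.shift n a hab⟩
  retract i r hir h := ⟨isLE_retract h.1 i r hir, isGE_retract h.2.1 i r hir,
    h.2.2.retract i r hir⟩

end Tower

section Gr

variable {C : Type u} [Category.{v} C] [Preadditive C] [HasZeroObject C] [HasShift C ℤ]
  [∀ n : ℤ, (shiftFunctor C n).Additive] [Pretriangulated C] [MonoidalCategory C]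
  [SymmetricCategory C] [TensorTriangulated C] [MonoidalPreadditive C] [RightRigidCategory C]
  {t : TStructure C} {E E' : Type w} [Field E] [Field E'] {R : Realisation C E} {R' : Realisation C E'}
  {G : ℤ → C ⥤ ModuleCat.{w} E} {G' : ℤ → C ⥤ ModuleCat.{w} E'}
  [∀ m, (G m).IsHomological] [∀ m, (G' m).IsHomological]
  [hfin : ∀ m X, Module.Finite E' ((G' m).obj X)]
  (hG : ∀ X, IsZero (R.H.obj X) ↔ ∀ m, IsZero ((G m).obj X))
  (hG' : ∀ X, IsZero (R'.H.obj X) ↔ ∀ m, IsZero ((G' m).obj X))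

/-- objects of degree `b` whose cohomology has weights `b` -/
def DegW (t : TStructure C) (G' : ℤ → C ⥤ ModuleCat.{w} E') (b : ℤ) (Z : C) : Prop :=
  t.IsLE Z b ∧ t.IsGE Z b ∧ ∀ m : ℤ, m ≠ b → ∀ i : ℤ, IsZero ((G' m).obj (Z⟦i⟧))

lemma gr_zero {k : ℕ} : ∀ {b : ℤ} {N : C}, Tow (DegW t G') k b N → ∀ m : ℤ, b < m → ∀ i : ℤ,
    IsZero ((G' m).obj (N⟦i⟧)) := by
  induction k with
  | zero => intro b N h m _ i; exact (G' m).map_isZero (isZero_shift h i)
  | succ k ih =>
    rintro b N ⟨N', Z, f, g, h, hT, hN, hZ⟩ m hm i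
    exact hz2 (G' m) hT i (ih hN m (by omega) i) (hZ.2.2 m (by omega) i)

include hG' in
/-- the third step -/
lemma step3 {k : ℕ} : ∀ {b : ℤ} {N : C}, Tow (DegW t G') k b N →
    (∀ n m : ℤ, m ≠ n → IsZero ((G' m).obj (N⟦n⟧))) → Tow (DegS t R') k b N := by
  induction k with
  | zero => intro b N h _; exact h
  | succ k ih =>
    rintro b N ⟨N', Z, f, g, h, hT, hN, hZ⟩ hp
    refine ⟨N', Z, f, g, h, hT, ih hN ?_, hZ.1, hZ.2.1, ?_⟩
    · intro n m hm
      by_cases hb : m = b
      · exact gr_zero hN m (by omega) n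
      · exact hz1 (G' m) hT n (hp n m hm) (hZ.2.2 m hb (n - 1))
    · intro i hi
      rw [hG']
      intro m
      by_cases hb : m = b
      · exact hz3 (G' m) hT i (hp i m (by omega)) (gr_zero hN m (by omega) (i + 1))
      · exact hZ.2.2 m hb i

include hG' hfin in
/-- the second step -/
lemma step2 (ho : OddZero t R') {b : ℤ} {Z : C} (h1 : t.IsLE Z b) (h2 : t.IsGE Z b) (m : ℤ)
    (he : ∑ᶠ n : ℤ, (n.negOnePow : ℤ) * (Module.finrank E' ((G' m).obj (Z⟦n⟧)) : ℤ) = 0)
    (i : ℤ) : IsZero ((G' m).obj (Z⟦i⟧)) := by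
  obtain ⟨N, hN⟩ := R'.bounded Z
  have hz : ∀ n : ℤ, IsZero (R'.H.obj (Z⟦n⟧)) → Module.finrank E' ((G' m).obj (Z⟦n⟧)) = 0 := by
    intro n hn
    have h3 := (hG' _).1 hn m
    have h4 : Subsingleton ((G' m).obj (Z⟦n⟧)) := ModuleCat.subsingleton_of_isZero h3
    exact Module.finrank_zero_of_subsingleton
  have hi : Module.finrank E' ((G' m).obj (Z⟦i⟧)) = 0 := by
    by_cases hiN : N < i.natAbs
    · exact hz i (hN i hiN)
    · have h5 : ∀ n : ℤ, (n.negOnePow : ℤ) * (Module.finrank E' ((G' m).obj (Z⟦n⟧)) : ℤ) =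
          (b.negOnePow : ℤ) * (Module.finrank E' ((G' m).obj (Z⟦n⟧)) : ℤ) := by
        intro n
        by_cases hn : Odd (n - b)
        · rw [hz n (ho b Z h1 h2 n hn)]
          simp
        · rw [Int.not_odd_iff_even] at hn
          have h6 : n.negOnePow = b.negOnePow := by
            rw [← sub_add_cancel n b, Int.negOnePow_add, Int.negOnePow_even _ hn, one_mul]
          rw [h6]
      have h6 : Function.support (fun n : ℤ =>
          (n.negOnePow : ℤ) * (Module.finrank E' ((G' m).obj (Z⟦n⟧)) : ℤ)) ⊆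
          (Finset.Icc (-(N : ℤ)) N : Finset ℤ) := by
        intro n hn
        by_contra hn'
        apply hn
        have h7 : Module.finrank E' ((G' m).obj (Z⟦n⟧)) = 0 := by
          refine hz n (hN n ?_)
          simp only [Finset.coe_Icc, Set.mem_Icc] at hn'
          omega
        simp [h7]
      rw [finsum_eq_sum_of_support_subset _ h6, Finset.sum_congr rfl (fun n _ => h5 n),
        ← Finset.mul_sum] at he
      have h7 : (b.negOnePow : ℤ) ≠ 0 := Units.ne_zero _
      have h8 := (mul_eq_zero.1 he).resolve_left h7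
      rw [Finset.sum_eq_zero_iff_of_nonneg (fun n _ => by positivity)] at h8
      have h9 := h8 i (by simp only [Finset.mem_Icc]; omega)
      exact_mod_cast h9
  rw [ModuleCat.isZero_iff_subsingleton]
  exact Module.finrank_zero_iff.1 hi

include hG hG' hfin in
/-- the first step -/
lemma step1 (he : TExact t R) (ho : OddZero t R')
    (hE : ∀ (m : ℤ) (Z : C),
      ∑ᶠ n : ℤ, (n.negOnePow : ℤ) * (Module.finrank E ((G m).obj (Z⟦n⟧)) : ℤ) =
      ∑ᶠ n : ℤ, (n.negOnePow : ℤ) * (Module.finrank E' ((G' m).obj (Z⟦n⟧)) : ℤ)) {k : ℕ} :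
    ∀ {b : ℤ} {N : C}, Tow (fun b Z => t.IsLE Z b ∧ t.IsGE Z b) k b N →
    (∀ n m : ℤ, m ≠ n → IsZero ((G m).obj (N⟦n⟧))) → Tow (DegW t G') k b N := by
  have hle : ∀ {k : ℕ} {b : ℤ} {N : C}, Tow (fun b Z => t.IsLE Z b ∧ t.IsGE Z b) k b N →
      t.IsLE N b := by
    intro k
    induction k with
    | zero => intro b N h; exact zero_isLE h b
    | succ k ih =>
      rintro b N ⟨N', Z, f, g, h, hT, hN, hZ⟩
      have h1 := ih hN
      exact isLE2 hT (t.isLE_of_le N' (b - 1) b (by omega)) hZ.1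
  induction k with
  | zero => intro b N h _; exact h
  | succ k ih =>
    rintro b N ⟨N', Z, f, g, h, hT, hN, hZ⟩ hp
    have hN' := hle hN
    refine ⟨N', Z, f, g, h, hT, ih hN ?_, hZ.1, hZ.2, ?_⟩
    · intro n m hm
      by_cases hb : n < b
      · exact hz1 (G m) hT n (hp n m hm) ((hG _).1 (he.isGE hZ.2 (n - 1) (by omega)) m)
      · exact (hG _).1 (he.isLE hN' n (by omega)) m
    · intro m hm
      refine step2 hG' ho hZ.1 hZ.2 m ?_
      rw [← hE m Z]
      have h0 : ∀ n : ℤ, IsZero ((G m).obj (Z⟦n⟧)) := by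
        intro n
        rcases lt_trichotomy n b with hn | rfl | hn
        · exact (hG _).1 (he.isGE hZ.2 n hn) m
        · exact hz3 (G m) hT n (hp n m hm) ((hG _).1 (he.isLE hN' (n + 1) (by omega)) m)
        · exact (hG _).1 (he.isLE hZ.1 n hn) m
      have h1 : ∀ n : ℤ, (n.negOnePow : ℤ) * (Module.finrank E ((G m).obj (Z⟦n⟧)) : ℤ) = 0 := by
        intro n
        have h4 : Subsingleton ((G m).obj (Z⟦n⟧)) := ModuleCat.subsingleton_of_isZero (h0 n)
        rw [Module.finrank_zero_of_subsingleton]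
        simp
      simp only [h1, finsum_zero]

end Gr

section Main

variable {C : Type u} [Category.{v} C] [Preadditive C] [HasZeroObject C] [HasShift C ℤ]
  [∀ n : ℤ, (shiftFunctor C n).Additive] [Pretriangulated C] [IsTriangulated C]
  [MonoidalCategory C] [SymmetricCategory C] [TensorTriangulated C] [MonoidalPreadditive C]
  [Linear ℚ C] [MonoidalLinear ℚ C] [RightRigidCategory C]

lemma idem_of_rat (hq : ∀ e : 𝟙_ C ⟶ 𝟙_ C, ∃ q : ℚ, e = q • 𝟙 _) (e : 𝟙_ C ⟶ 𝟙_ C)
    (he : e ≫ e = e) : e = 0 ∨ e = 𝟙 _ := by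
  obtain ⟨q, rfl⟩ := hq e
  by_cases h : q = 0
  · left; rw [h, zero_smul]
  · right
    rw [Linear.smul_comp, Linear.comp_smul, Category.comp_id] at he
    have h1 : (q⁻¹ * q) • (q • 𝟙 (𝟙_ C)) = (q⁻¹ * q) • 𝟙 (𝟙_ C) := by
      rw [mul_smul, he, mul_smul]
    rw [inv_mul_cancel₀ h, one_smul, one_smul] at h1
    exact h1

lemma oddZero_of {E E' : Type w} [Field E] [Field E'] [CharZero E'] {t : TStructure C}
    {R : Realisation C E} (R' : Realisation C E') (ht : TensorCompat t) (he : TExact t R)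
    (hu : Hrt t (𝟙_ C)) (hid : ∀ e : 𝟙_ C ⟶ 𝟙_ C, e ≫ e = e → e = 0 ∨ e = 𝟙 _) :
    OddZero t R' := by
  intro b Z h1 h2 i hi
  have hM : Hrt t (Z⟦b⟧) := ⟨t.isLE_shift Z b b 0, t.isGE_shift Z b b 0⟩
  obtain ⟨n, hn⟩ := alt_heart_zero ht he hu hid hM
  exact (odd_zero R' hn hi).of_iso
    (R'.H.mapIso ((shiftFunctorAdd' C b (i - b) i (by omega)).app Z))

variable {Chow : ObjectProperty C} {Λ : Type*} {E : Λ → Type w} [∀ l, Field (E l)]
  [∀ l, CharZero (E l)] {R : ∀ l, Realisation C (E l)} (W : WeightSystem Chow R)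

include W in
/-- exactness for one realisation implies exactness for all -/
theorem exact_all {t : TStructure C} (ht : TensorCompat t)
    (hle : ∀ X : C, (∀ n : ℤ, t.le n X) → IsZero X) (hge : ∀ X : C, (∀ n : ℤ, t.ge n X) → IsZero X)
    (hid : ∀ e : 𝟙_ C ⟶ 𝟙_ C, e ≫ e = e → e = 0 ∨ e = 𝟙 _) (l l' : Λ) (he : TExact t (R l)) :
    TExact t (R l') := by
  have hu := unit_hrt ht hle hge
  have ho : OddZero t (R l') := oddZero_of (R l') ht he hu hid
  have hS := degS_pieces ho
  have hall : ∀ X : C, TowP (DegS t (R l')) X := by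
    refine W.generate _ (towP_triangulated hS) (towP_retracts hS) ?_
    intro X hX
    obtain ⟨N, h1, h2⟩ := bounded_of_H ht he hu hid hle hge X
    have h3 := tow_exists (t := t) (2 * N + 1) (X := X) (a := -N) (b := N)
      (by push_cast; omega) h2 h1
    have h4 := step1 (G := W.gr l) (G' := W.gr l') (W.isZero_iff l) (W.isZero_iff l') he ho
      (fun m Z => W.euler l l' m Z) h3 (W.pure l X hX)
    exact ⟨_, _, step3 (W.isZero_iff l') h4 (W.pure l' X hX)⟩
  constructor
  · intro X hX i hi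
    obtain ⟨k, b, hk⟩ := hall X
    exact hk.strip_le hS (R l').H (fun b Z hZ i hi => hZ.2.2 i (by omega)) (n := 0) ⟨hX⟩ i hi
  · intro X hX i hi
    obtain ⟨k, b, hk⟩ := hall X
    exact hk.strip_ge hS (R l').H (fun b Z hZ i hi => hZ.2.2 i (by omega)) (n := 0) ⟨hX⟩ i hi

end Main

end Pool.Agent.Q65.TS
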