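import Pool.Agent.Y116.MT.Hom

/-!
# Towers with prescribed pieces
-/

set_option autoImplicit false
set_option linter.unusedSectionVars false
set_option linter.unusedSimpArgs false
set_option backward.isDefEq.respectTransparency false
set_option backward.defeqAttrib.useBackward true

open CategoryTheory Limits MonoidalCategory Pretriangulated Triangulated ZeroObject
open Pool.Agent.Y116.MT

namespace Pool.Agent.Q65.TS

universe v u w

variable {C : Type u} [Category.{v} C] [Preadditive C] [HasZeroObject C] [HasShift C ℤ]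
  [∀ n : ℤ, (shiftFunctor C n).Additive] [Pretriangulated C] (t : TStructure C)

/-- A class of objects of degree `b`, for every `b`. -/
structure Pieces (S : ℤ → C → Prop) : Prop where
  le {b : ℤ} {Z : C} : S b Z → t.IsLE Z b
  ge {b : ℤ} {Z : C} : S b Z → t.IsGE Z b
  zero {b : ℤ} {Z : C} : IsZero Z → S b Z
  sub {b : ℤ} {X Y Z : C} {f : X ⟶ Y} {g : Y ⟶ Z} {h : Z ⟶ X⟦(1 : ℤ)⟧}
    (hT : Triangle.mk f g h ∈ distTriang C) : t.IsLE X b → t.IsGE X b → t.IsLE Z b →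
      t.IsGE Z b → S b Y → S b X
  quot {b : ℤ} {X Y Z : C} {f : X ⟶ Y} {g : Y ⟶ Z} {h : Z ⟶ X⟦(1 : ℤ)⟧}
    (hT : Triangle.mk f g h ∈ distTriang C) : t.IsLE X b → t.IsGE X b → t.IsLE Z b →
      t.IsGE Z b → S b Y → S b Z
  ext {b : ℤ} {X Y Z : C} {f : X ⟶ Y} {g : Y ⟶ Z} {h : Z ⟶ X⟦(1 : ℤ)⟧}
    (hT : Triangle.mk f g h ∈ distTriang C) : S b X → S b Z → S b Y
  shift {a b n : ℤ} (hab : n + a = b) {Z : C} : S b Z → S a (Z⟦n⟧)
  retract {b : ℤ} {X Z : C} (i : X ⟶ Z) (r : Z ⟶ X) (hir : i ≫ r = 𝟙 X) : S b Z → S b X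

/-- Objects with a finite tower with pieces in `S`, the top one in degree `b`. -/
def Tow (S : ℤ → C → Prop) : ℕ → ℤ → C → Prop
  | 0, _, N => IsZero N
  | k + 1, b, N => ∃ (N' Z : C) (f : N' ⟶ N) (g : N ⟶ Z) (h : Z ⟶ N'⟦(1 : ℤ)⟧),
      Triangle.mk f g h ∈ distTriang C ∧ Tow S k (b - 1) N' ∧ S b Z

variable {t} {S : ℤ → C → Prop} (hS : Pieces t S) [MonoidalCategory C] [SymmetricCategory C]
  [TensorTriangulated C]

lemma dist_iso2 {X Y Y' Z : C} {f : X ⟶ Y} {g : Y ⟶ Z} {h : Z ⟶ X⟦(1 : ℤ)⟧}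
    (hT : Triangle.mk f g h ∈ distTriang C) (e : Y ≅ Y') :
    Triangle.mk (f ≫ e.hom) (e.inv ≫ g) h ∈ distTriang C := by
  refine isomorphic_distinguished _ hT _ ?_
  exact Triangle.isoMk _ _ (Iso.refl _) e.symm (Iso.refl _)

lemma dist_iso1 {X X' Y Z : C} {f : X ⟶ Y} {g : Y ⟶ Z} {h : Z ⟶ X⟦(1 : ℤ)⟧}
    (hT : Triangle.mk f g h ∈ distTriang C) (e : X ≅ X') :
    Triangle.mk (e.inv ≫ f) g (h ≫ e.hom⟦(1 : ℤ)⟧') ∈ distTriang C := by
  refine isomorphic_distinguished _ hT _ ?_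
  refine Triangle.isoMk _ _ e.symm (Iso.refl _) (Iso.refl _) ?_ ?_ ?_
  · simp
  · simp
  · simp [← Functor.map_comp]

/-- the inverse rotation of a distinguished triangle -/
lemma invrot {X Y Z : C} {f : X ⟶ Y} {g : Y ⟶ Z} {h : Z ⟶ X⟦(1 : ℤ)⟧}
    (hT : Triangle.mk f g h ∈ distTriang C) :
    ∃ (a : Z⟦(-1 : ℤ)⟧ ⟶ X) (b : Y ⟶ (Z⟦(-1 : ℤ)⟧)⟦(1 : ℤ)⟧), Triangle.mk a f b ∈ distTriang C :=
  ⟨_, _, inv_rot_of_distTriang _ hT⟩

lemma S_iso (hS : Pieces t S) {b : ℤ} {X Y : C} (e : X ≅ Y) (h : S b X) : S b Y :=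
  hS.retract e.inv e.hom (by simp) h

lemma zero_isLE {X : C} (h : IsZero X) (n : ℤ) : t.IsLE X n := t.isLE_of_isZero h n
lemma zero_isGE {X : C} (h : IsZero X) (n : ℤ) : t.IsGE X n := t.isGE_of_isZero h n

include hS in
lemma Tow.isLE {k : ℕ} : ∀ {b : ℤ} {N : C}, Tow S k b N → t.IsLE N b := by
  induction k with
  | zero => intro b N h; exact zero_isLE h b
  | succ k ih =>
    rintro b N ⟨N', Z, f, g, h, hT, hN, hZ⟩
    have h1 := ih hN
    exact isLE2 hT (t.isLE_of_le N' (b - 1) b (by omega)) (hS.le hZ)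

lemma Tow.iso {k : ℕ} {b : ℤ} {N M : C} (h : Tow S k b N) (e : N ≅ M) : Tow S k b M := by
  cases k with
  | zero => exact IsZero.of_iso h e.symm
  | succ k =>
    obtain ⟨N', Z, f, g, h, hT, hN, hZ⟩ := h
    exact ⟨N', Z, _, _, _, dist_iso2 hT e, hN, hZ⟩

include hS in
lemma Tow.pad {k : ℕ} {b : ℤ} {N : C} (h : Tow S k b N) : Tow S (k + 1) (b + 1) N := by
  refine ⟨N, 0, 𝟙 N, 0, 0, contractible_distinguished N, ?_, hS.zero (isZero_zero C)⟩
  rw [show b + 1 - 1 = b by ring]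
  exact h

include hS in
lemma Tow.pads {k : ℕ} {b : ℤ} {N : C} (h : Tow S k b N) {c : ℤ} (hc : b ≤ c) :
    ∃ k', Tow S k' c N := by
  obtain ⟨n, rfl⟩ := Int.le.dest hc
  clear hc
  induction n with
  | zero => exact ⟨k, by simpa using h⟩
  | succ n ih =>
    obtain ⟨k', hk'⟩ := ih
    refine ⟨k' + 1, ?_⟩
    have := hk'.pad hS
    push_cast
    rw [← add_assoc]
    exact this

include hS in
lemma Tow.shift {k : ℕ} {n : ℤ} : ∀ {a b : ℤ} (_ : n + a = b) {N : C}, Tow S k b N →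
    Tow S k a (N⟦n⟧) := by
  induction k with
  | zero => intro a b hab N h; exact isZero_shift h n
  | succ k ih =>
    rintro a b hab N ⟨N', Z, f, g, h, hT, hN, hZ⟩
    exact ⟨N'⟦n⟧, Z⟦n⟧, _, _, _, Triangle.shift_distinguished _ hT n,
      ih (by omega) hN, hS.shift hab hZ⟩

variable [IsTriangulated C]

include hS in
/-- adding a piece on the top -/
lemma Tow.top {k : ℕ} {b : ℤ} {B D Z : C} {f : B ⟶ D} {g : D ⟶ Z} {h : Z ⟶ B⟦(1 : ℤ)⟧}
    (hT : Triangle.mk f g h ∈ distTriang C) (hB : Tow S k b B) (hZ : S b Z) :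
    ∃ k', Tow S k' b D := by
  cases k with
  | zero => exact ⟨1, B, Z, f, g, h, hT, hB, hZ⟩
  | succ k =>
    obtain ⟨B', Z', f', g', h', hT', hB', hZ'⟩ := hB
    obtain ⟨U, p, d, hU⟩ := distinguished_cocone_triangle (f' ≫ f)
    have O := someOctahedron (rfl : f' ≫ f = f' ≫ f) hT' hT hU
    exact ⟨k + 1, B', U, _, _, _, hU, hB', hS.ext O.mem hZ' hZ⟩

include hS in
/-- kernel and cokernel of a morphism of pieces -/
lemma ker_coker {n : ℤ} {Z Z₁ U : C} {f : Z ⟶ Z₁} {g : Z₁ ⟶ U} {h : U ⟶ Z⟦(1 : ℤ)⟧}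
    (hT : Triangle.mk f g h ∈ distTriang C) (hZ : S n Z) (hZ₁ : S n Z₁) :
    ∃ (K Q : C) (k : K ⟶ U) (q : U ⟶ Q) (d : Q ⟶ K⟦(1 : ℤ)⟧),
      Triangle.mk k q d ∈ distTriang C ∧ S (n - 1) K ∧ S n Q := by
  have a1 := hS.le hZ
  have a2 := hS.ge hZ
  have a3 := hS.le hZ₁
  have a4 := hS.ge hZ₁
  have b1 : t.IsLE U n := isLE3 hT (t.isLE_of_le Z n (n + 1)) a3
  have b2 : t.IsGE U (n - 1) := isGE3 hT (by simpa using a2) (t.isGE_of_ge Z₁ (n - 1) n)
  obtain ⟨K, Q, hK, hQ, k, q, d, hKQ⟩ := t.exists_triangle U (n - 1) n (by omega)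
  have c1 : t.IsLE K (n - 1) := ⟨hK⟩
  have c2 : t.IsGE Q n := ⟨hQ⟩
  have c3 : t.IsGE K (n - 1) := isGE1 hKQ b2 (t.isGE_of_ge Q (n - 1 - 1) n)
  have c4 : t.IsLE Q n := isLE3 hKQ (t.isLE_of_le K (n - 1) (n + 1)) b1
  obtain ⟨I, p, e, hI⟩ := distinguished_cocone_triangle (k ≫ h)
  have O := someOctahedron (rfl : k ≫ h = k ≫ h) hKQ (rotD (rotD hT)) hI
  have s1 : t.IsLE (Z⟦(1 : ℤ)⟧) (n - 1) := t.isLE_shift Z n 1 (n - 1)
  have s2 : t.IsGE (Z₁⟦(1 : ℤ)⟧) (n - 1) := t.isGE_shift Z₁ n 1 (n - 1)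
  have i1 : t.IsGE I (n - 1) := isGE2 O.mem (t.isGE_of_ge Q (n - 1) n) s2
  have i2 : t.IsLE I (n - 1) := isLE3 hI (t.isLE_of_le K (n - 1) (n - 1 + 1)) s1
  have s3 : t.IsLE (Q⟦(1 : ℤ)⟧) (n - 1) := t.isLE_shift Q n 1 (n - 1)
  have s4 : t.IsGE (Q⟦(1 : ℤ)⟧) (n - 1) := t.isGE_shift Q n 1 (n - 1)
  refine ⟨K, Q, k, q, d, hKQ, ?_, ?_⟩
  · exact hS.sub hI c1 c3 i2 i1 (hS.shift (by omega) hZ)
  · have h1 := hS.quot (rotD O.mem) i2 i1 s3 s4 (hS.shift (by omega) hZ₁)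
    exact S_iso hS ((shiftEquiv C (1 : ℤ)).unitIso.app Q).symm (hS.shift (a := n) (by omega) h1)

include hS in
lemma Tow.cone1 {n : ℤ} {Z : C} (hZ : S n Z) {k : ℕ} : ∀ {b : ℤ} {B D : C} {f : Z ⟶ B} {g : B ⟶ D}
    {h : D ⟶ Z⟦(1 : ℤ)⟧} (_ : Triangle.mk f g h ∈ distTriang C) (_ : Tow S k b B)
    (_ : n - 1 ≤ b), ∃ k', Tow S k' b D := by
  induction k with
  | zero =>
    intro b B D f g h hT hB hb
    have h1 : Tow S 0 (n - 1) B := hB
    obtain ⟨k', hk'⟩ := h1.top hS (rotD hT) (hS.shift (by omega) hZ)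
    exact hk'.pads hS hb
  | succ k ih =>
    intro b B D f g h hT hB hb
    rcases hb.eq_or_lt with rfl | hb
    · exact hB.top hS (rotD hT) (hS.shift (by omega) hZ)
    obtain ⟨B', Z₁, f', g', h', hT', hB', hZ₁⟩ := hB
    have a1 := hS.le hZ
    have a4 := hS.ge hZ₁
    by_cases hn : n < b
    · have h0 : f ≫ g' = 0 := t.zero_of_isLE_of_isGE _ n b hn a1 a4
      obtain ⟨l, hl⟩ := ce2 hT' f h0
      obtain ⟨D', p, d, hD'⟩ := distinguished_cocone_triangle l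
      have O := someOctahedron hl.symm hD' hT' hT
      obtain ⟨k', hk'⟩ := ih hD' hB' (by omega)
      exact ⟨k' + 1, D', Z₁, _, _, _, O.mem, hk', hZ₁⟩
    · obtain rfl : b = n := by omega
      obtain ⟨U, p, d, hU⟩ := distinguished_cocone_triangle (f ≫ g')
      have O := someOctahedron (rfl : f ≫ g' = f ≫ g') hT (rotD hT') hU
      obtain ⟨K, Q, kk, q, e, hKQ, hK, hQ⟩ := ker_coker hS hU hZ hZ₁
      obtain ⟨D₁, p', d', hD₁⟩ := distinguished_cocone_triangle (O.m₁ ≫ q)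
      have O' := someOctahedron (rfl : O.m₁ ≫ q = O.m₁ ≫ q) O.mem (rotD hKQ) hD₁
      have h1 : Tow S k (b - 1 - 1) (B'⟦(1 : ℤ)⟧) := hB'.shift hS (by omega)
      obtain ⟨k', hk'⟩ := h1.top hS O'.mem (hS.shift (by omega) hK)
      obtain ⟨x, y, hxy⟩ := invrot hD₁
      exact ⟨k' + 1, _, Q, _, _, _, hxy, hk'.shift hS (by omega), hQ⟩

include hS in
theorem Tow.cone {k : ℕ} : ∀ {a b : ℤ} {m : ℕ} {A B D : C} {f : A ⟶ B} {g : B ⟶ D}
    {h : D ⟶ A⟦(1 : ℤ)⟧} (_ : Triangle.mk f g h ∈ distTriang C) (_ : Tow S k a A)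
    (_ : Tow S m b B), ∃ k' c, Tow S k' c D := by
  induction k with
  | zero =>
    intro a b m A B D f g h hT hA hB
    have := isIso2_of_isZero1 hT hA
    exact ⟨m, b, hB.iso (asIso g)⟩
  | succ k ih =>
    intro a b m A B D f g h hT hA hB
    obtain ⟨A', Z, f', g', h', hT', hA', hZ⟩ := hA
    obtain ⟨D', p, d, hD'⟩ := distinguished_cocone_triangle (f' ≫ f)
    have O := someOctahedron (rfl : f' ≫ f = f' ≫ f) hT' hT hD'
    obtain ⟨k', c, hk'⟩ := ih hD' hA' hB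
    obtain ⟨k'', hk''⟩ := hk'.pads hS (le_max_left c (a - 1))
    obtain ⟨k₃, hk₃⟩ := Tow.cone1 hS hZ O.mem hk'' (le_max_right c (a - 1))
    exact ⟨k₃, _, hk₃⟩

omit [IsTriangulated C] in
include hS in
theorem Tow.retract {k : ℕ} : ∀ {b : ℤ} {X N : C} (i : X ⟶ N) (r : N ⟶ X) (_ : i ≫ r = 𝟙 X)
    (_ : Tow S k b N), Tow S k b X := by
  induction k with
  | zero => intro b X N i r hir hN; exact isZero_of_retract hN i r hir
  | succ k ih =>
    intro b X N i r hir hN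
    obtain ⟨N', Z, f, g, h, hT, hN', hZ⟩ := hN
    obtain ⟨A, B, hA, hB, f', g', h', hT'⟩ := t.exists_triangle X (b - 1) b (by omega)
    have a1 : t.IsLE A (b - 1) := ⟨hA⟩
    have a2 : t.IsGE B b := ⟨hB⟩
    have a3 : t.IsGE Z b := hS.ge hZ
    have a4 : t.IsLE N' (b - 1) := hN'.isLE hS
    obtain ⟨u, hu⟩ := ce2 hT (f' ≫ i) (t.zero_of_isLE_of_isGE _ (b - 1) b (by omega) a1 a3)
    obtain ⟨v, hv⟩ := ce2 hT' (f ≫ r) (t.zero_of_isLE_of_isGE _ (b - 1) b (by omega) a4 a2)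
    obtain ⟨u', hu'⟩ := ye2 hT' (i ≫ g) (t.zero_of_isLE_of_isGE _ (b - 1) b (by omega) a1 a3)
    obtain ⟨v', hv'⟩ := ye2 hT (r ≫ g') (t.zero_of_isLE_of_isGE _ (b - 1) b (by omega) a4 a2)
    refine ⟨A, B, f', g', h', hT', ih u v ?_ hN', hS.retract u' v' ?_ hZ⟩
    · have h1 : (u ≫ v - 𝟙 A) ≫ f' = 0 := by
        rw [Preadditive.sub_comp, Category.assoc, ← hv, ← Category.assoc, ← hu, Category.assoc,
          hir]
        simp
      obtain ⟨x, y, hxy⟩ := invrot hT'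
      obtain ⟨l, hl⟩ := ce2 hxy _ h1
      have b1 : t.IsGE (B⟦(-1 : ℤ)⟧) (b + 1) := t.isGE_shift B b (-1) (b + 1)
      have h2 : l = 0 := t.zero_of_isLE_of_isGE _ (b - 1) (b + 1) (by omega) a1 b1
      rw [h2, zero_comp, sub_eq_zero] at hl
      exact hl
    · have h1 : g' ≫ (u' ≫ v' - 𝟙 B) = 0 := by
        rw [Preadditive.comp_sub, ← Category.assoc, ← hu', Category.assoc, ← hv',
          ← Category.assoc, hir]
        simp
      obtain ⟨l, hl⟩ := ye3 hT' _ h1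
      have b1 : t.IsLE (A⟦(1 : ℤ)⟧) (b - 1 - 1) := t.isLE_shift A (b - 1) 1 (b - 1 - 1)
      have h2 : l = 0 := t.zero_of_isLE_of_isGE _ (b - 1 - 1) b (by omega) b1 a2
      rw [h2, comp_zero, sub_eq_zero] at hl
      exact hl

/-- the class of all objects with a tower -/
def TowP (S : ℤ → C → Prop) : ObjectProperty C := fun X => ∃ k b, Tow S k b X

omit [IsTriangulated C] in
include hS in
lemma towP_retracts : (TowP S).IsStableUnderRetracts where
  of_retract := by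
    rintro X Y h ⟨k, b, hk⟩
    exact ⟨k, b, hk.retract hS h.i h.r h.retract⟩

include hS in
lemma towP_triangulated : (TowP S).IsTriangulated := by
  have h0 : (TowP S).IsStableUnderShift ℤ :=
    { isStableUnderShiftBy := fun n =>
        { le_shift := by
            rintro X ⟨k, b, hk⟩
            exact ⟨k, b - n, hk.shift hS (by omega)⟩ } }
  have h1 : (TowP S).IsTriangulatedClosed₂ :=
    { ext₂' := by
        rintro T hT ⟨k, a, hA⟩ ⟨m, b, hB⟩
        refine ObjectProperty.le_isoClosure _ _ ?_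
        have h2 := inv_rot_of_distTriang _ hT
        exact Tow.cone hS h2 (hB.shift hS (a := b + 1) (n := -1) (by omega)) hA }
  have h2 : (TowP S).ContainsZero := ⟨⟨0, isZero_zero C, ⟨0, 0, isZero_zero C⟩⟩⟩
  exact { }

omit [IsTriangulated C] in
/-- existence of towers for bounded objects -/
lemma tow_exists (k : ℕ) : ∀ {X : C} {a b : ℤ}, b - a < k → t.IsGE X a → t.IsLE X b →
    Tow (fun b Z => t.IsLE Z b ∧ t.IsGE Z b) k b X := by
  induction k with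
  | zero =>
    intro X a b hab h1 h2
    exact t.isZero X b a (by push_cast at hab; omega)
  | succ k ih =>
    intro X a b hab h1 h2
    by_cases hba : b < a
    · have h0 : IsZero X := t.isZero X b a hba
      have h3 : t.IsGE X (b - 1 + 1) := zero_isGE h0 _
      refine ⟨X, 0, 𝟙 X, 0, 0, contractible_distinguished X, ?_, zero_isLE (isZero_zero C) _,
        zero_isGE (isZero_zero C) _⟩
      clear ih h1 h2 h3 hab
      induction k generalizing b with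
      | zero => exact h0
      | succ k ih =>
        exact ⟨X, 0, 𝟙 X, 0, 0, contractible_distinguished X, ih (by omega),
          zero_isLE (isZero_zero C) _, zero_isGE (isZero_zero C) _⟩
    · obtain ⟨A, B, hA, hB, f', g', h', hT'⟩ := t.exists_triangle X (b - 1) b (by omega)
      have a1 : t.IsLE A (b - 1) := ⟨hA⟩
      have a2 : t.IsGE B b := ⟨hB⟩
      have a3 : t.IsLE B b := isLE3 hT' (t.isLE_of_le A (b - 1) (b + 1)) h2
      have a4 : t.IsGE A a := isGE1 hT' h1 (t.isGE_of_ge B (a - 1) b)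
      exact ⟨A, B, f', g', h', hT', ih (by push_cast at hab; omega) a4 a1, a3, a2⟩

section Strip

variable {A : Type*} [Category A] [Abelian A] (H : C ⥤ A) [H.IsHomological]

omit [IsTriangulated C] in
lemma Tow.H_le (hH : ∀ (b : ℤ) (Z : C), S b Z → ∀ i, b < i → IsZero (H.obj (Z⟦i⟧))) {k : ℕ} :
    ∀ {b : ℤ} {N : C}, Tow S k b N → ∀ i, b < i → IsZero (H.obj (N⟦i⟧)) := by
  induction k with
  | zero => intro b N h i _; exact H.map_isZero (isZero_shift h i)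
  | succ k ih =>
    rintro b N ⟨N', Z, f, g, h, hT, hN, hZ⟩ i hi
    exact hz2 H hT i (ih hN i (by omega)) (hH b Z hZ i hi)

omit [IsTriangulated C] in
include hS in
lemma Tow.strip_le (hH : ∀ (b : ℤ) (Z : C), S b Z → ∀ i, b < i → IsZero (H.obj (Z⟦i⟧)))
    {n : ℤ} {k : ℕ} : ∀ {b : ℤ} {N : C}, Tow S k b N → t.IsLE N n →
      ∀ i, n < i → IsZero (H.obj (N⟦i⟧)) := by
  induction k with
  | zero => intro b N h _ i _; exact H.map_isZero (isZero_shift h i)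
  | succ k ih =>
    intro b N hN hn i hi
    by_cases hb : b ≤ n
    · exact Tow.H_le H hH hN i (by omega)
    obtain ⟨N', Z, f, g, h, hT, hN', hZ⟩ := hN
    have a3 : t.IsGE Z b := hS.ge hZ
    have a4 : t.IsLE N' (b - 1) := hN'.isLE hS
    have h0 : g = 0 := t.zero_of_isLE_of_isGE _ n b (by omega) hn a3
    obtain ⟨r, hr⟩ := split2' hT h0
    have b1 : t.IsLE (N'⟦(1 : ℤ)⟧) (b - 1 - 1) := t.isLE_shift N' (b - 1) 1 (b - 1 - 1)
    have b2 : t.IsLE Z (b - 1 - 1) := isLE_retract b1 h r hr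
    have b3 : IsZero Z := t.isZero Z (b - 1 - 1) b (by omega)
    have := isIso1_of_isZero3 hT b3
    have b4 : t.IsLE N' n := @TStructure.isLE_of_iso _ _ _ _ _ _ _ t _ _ (asIso f).symm _ hn
    exact (ih hN' b4 i hi).of_iso (H.mapIso ((shiftFunctor C i).mapIso (asIso f).symm))

omit [IsTriangulated C] in
include hS in
lemma Tow.strip_ge (hH : ∀ (b : ℤ) (Z : C), S b Z → ∀ i, i < b → IsZero (H.obj (Z⟦i⟧)))
    {n : ℤ} {k : ℕ} : ∀ {b : ℤ} {N : C}, Tow S k b N → t.IsGE N n →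
      ∀ i, i < n → IsZero (H.obj (N⟦i⟧)) := by
  induction k with
  | zero => intro b N h _ i _; exact H.map_isZero (isZero_shift h i)
  | succ k ih =>
    intro b N hN hn i hi
    by_cases hb : b < n
    · have h1 : t.IsLE N b := hN.isLE hS
      exact H.map_isZero (isZero_shift (t.isZero N b n hb) i)
    obtain ⟨N', Z, f, g, h, hT, hN', hZ⟩ := hN
    have a3 : t.IsGE Z b := hS.ge hZ
    have a4 : t.IsGE N' n := isGE1 hT hn (t.isGE_of_ge Z (n - 1) b)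
    exact hz2 H hT i (ih hN' a4 i hi) (hH b Z hZ i (by omega))

end Strip

end Pool.Agent.Q65.TS
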