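import Pool.Agent.Q65.TS.Aff

/-!
# Truncations of finite dimensional objects for a second tensor compatible t-structure
-/

set_option autoImplicit false
set_option linter.unusedSectionVars false
set_option linter.unusedSimpArgs false
set_option backward.isDefEq.respectTransparency false
set_option backward.defeqAttrib.useBackward true

open CategoryTheory Limits MonoidalCategory Pretriangulated Triangulated
open Pool.Agent.Y116.MT Pool.Agent.Y112.KD

namespace Pool.Agent.Q65.TS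

universe v u w

section Clean

variable {C : Type u} [Category.{v} C] [Preadditive C] [HasZeroObject C] [HasShift C ℤ]
  [∀ n : ℤ, (shiftFunctor C n).Additive] [Pretriangulated C]
  {X Y Z : C} {f : X ⟶ Y} {g : Y ⟶ Z} {h : Z ⟶ X⟦(1 : ℤ)⟧}
  (hT : Triangle.mk f g h ∈ distTriang C)

include hT

lemma co2 {A : C} (u : A ⟶ Y) (hu : u ≫ g = 0) : ∃ v : A ⟶ X, u = v ≫ f :=
  Triangle.coyoneda_exact₂ _ hT u hu

lemma yo2 {B : C} (u : Y ⟶ B) (hu : f ≫ u = 0) : ∃ v : Z ⟶ B, u = g ≫ v :=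
  Triangle.yoneda_exact₂ _ hT u hu

lemma co1 {A : C} (u : A ⟶ X) (hu : u ≫ f = 0) :
    ∃ (k : Z⟦(-1 : ℤ)⟧ ⟶ X) (v : A ⟶ Z⟦(-1 : ℤ)⟧), u = v ≫ k := by
  obtain ⟨v, hv⟩ := Triangle.coyoneda_exact₂ _ (inv_rot_of_distTriang _ hT) u hu
  exact ⟨_, v, hv⟩

lemma yo3 {B : C} (u : Z ⟶ B) (hu : g ≫ u = 0) : ∃ v : X⟦(1 : ℤ)⟧ ⟶ B, u = h ≫ v :=
  Triangle.yoneda_exact₃ _ hT u hu

end Clean

section Def

variable {C : Type u} [Category.{v} C] [Preadditive C] [HasZeroObject C] [HasShift C ℤ]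
  [∀ n : ℤ, (shiftFunctor C n).Additive] [Pretriangulated C] (t : TStructure C)

/-- `H^m(f)` is a monomorphism, for the cohomology of the t-structure. -/
def MonoH (m : ℤ) {X Y : C} (f : X ⟶ Y) : Prop :=
  ∀ A : C, t.IsLE A m → ∀ x : A ⟶ X, (∀ B : C, t.IsGE B m → ∀ b : Y ⟶ B, x ≫ f ≫ b = 0) →
    ∀ B : C, t.IsGE B m → ∀ b : X ⟶ B, x ≫ b = 0

/-- `H^m(g)` is an epimorphism, for the cohomology of the t-structure. -/
def EpiH (m : ℤ) {X Y : C} (g : X ⟶ Y) : Prop :=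
  ∀ B : C, t.IsGE B m → ∀ y : Y ⟶ B, (∀ A : C, t.IsLE A m → ∀ a : A ⟶ X, a ≫ g ≫ y = 0) →
    ∀ A : C, t.IsLE A m → ∀ a : A ⟶ Y, a ≫ y = 0

variable {t}

lemma MonoH.comp {m : ℤ} {X Y Z : C} {f : X ⟶ Y} {g : Y ⟶ Z} (hf : MonoH t m f)
    (hg : MonoH t m g) : MonoH t m (f ≫ g) := by
  intro A hA x hx
  refine hf A hA x fun B hB b => ?_
  have h1 := hg A hA (x ≫ f) (fun B hB b => by
    have := hx B hB b
    simpa using this) B hB b
  simpa using h1

lemma MonoH.of_comp {m : ℤ} {X Y Z : C} {f : X ⟶ Y} {g : Y ⟶ Z} (h : MonoH t m (f ≫ g)) :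
    MonoH t m f := by
  intro A hA x hx
  refine h A hA x fun B hB b => ?_
  have := hx B hB (g ≫ b)
  simpa using this

lemma EpiH.comp {m : ℤ} {X Y Z : C} {f : X ⟶ Y} {g : Y ⟶ Z} (hf : EpiH t m f)
    (hg : EpiH t m g) : EpiH t m (f ≫ g) := by
  intro B hB y hy
  refine hg B hB y fun A hA a => ?_
  have h1 := hf B hB (g ≫ y) (fun A hA a => by
    have := hy A hA a
    simpa using this) A hA a
  simpa using h1

lemma EpiH.of_comp {m : ℤ} {X Y Z : C} {f : X ⟶ Y} {g : Y ⟶ Z} (h : EpiH t m (f ≫ g)) :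
    EpiH t m g := by
  intro B hB y hy
  refine h B hB y fun A hA a => ?_
  have := hy A hA (a ≫ f)
  simpa using this

lemma monoH_iso {m : ℤ} {X Y : C} (f : X ⟶ Y) [IsIso f] : MonoH t m f := by
  intro A hA x hx B hB b
  have := hx B hB (inv f ≫ b)
  simpa using this

lemma epiH_iso {m : ℤ} {X Y : C} (f : X ⟶ Y) [IsIso f] : EpiH t m f := by
  intro B hB y hy A hA a
  have := hy A hA (a ≫ inv f)
  simpa using this

variable {X Y Z : C} {f : X ⟶ Y} {g : Y ⟶ Z} {h : Z ⟶ X⟦(1 : ℤ)⟧}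
  (hT : Triangle.mk f g h ∈ distTriang C) {m : ℤ}

include hT

lemma monoH_of_cofiber (hZ : t.IsGE Z m) : MonoH t m f := by
  intro A hA x hx B hB b
  obtain ⟨Y1, Y2, h1, h2, i, p, d, hY⟩ := t.exists_triangle Y (m - 1) m (by omega)
  have h1' : t.IsLE Y1 (m - 1) := ⟨h1⟩
  have h2' : t.IsGE Y2 m := ⟨h2⟩
  have e1 : (x ≫ f) ≫ p = 0 := by
    have := hx Y2 h2' p
    simpa using this
  obtain ⟨y, hy⟩ := co2 hY (x ≫ f) e1
  have e2 : i ≫ g = 0 := t.zero_of_isLE_of_isGE _ (m - 1) m (by omega) h1' hZ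
  obtain ⟨i', hi'⟩ := co2 hT i e2
  have e3 : (x - y ≫ i') ≫ f = 0 := by
    rw [Preadditive.sub_comp, Category.assoc, hy, ← hi', sub_self]
  obtain ⟨k, w, hw⟩ := co1 hT (x - y ≫ i') e3
  have e4 : t.IsGE (Z⟦(-1 : ℤ)⟧) (m + 1) := t.isGE_shift Z m (-1) (m + 1)
  have e5 : w = 0 := t.zero_of_isLE_of_isGE _ m (m + 1) (by omega) hA e4
  have e6 : x = y ≫ i' := by
    rw [e5, zero_comp] at hw
    exact sub_eq_zero.1 hw
  have e7 : i' ≫ b = 0 := t.zero_of_isLE_of_isGE _ (m - 1) m (by omega) h1' hB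
  rw [e6, Category.assoc, e7, comp_zero]

lemma monoH_of_fiber (hX : t.IsLE X (m - 1)) : MonoH t m g := by
  intro A hA x hx B hB b
  have e1 : f ≫ b = 0 := t.zero_of_isLE_of_isGE _ (m - 1) m (by omega) hX hB
  obtain ⟨b', hb'⟩ := yo2 hT b e1
  rw [hb']
  exact hx B hB b'

lemma epiH_of_fiber (hX : t.IsLE X m) : EpiH t m g := by
  intro B hB y hy A hA a
  obtain ⟨Y1, Y2, h1, h2, i, p, d, hY⟩ := t.exists_triangle Y m (m + 1) (by omega)
  have h1' : t.IsLE Y1 m := ⟨h1⟩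
  have h2' : t.IsGE Y2 (m + 1) := ⟨h2⟩
  have e1 : i ≫ (g ≫ y) = 0 := hy Y1 h1' i
  obtain ⟨z, hz⟩ := yo2 hY (g ≫ y) e1
  have e2 : f ≫ p = 0 := t.zero_of_isLE_of_isGE _ m (m + 1) (by omega) hX h2'
  obtain ⟨p', hp'⟩ := yo2 hT p e2
  have e3 : g ≫ (y - p' ≫ z) = 0 := by
    rw [Preadditive.comp_sub, hz, ← Category.assoc, ← hp', sub_self]
  obtain ⟨w, hw⟩ := yo3 hT (y - p' ≫ z) e3
  have e4 : t.IsLE (X⟦(1 : ℤ)⟧) (m - 1) := t.isLE_shift X m 1 (m - 1)
  have e5 : w = 0 := t.zero_of_isLE_of_isGE _ (m - 1) m (by omega) e4 hB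
  have e6 : y = p' ≫ z := by
    rw [e5, comp_zero] at hw
    exact sub_eq_zero.1 hw
  have e7 : a ≫ p' = 0 := t.zero_of_isLE_of_isGE _ m (m + 1) (by omega) hA h2'
  rw [e6, ← Category.assoc, e7, zero_comp]

lemma epiH_of_cofiber (hZ : t.IsGE Z (m + 1)) : EpiH t m f := by
  intro B hB y hy A hA a
  have e1 : a ≫ g = 0 := t.zero_of_isLE_of_isGE _ m (m + 1) (by omega) hA hZ
  obtain ⟨a', ha'⟩ := co2 hT a e1
  rw [ha', Category.assoc]
  exact hy A hA a'

end Def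

section Tensor

variable {C : Type u} [Category.{v} C] [Preadditive C] [HasZeroObject C] [HasShift C ℤ]
  [∀ n : ℤ, (shiftFunctor C n).Additive] [Pretriangulated C]
  [MonoidalCategory C] [SymmetricCategory C] [TensorTriangulated C] [MonoidalPreadditive C]
  {t : TStructure C} (ht : TensorCompat t)

/-- universal monomorphisms on the cohomology -/
def UMono (t : TStructure C) {X Y : C} (f : X ⟶ Y) : Prop := ∀ (m : ℤ) (W : C), MonoH t m (f ▷ W)

/-- universal epimorphisms on the cohomology -/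
def UEpi (t : TStructure C) {X Y : C} (f : X ⟶ Y) : Prop := ∀ (m : ℤ) (W : C), EpiH t m (f ▷ W)

lemma UMono.comp {X Y Z : C} {f : X ⟶ Y} {g : Y ⟶ Z} (hf : UMono t f) (hg : UMono t g) :
    UMono t (f ≫ g) := fun m W => by
  rw [comp_whiskerRight]
  exact (hf m W).comp (hg m W)

lemma UEpi.comp {X Y Z : C} {f : X ⟶ Y} {g : Y ⟶ Z} (hf : UEpi t f) (hg : UEpi t g) :
    UEpi t (f ≫ g) := fun m W => by
  rw [comp_whiskerRight]
  exact (hf m W).comp (hg m W)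

lemma UMono.whisker {X Y : C} {f : X ⟶ Y} (hf : UMono t f) (V : C) : UMono t (f ▷ V) :=
  fun m W => by
  have h1 : (f ▷ V) ▷ W = (α_ X V W).hom ≫ f ▷ (V ⊗ W) ≫ (α_ Y V W).inv := by simp
  rw [h1]
  exact (monoH_iso _).comp ((hf m (V ⊗ W)).comp (monoH_iso _))

lemma UEpi.whisker {X Y : C} {f : X ⟶ Y} (hf : UEpi t f) (V : C) : UEpi t (f ▷ V) :=
  fun m W => by
  have h1 : (f ▷ V) ▷ W = (α_ X V W).hom ≫ f ▷ (V ⊗ W) ≫ (α_ Y V W).inv := by simp
  rw [h1]
  exact (epiH_iso _).comp ((hf m (V ⊗ W)).comp (epiH_iso _))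

lemma umono_iso {X Y : C} (f : X ⟶ Y) [IsIso f] : UMono t f := fun _ _ => monoH_iso _

lemma uepi_iso {X Y : C} (f : X ⟶ Y) [IsIso f] : UEpi t f := fun _ _ => epiH_iso _

lemma UMono.whiskerL {X Y : C} {f : X ⟶ Y} (hf : UMono t f) (V : C) : UMono t (V ◁ f) := by
  have h1 : V ◁ f = (β_ V X).hom ≫ f ▷ V ≫ (β_ V Y).inv := by simp
  rw [h1]
  exact (umono_iso _).comp ((hf.whisker V).comp (umono_iso _))

lemma UEpi.whiskerL {X Y : C} {f : X ⟶ Y} (hf : UEpi t f) (V : C) : UEpi t (V ◁ f) := by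
  have h1 : V ◁ f = (β_ V X).hom ≫ f ▷ V ≫ (β_ V Y).inv := by simp
  rw [h1]
  exact (uepi_iso _).comp ((hf.whisker V).comp (uepi_iso _))

variable {P M Q : C} {f : P ⟶ M} {g : M ⟶ Q} {h : Q ⟶ P⟦(1 : ℤ)⟧}
  (hT : Triangle.mk f g h ∈ distTriang C) {i : ℤ} (hP : t.IsLE P i) (hQ : t.IsGE Q (i + 1))

include ht hT hP hQ

lemma umono_trunc : UMono t f := by
  intro m W
  obtain ⟨W1, W2, h1, h2, a, w, d, hW⟩ := t.exists_triangle W (m - i - 1) (m - i) (by omega)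
  have h1' : t.IsLE W1 (m - i - 1) := ⟨h1⟩
  have h2' : t.IsGE W2 (m - i) := ⟨h2⟩
  have b1 : t.IsLE (P ⊗ W1) (m - 1) := by
    have := ht.isLE hP h1'
    rwa [show i + (m - i - 1) = m - 1 by ring] at this
  have b2 : t.IsGE (Q ⊗ W2) m := by
    have := ht.isGE hQ h2'
    rw [show i + 1 + (m - i) = m + 1 by ring] at this
    exact t.isGE_of_ge _ m (m + 1) (by omega)
  have c1 : MonoH t m (P ◁ w) := monoH_of_fiber (tensor_dist P hW) b1
  obtain ⟨d', hd'⟩ := tensor_dist_r W2 hT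
  have c2 : MonoH t m (f ▷ W2) := monoH_of_cofiber hd' b2
  have c3 := c1.comp c2
  rw [whisker_exchange] at c3
  exact c3.of_comp

lemma uepi_trunc : UEpi t g := by
  intro m W
  obtain ⟨W1, W2, h1, h2, a, w, d, hW⟩ := t.exists_triangle W (m - i) (m - i + 1) (by omega)
  have h1' : t.IsLE W1 (m - i) := ⟨h1⟩
  have h2' : t.IsGE W2 (m - i + 1) := ⟨h2⟩
  have b1 : t.IsLE (P ⊗ W1) m := by
    have := ht.isLE hP h1'
    rwa [show i + (m - i) = m by ring] at this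
  have b2 : t.IsGE (Q ⊗ W2) (m + 1) := by
    have := ht.isGE hQ h2'
    rw [show i + 1 + (m - i + 1) = m + 1 + 1 by ring] at this
    exact t.isGE_of_ge _ (m + 1) (m + 1 + 1) (by omega)
  obtain ⟨d', hd'⟩ := tensor_dist_r W1 hT
  have c1 : EpiH t m (g ▷ W1) := epiH_of_fiber hd' b1
  have c2 : EpiH t m (Q ◁ a) := epiH_of_cofiber (tensor_dist Q hW) b2
  have c3 := c1.comp c2
  rw [← whisker_exchange] at c3
  exact c3.of_comp

lemma umono_tpm (n : ℕ) : UMono t (tpm f n) := by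
  induction n with
  | zero => exact umono_iso (𝟙 (𝟙_ C))
  | succ n ih =>
    have h1 : tpm f (n + 1) = (tpm f n ▷ P) ≫ (tp M n ◁ f) := MonoidalCategory.tensorHom_def _ _
    rw [h1]
    exact (ih.whisker P).comp ((umono_trunc ht hT hP hQ).whiskerL _)

lemma uepi_tpm (n : ℕ) : UEpi t (tpm g n) := by
  induction n with
  | zero => exact uepi_iso (𝟙 (𝟙_ C))
  | succ n ih =>
    have h1 : tpm g (n + 1) = (tpm g n ▷ M) ≫ (tp Q n ◁ g) := MonoidalCategory.tensorHom_def _ _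
    rw [h1]
    exact (ih.whisker M).comp ((uepi_trunc ht hT hP hQ).whiskerL _)

end Tensor

section Ghost

variable {C : Type u} [Category.{v} C] [Preadditive C] [HasZeroObject C] [HasShift C ℤ]
  [∀ n : ℤ, (shiftFunctor C n).Additive] [Pretriangulated C] {t : TStructure C}

/-- ghosts: morphisms which are zero on the cohomology of the t-structure -/
def Ghost (t : TStructure C) {X Y : C} (e : X ⟶ Y) : Prop :=
  ∀ (m : ℤ) (A B : C), t.IsLE A m → t.IsGE B m → ∀ (a : A ⟶ X) (b : Y ⟶ B), a ≫ e ≫ b = 0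

lemma isLE_retract' {X Y : C} {n : ℤ} (hX : t.IsLE X n) (i : Y ⟶ X) (r : X ⟶ Y)
    (hir : i ≫ r = 𝟙 _) : t.IsLE Y n := by
  rw [t.isLE_iff_orthogonal n (n + 1) rfl]
  intro Z f hZ
  have h1 : r ≫ f = 0 := t.zero_of_isLE_of_isGE _ n (n + 1) (by omega) hX hZ
  rw [← Category.id_comp f, ← hir, Category.assoc, h1, comp_zero]

lemma ghost_le {Y : C} (h : Ghost t (𝟙 Y)) (n : ℕ) : ∀ (k : ℤ) {P Q : C} {i : P ⟶ Y} {p : Y ⟶ Q}
    {d : Q ⟶ P⟦(1 : ℤ)⟧}, Triangle.mk i p d ∈ distTriang C → t.IsLE P k → t.IsGE Q (k + 1) →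
    t.IsLE P (k - n) := by
  induction n with
  | zero => intro k P Q i p d _ hP _; simpa using hP
  | succ n ih =>
    intro k P Q i p d hT hP hQ
    obtain ⟨P', Q', h1, h2, i', p', d', hT'⟩ := t.exists_triangle Y (k - 1) k (by omega)
    have h1' : t.IsLE P' (k - 1) := ⟨h1⟩
    have h2' : t.IsGE Q' k := ⟨h2⟩
    have h2'' : t.IsGE Q' (k - 1 + 1) := by simpa using h2'
    have h3 := ih (k - 1) hT' h1' h2''
    have e1 : i ≫ p' = 0 := by
      have := h k P Q' hP h2' i p'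
      simpa using this
    obtain ⟨x, hx'⟩ := co2 hT' i e1
    have e2 : i' ≫ p = 0 := t.zero_of_isLE_of_isGE _ (k - 1) (k + 1) (by omega) h1' hQ
    obtain ⟨y, hy'⟩ := co2 hT i' e2
    have e3 : (x ≫ y - 𝟙 P) ≫ i = 0 := by
      rw [Preadditive.sub_comp, Category.assoc, ← hy', ← hx', Category.id_comp, sub_self]
    obtain ⟨kk, w, hw⟩ := co1 hT _ e3
    have e4 : t.IsGE (Q⟦(-1 : ℤ)⟧) (k + 2) := t.isGE_shift Q (k + 1) (-1) (k + 2)
    have e5 : w = 0 := t.zero_of_isLE_of_isGE _ k (k + 2) (by omega) hP e4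
    have e6 : x ≫ y = 𝟙 P := by
      rw [e5, zero_comp] at hw
      exact sub_eq_zero.1 hw
    have e7 := isLE_retract' h3 x y e6
    push_cast
    rwa [show k - (n + 1 : ℤ) = k - 1 - n by ring]

lemma ghost_id_zero (hle : ∀ X : C, (∀ n : ℤ, t.le n X) → IsZero X)
    (hge : ∀ X : C, (∀ n : ℤ, t.ge n X) → IsZero X) {Y : C} (h : Ghost t (𝟙 Y)) : IsZero Y := by
  apply hge
  intro k
  obtain ⟨P, Q, h1, h2, i, p, d, hT⟩ := t.exists_triangle Y (k - 1) k (by omega)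
  have h1' : t.IsLE P (k - 1) := ⟨h1⟩
  have h2' : t.IsGE Q k := ⟨h2⟩
  have hP : IsZero P := by
    apply hle
    intro n
    by_cases hn : k - 1 ≤ n
    · exact (t.isLE_of_le P (k - 1) n hn).le
    · have h3 := ghost_le h (k - 1 - n).toNat (k - 1) hT h1' (by simpa using h2')
      have h4 : k - 1 - ((k - 1 - n).toNat : ℤ) = n := by omega
      rw [h4] at h3
      exact h3.le
  have h6 := isIso2_of_isZero1 hT hP
  exact (@TStructure.isGE_of_iso _ _ _ _ _ _ _ t _ _ (asIso p).symm _ h2').ge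

lemma ghost_idem_zero [IsIdempotentComplete C]
    (hle : ∀ X : C, (∀ n : ℤ, t.le n X) → IsZero X)
    (hge : ∀ X : C, (∀ n : ℤ, t.ge n X) → IsZero X) {X : C} {e : X ⟶ X} (he : e ≫ e = e)
    (h : Ghost t e) : e = 0 := by
  obtain ⟨Y, i, r, h1, h2⟩ := IsIdempotentComplete.idempotents_split X e he
  have hY : IsZero Y := by
    apply ghost_id_zero hle hge
    intro m A B hA hB a b
    have h3 := h m A B hA hB (a ≫ i) (r ≫ b)
    rw [← h2] at h3
    have h4 : (a ≫ i) ≫ (r ≫ i) ≫ r ≫ b = a ≫ (i ≫ r) ≫ (i ≫ r) ≫ b := by simp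
    rw [h4, h1] at h3
    simpa using h3
  rw [← h2, hY.eq_of_tgt r 0, zero_comp]

end Ghost

section Trunc

variable {C : Type u} [Category.{v} C] [Preadditive C] [HasZeroObject C] [HasShift C ℤ]
  [∀ n : ℤ, (shiftFunctor C n).Additive] [Pretriangulated C]
  [MonoidalCategory C] [SymmetricCategory C] [TensorTriangulated C] [MonoidalPreadditive C]
  [Linear ℚ C] [MonoidalLinear ℚ C] [IsIdempotentComplete C]
  {t : TStructure C} (ht : TensorCompat t)
  (hle : ∀ X : C, (∀ n : ℤ, t.le n X) → IsZero X)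
  (hge : ∀ X : C, (∀ n : ℤ, t.ge n X) → IsZero X)
  {P M Q : C} {f : P ⟶ M} {g : M ⟶ Q} {h : Q ⟶ P⟦(1 : ℤ)⟧}
  (hT : Triangle.mk f g h ∈ distTriang C) {i : ℤ} (hP : t.IsLE P i) (hQ : t.IsGE Q (i + 1))

include ht hle hge hT hP hQ

/-- The truncations of an object with a vanishing exterior power have this property, too. -/
lemma asym_trunc {n : ℕ} (hn : asym (-1 : ℚ) M n = 0) :
    asym (-1 : ℚ) P n = 0 ∧ asym (-1 : ℚ) Q n = 0 := by
  constructor
  · refine ghost_idem_zero hle hge (asym_idem (by norm_num) _ _) ?_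
    intro m A B hA hB a b
    have h1 := asym_nat (η := (-1 : ℚ)) f n
    rw [hn, comp_zero] at h1
    have h2 := umono_tpm ht hT hP hQ n m (𝟙_ C) A hA (a ≫ asym (-1 : ℚ) P n ≫ (ρ_ _).inv)
      (fun B hB b => by
        simp only [Category.assoc]
        rw [← rightUnitor_inv_naturality_assoc, ← reassoc_of% h1, zero_comp, comp_zero]) B hB
      ((ρ_ _).hom ≫ b)
    simpa using h2
  · refine ghost_idem_zero hle hge (asym_idem (by norm_num) _ _) ?_
    intro m A B hA hB a b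
    have h1 := asym_nat (η := (-1 : ℚ)) g n
    rw [hn, zero_comp] at h1
    have h2 := uepi_tpm ht hT hP hQ n m (𝟙_ C) B hB ((ρ_ _).hom ≫ asym (-1 : ℚ) Q n ≫ b)
      (fun A hA a => by
        rw [rightUnitor_naturality_assoc, reassoc_of% h1, zero_comp, comp_zero, comp_zero]) A hA
      (a ≫ (ρ_ _).inv)
    simpa using h2

end Trunc

end Pool.Agent.Q65.TS
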