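import Pool.Agent.Q65.TS.Uni

/-!
# All tensor compatible t-structures, if there is a motivic one
-/

set_option autoImplicit false
set_option linter.unusedSectionVars false
set_option linter.unusedSimpArgs false
set_option backward.isDefEq.respectTransparency false
set_option backward.defeqAttrib.useBackward true

open CategoryTheory Limits MonoidalCategory Pretriangulated Triangulated
open Pool.Agent.Y116.MT Pool.Agent.Y112.KD

namespace Pool.Agent.Q65.TS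

universe v u w

section Def

variable {C : Type u} [Category.{v} C] [Preadditive C] [HasZeroObject C] [HasShift C ℤ]
  [∀ n : ℤ, (shiftFunctor C n).Additive] [Pretriangulated C]

/-- Simple objects of the heart of a t-structure. -/
structure SimpleHeart (t : TStructure C) (S : C) : Prop where
  le : t.le 0 S
  ge : t.ge 0 S
  ne : ¬ IsZero S
  simple {P Q : C} {f : P ⟶ S} {g : S ⟶ Q} {h : Q ⟶ P⟦(1 : ℤ)⟧}
    (hT : Triangle.mk f g h ∈ distTriang C) (hP : t.le 0 P) (hP' : t.ge 0 P) (hQ : t.le 0 Q)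
    (hQ' : t.ge 0 Q) : IsZero P ∨ IsZero Q

variable [MonoidalCategory C]

/-- A non-degenerate t-structure compatible with the tensor product. -/
structure IsTensor (t : TStructure C) : Prop where
  nondeg_le (X : C) : (∀ n : ℤ, t.le n X) → IsZero X
  nondeg_ge (X : C) : (∀ n : ℤ, t.ge n X) → IsZero X
  tensor_le (X Y : C) : t.le 0 X → t.le 0 Y → t.le 0 (X ⊗ Y)
  tensor_ge (X Y : C) : t.ge 0 X → t.ge 0 Y → t.ge 0 (X ⊗ Y)

/-- The tensor powers of an object. -/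
def tpow (X : C) : ℕ → C
  | 0 => 𝟙_ C
  | n + 1 => tpow X n ⊗ X

/-- `T` is the `n`-th power of `L`, where `n` is an integer. -/
def IsPower (L : C) (n : ℤ) (T : C) : Prop :=
  ∃ k : ℕ, (n = k ∧ Nonempty (T ≅ tpow L k)) ∨ (n = -k ∧ Nonempty (T ⊗ tpow L k ≅ 𝟙_ C))

/-- The `n`-th power of `L`, a non-zero object, is a direct summand of the `p`-th tensor power of
`S`. -/
def HasPower (L S : C) (p : ℕ) (n : ℤ) : Prop :=
  ∃ (T : C) (i : T ⟶ tpow S p) (r : tpow S p ⟶ T), ¬ IsZero T ∧ IsPower L n T ∧ i ≫ r = 𝟙 T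

end Def

section Induction

variable {C : Type u} [Category.{v} C] [Preadditive C] [HasZeroObject C] [HasShift C ℤ]
  [∀ n : ℤ, (shiftFunctor C n).Additive] [Pretriangulated C]
  [MonoidalCategory C] [SymmetricCategory C] [TensorTriangulated C] [MonoidalPreadditive C]
  [RightRigidCategory C] [IsTriangulated C]
  {E : Type w} [Field E] {R : Realisation C E} {t₀ : TStructure C} (ht : TensorCompat t₀)
  (he : TExact t₀ R) (hu : Hrt t₀ (𝟙_ C))
  (hid : ∀ e : 𝟙_ C ⟶ 𝟙_ C, e ≫ e = e → e = 0 ∨ e = 𝟙 _)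

include ht he hu hid

/-- Objects of the heart have finite length. -/
theorem heart_induction (Pr : C → Prop) (h0 : ∀ X, IsZero X → Pr X)
    (h1 : ∀ S, SimpleHeart t₀ S → Pr S)
    (h2 : ∀ (X Y Z : C) (f : X ⟶ Y) (g : Y ⟶ Z) (h : Z ⟶ X⟦(1 : ℤ)⟧),
      Triangle.mk f g h ∈ distTriang C → Pr X → Pr Z → Pr Y) :
    ∀ (n : ℕ) (M : C), Hrt t₀ M → Module.finrank E (R.H.obj M) ≤ n → Pr M := by
  intro n
  induction n with
  | zero =>
    intro M hM hn
    apply h0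
    apply heart_zero ht he hu hid hM
    rw [ModuleCat.isZero_iff_subsingleton]
    exact (Module.finrank_zero_iff (R := E)).1 (by omega)
  | succ n ih =>
    intro M hM hn
    by_cases hz : IsZero M
    · exact h0 M hz
    by_cases hs : SimpleHeart t₀ M
    · exact h1 M hs
    have h3 : ∃ (P Q : C) (f : P ⟶ M) (g : M ⟶ Q) (h : Q ⟶ P⟦(1 : ℤ)⟧),
        Triangle.mk f g h ∈ distTriang C ∧ Hrt t₀ P ∧ Hrt t₀ Q ∧ ¬ IsZero P ∧ ¬ IsZero Q := by
      by_contra hcon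
      apply hs
      refine ⟨hM.1.le, hM.2.ge, hz, ?_⟩
      intro P Q f g h hT a1 a2 a3 a4
      by_contra hc
      push Not at hc
      exact hcon ⟨P, Q, f, g, h, hT, ⟨⟨a1⟩, ⟨a2⟩⟩, ⟨⟨a3⟩, ⟨a4⟩⟩, hc.1, hc.2⟩
    obtain ⟨P, Q, f, g, h, hT, hP, hQ, hPz, hQz⟩ := h3
    have e0 : ∀ X : C, IsIso (R.H.map ((shiftFunctorZero C ℤ).hom.app X)) := fun X =>
      inferInstance
    have m0 : Mono (R.H.map (f⟦(0 : ℤ)⟧')) := hmono1 R.H hT 0 (he.isGE hQ.2 (0 - 1) (by omega))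
    have p0 : Epi (R.H.map (g⟦(0 : ℤ)⟧')) := hepi2 R.H hT 0 (he.isLE hP.1 (0 + 1) (by omega))
    have n1 : R.H.map (f⟦(0 : ℤ)⟧') ≫ R.H.map ((shiftFunctorZero C ℤ).hom.app M) =
        R.H.map ((shiftFunctorZero C ℤ).hom.app P) ≫ R.H.map f := by
      rw [← Functor.map_comp, ← Functor.map_comp, (shiftFunctorZero C ℤ).hom.naturality]
      rfl
    have n2 : R.H.map (g⟦(0 : ℤ)⟧') ≫ R.H.map ((shiftFunctorZero C ℤ).hom.app Q) =
        R.H.map ((shiftFunctorZero C ℤ).hom.app M) ≫ R.H.map g := by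
      rw [← Functor.map_comp, ← Functor.map_comp, (shiftFunctorZero C ℤ).hom.naturality]
      rfl
    have m1 : Mono (R.H.map f) := by
      have h4 : R.H.map f = inv (R.H.map ((shiftFunctorZero C ℤ).hom.app P)) ≫
        R.H.map (f⟦(0 : ℤ)⟧') ≫ R.H.map ((shiftFunctorZero C ℤ).hom.app M) := by
        rw [n1, IsIso.inv_hom_id_assoc]
      rw [h4]
      infer_instance
    have p1 : Epi (R.H.map g) := by
      have h4 : R.H.map g = inv (R.H.map ((shiftFunctorZero C ℤ).hom.app M)) ≫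
        R.H.map (g⟦(0 : ℤ)⟧') ≫ R.H.map ((shiftFunctorZero C ℤ).hom.app Q) := by
        rw [n2, IsIso.inv_hom_id_assoc]
      rw [h4]
      infer_instance
    have i1 : Function.Injective (R.H.map f).hom := (ModuleCat.mono_iff_injective _).1 m1
    have s1 : Function.Surjective (R.H.map g).hom := (ModuleCat.epi_iff_surjective _).1 p1
    have fg : (R.H.map g).hom ∘ₗ (R.H.map f).hom = 0 := by
      have h5 : f ≫ g = 0 := comp_distTriang_mor_zero₁₂ _ hT
      have h6 : R.H.map f ≫ R.H.map g = 0 := by rw [← Functor.map_comp, h5, Functor.map_zero]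
      exact congrArg ModuleCat.Hom.hom h6
    have hPn : ¬ Subsingleton (R.H.obj P) := fun hs =>
      hPz (heart_zero ht he hu hid hP (ModuleCat.isZero_iff_subsingleton.2 hs))
    have hQn : ¬ Subsingleton (R.H.obj Q) := fun hs =>
      hQz (heart_zero ht he hu hid hQ (ModuleCat.isZero_iff_subsingleton.2 hs))
    have d1 : Module.finrank E (R.H.obj P) < Module.finrank E (R.H.obj M) := by
      refine lt_of_le_of_ne (LinearMap.finrank_le_finrank_of_injective i1) fun hd => hQn ?_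
      have s2 : Function.Surjective (R.H.map f).hom :=
        (LinearMap.injective_iff_surjective_of_finrank_eq_finrank hd).1 i1
      constructor
      intro x y
      obtain ⟨x', rfl⟩ := s1 x
      obtain ⟨y', rfl⟩ := s1 y
      obtain ⟨x'', rfl⟩ := s2 x'
      obtain ⟨y'', rfl⟩ := s2 y'
      have q1 : (R.H.map g).hom ((R.H.map f).hom x'') = 0 := LinearMap.congr_fun fg x''
      have q2 : (R.H.map g).hom ((R.H.map f).hom y'') = 0 := LinearMap.congr_fun fg y''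
      rw [q1, q2]
    have d2 : Module.finrank E (R.H.obj Q) < Module.finrank E (R.H.obj M) := by
      refine lt_of_le_of_ne (LinearMap.finrank_le_finrank_of_surjective s1) fun hd => hPn ?_
      have i2 : Function.Injective (R.H.map g).hom :=
        (LinearMap.injective_iff_surjective_of_finrank_eq_finrank hd.symm).2 s1
      constructor
      intro x y
      apply i1
      apply i2
      have q1 : (R.H.map g).hom ((R.H.map f).hom x) = 0 := LinearMap.congr_fun fg x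
      have q2 : (R.H.map g).hom ((R.H.map f).hom y) = 0 := LinearMap.congr_fun fg y
      rw [q1, q2]
    exact h2 P M Q f g h hT (ih P hP (by omega)) (ih Q hQ (by omega))

end Induction

section Main

variable {C : Type u} [Category.{v} C] [Preadditive C] [HasZeroObject C] [HasShift C ℤ]
  [∀ n : ℤ, (shiftFunctor C n).Additive] [Pretriangulated C] [IsTriangulated C]
  [MonoidalCategory C] [SymmetricCategory C] [TensorTriangulated C] [MonoidalPreadditive C]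
  [Linear ℚ C] [MonoidalLinear ℚ C] [RightRigidCategory C] [IsIdempotentComplete C]
  {E : Type w} [Field E] [CharZero E] {R : Realisation C E} {t₀ t : TStructure C}

omit [IsTriangulated C] [Linear ℚ C] [MonoidalLinear ℚ C] [IsIdempotentComplete C] in
lemma not_both {t : TStructure C} {X : C} (hX : ¬ IsZero X) {a b : ℤ} (h1 : t.IsLE X a)
    (h2 : t.IsGE X b) : b ≤ a := by
  by_contra h
  exact hX (t.isZero X a b (by omega))

/-- truncations of objects of the heart -/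
theorem trunc_heart (hq : ∀ e : 𝟙_ C ⟶ 𝟙_ C, ∃ q : ℚ, e = q • 𝟙 _)
    (h₀ : IsMotivic t₀ (fun _ : Unit => R)) (h : IsTensor t) {M P Q : C} {f : P ⟶ M} {g : M ⟶ Q}
    {d : Q ⟶ P⟦(1 : ℤ)⟧} (hT : Triangle.mk f g d ∈ distTriang C) (hM : Hrt t₀ M) {i : ℤ}
    (hP : t.IsLE P i) (hQ : t.IsGE Q (i + 1)) : Hrt t₀ P ∧ Hrt t₀ Q := by
  have hid := idem_of_rat hq
  have ht₀ : TensorCompat t₀ := ⟨h₀.tensor_le, h₀.tensor_ge⟩
  have he : TExact t₀ R := ⟨h₀.exact_le (), h₀.exact_ge ()⟩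
  have hu₀ := unit_hrt ht₀ h₀.nondeg_le h₀.nondeg_ge
  have hc : Conservative R := fun X hX => conservative ht₀ he hu₀ hid h₀.nondeg_le
      h₀.nondeg_ge hX
  have ht : TensorCompat t := ⟨h.tensor_le, h.tensor_ge⟩
  have hMd : R.Deg M 0 := he.deg hM
  obtain ⟨n, hn⟩ := asym_zero_of (R := fun _ : Unit => R) (fun X hX => hc X (hX ())) hq
    (fun _ => hMd)
  obtain ⟨h1, h2⟩ := asym_trunc ht h.nondeg_le h.nondeg_ge hT hP hQ hn
  have c1 : ∀ j : ℤ, Odd j → IsZero (R.H.obj (P⟦j⟧)) := fun j hj => odd_zero' h1 hj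
  have c2 : ∀ j : ℤ, Odd j → IsZero (R.H.obj (Q⟦j⟧)) := fun j hj => odd_zero' h2 hj
  have d1 : R.Deg P 0 := by
    intro j hj
    by_cases hj' : Odd j
    · exact c1 j hj'
    · refine hz1 R.H hT j (hMd j hj) (c2 (j - 1) ?_)
      rw [Int.not_odd_iff_even] at hj'
      rcases hj' with ⟨r, hr⟩
      exact ⟨r - 1, by omega⟩
  have d2 : R.Deg Q 0 := by
    intro j hj
    by_cases hj' : Odd j
    · exact c2 j hj'
    · refine hz3 R.H hT j (hMd j hj) (c1 (j + 1) ?_)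
      rw [Int.not_odd_iff_even] at hj'
      rcases hj' with ⟨r, hr⟩
      exact ⟨r, by omega⟩
  exact ⟨⟨(isLE_iff_H he hc P 0).2 fun j hj => d1 j (by omega),
    (isGE_iff_H he hc P 0).2 fun j hj => d1 j (by omega)⟩,
    ⟨(isLE_iff_H he hc Q 0).2 fun j hj => d2 j (by omega),
    (isGE_iff_H he hc Q 0).2 fun j hj => d2 j (by omega)⟩⟩

/-- simple objects are homogeneous -/
theorem simple_homogeneous (hq : ∀ e : 𝟙_ C ⟶ 𝟙_ C, ∃ q : ℚ, e = q • 𝟙 _)
    (h₀ : IsMotivic t₀ (fun _ : Unit => R)) (h : IsTensor t) {S : C}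
    (hS : SimpleHeart t₀ S) : ∃ i : ℤ, t.IsLE S i ∧ t.IsGE S i := by
  have dich : ∀ i : ℤ, t.IsLE S i ∨ t.IsGE S (i + 1) := by
    intro i
    obtain ⟨P, Q, h1, h2, f, g, d, hT⟩ := t.exists_triangle S i (i + 1) rfl
    have h1' : t.IsLE P i := ⟨h1⟩
    have h2' : t.IsGE Q (i + 1) := ⟨h2⟩
    obtain ⟨a1, a2⟩ := trunc_heart hq h₀ h hT ⟨⟨hS.le⟩, ⟨hS.ge⟩⟩ h1' h2'
    rcases hS.simple hT a1.1.le a1.2.ge a2.1.le a2.2.ge with hz | hz
    · right
      have h6 := isIso2_of_isZero1 hT hz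
      exact @TStructure.isGE_of_iso _ _ _ _ _ _ _ t _ _ (asIso g).symm _ h2'
    · left
      have h6 := isIso1_of_isZero3 hT hz
      exact @TStructure.isLE_of_iso _ _ _ _ _ _ _ t _ _ (asIso f) _ h1'
  -- `S` is not in all `le`, nor in all `ge`
  have e1 : ∃ i₁ : ℤ, ¬ t.IsLE S i₁ := by
    by_contra hcon
    push Not at hcon
    exact hS.ne (h.nondeg_le S fun n => (hcon n).le)
  have e2 : ∃ i₂ : ℤ, ¬ t.IsGE S i₂ := by
    by_contra hcon
    push Not at hcon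
    exact hS.ne (h.nondeg_ge S fun n => (hcon n).ge)
  obtain ⟨i₁, hi₁⟩ := e1
  obtain ⟨i₂, hi₂⟩ := e2
  have hl2 : t.IsLE S (i₂ - 1) := by
    rcases dich (i₂ - 1) with h3 | h3
    · exact h3
    · exact absurd (by simpa using h3) hi₂
  have hlt : i₁ < i₂ - 1 := by
    by_contra hcon
    exact hi₁ (t.isLE_of_le S (i₂ - 1) i₁ (by omega))
  -- the least `i` with `S ∈ le i`
  have key : ∀ k : ℕ, ∀ a b : ℤ, b - a = k → ¬ t.IsLE S a → t.IsLE S b →
      ∃ i : ℤ, t.IsLE S i ∧ ¬ t.IsLE S (i - 1) := by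
    intro k
    induction k with
    | zero =>
      intro a b hab ha hb
      have : a = b := by push_cast at hab; omega
      subst this
      exact absurd hb ha
    | succ k ih =>
      intro a b hab ha hb
      by_cases hb' : t.IsLE S (b - 1)
      · exact ih a (b - 1) (by push_cast at hab; omega) ha hb'
      · exact ⟨b, hb, hb'⟩
  obtain ⟨i, h3, h4⟩ := key (i₂ - 1 - i₁).toNat i₁ (i₂ - 1) (by omega) hi₁ hl2
  refine ⟨i, h3, ?_⟩
  rcases dich (i - 1) with h5 | h5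
  · exact absurd h5 h4
  · simpa using h5

omit [IsTriangulated C] [Linear ℚ C] [MonoidalLinear ℚ C] [IsIdempotentComplete C] in
lemma tpow_deg (ht : TensorCompat t) (hu : Hrt t (𝟙_ C)) {X : C} {a : ℤ} (h1 : t.IsLE X a)
    (h2 : t.IsGE X a) (n : ℕ) : t.IsLE (tpow X n) (n * a) ∧ t.IsGE (tpow X n) (n * a) := by
  induction n with
  | zero =>
    rw [Nat.cast_zero, zero_mul]
    exact hu
  | succ n ih =>
    have e : ((n + 1 : ℕ) : ℤ) * a = n * a + a := by push_cast; ring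
    rw [e]
    exact ⟨ht.isLE ih.1 h1, ht.isGE ih.2 h2⟩

omit [IsTriangulated C] [Linear ℚ C] [MonoidalLinear ℚ C] [IsIdempotentComplete C] in
lemma inverse_deg (ht : TensorCompat t) (hu : Hrt t (𝟙_ C)) {T N : C} {a : ℤ}
    (h1 : t.IsLE N a) (h2 : t.IsGE N a) (e : T ⊗ N ≅ 𝟙_ C) :
    t.IsLE T (-a) ∧ t.IsGE T (-a) := by
  have e' : N ⊗ T ≅ 𝟙_ C := β_ N T ≪≫ e
  have hTN1 : t.IsLE (T ⊗ N) 0 := @TStructure.isLE_of_iso _ _ _ _ _ _ _ t _ _ e.symm _ hu.1
  have hTN2 : t.IsGE (T ⊗ N) 0 := @TStructure.isGE_of_iso _ _ _ _ _ _ _ t _ _ e.symm _ hu.2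
  constructor
  · rw [t.isLE_iff_orthogonal (-a) (-a + 1) rfl]
    intro B f hB
    have b1 : t.IsGE (B ⊗ N) 1 := by
      have := ht.isGE hB h2
      rwa [show -a + 1 + a = 1 by ring] at this
    have b2 : f ▷ N = 0 := t.zero_of_isLE_of_isGE _ 0 1 (by omega) hTN1 b1
    have b3 : (0 : T ⟶ B) ▷ N = 0 := (tensorRight N).map_zero _ _
    exact whisker_cancel e' f 0 (by rw [b2, b3])
  · rw [t.isGE_iff_orthogonal (-a - 1) (-a) (by omega)]
    intro A f hA
    have b1 : t.IsLE (A ⊗ N) (-1) := by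
      have := ht.isLE hA h1
      rwa [show -a - 1 + a = -1 by ring] at this
    have b2 : f ▷ N = 0 := t.zero_of_isLE_of_isGE _ (-1) 0 (by omega) b1 hTN2
    have b3 : (0 : A ⟶ T) ▷ N = 0 := (tensorRight N).map_zero _ _
    exact whisker_cancel e' f 0 (by rw [b2, b3])

omit [IsTriangulated C] [Linear ℚ C] [MonoidalLinear ℚ C] [IsIdempotentComplete C] in
lemma power_deg (ht : TensorCompat t) (hu : Hrt t (𝟙_ C)) {L T : C} {m n : ℤ}
    (h1 : t.IsLE L m) (h2 : t.IsGE L m) (hT : IsPower L n T) :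
    t.IsLE T (n * m) ∧ t.IsGE T (n * m) := by
  obtain ⟨k, ⟨rfl, ⟨e⟩⟩ | ⟨rfl, ⟨e⟩⟩⟩ := hT
  · obtain ⟨a1, a2⟩ := tpow_deg ht hu h1 h2 k
    exact ⟨@TStructure.isLE_of_iso _ _ _ _ _ _ _ t _ _ e.symm _ a1,
      @TStructure.isGE_of_iso _ _ _ _ _ _ _ t _ _ e.symm _ a2⟩
  · obtain ⟨a1, a2⟩ := tpow_deg ht hu h1 h2 k
    rw [neg_mul]
    exact inverse_deg ht hu a1 a2 e

omit [IsTriangulated C] [Linear ℚ C] [MonoidalLinear ℚ C] [IsIdempotentComplete C] in
/-- the formula for the degree -/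
lemma deg_formula (h : IsTensor t) {L S : C} {m i : ℤ}
    (h1 : t.IsLE L m) (h2 : t.IsGE L m) (h3 : t.IsLE S i) (h4 : t.IsGE S i) {p : ℕ} {n : ℤ}
    (hp : HasPower L S p n) : p * i = n * m := by
  have ht : TensorCompat t := ⟨h.tensor_le, h.tensor_ge⟩
  have hu := unit_hrt ht h.nondeg_le h.nondeg_ge
  obtain ⟨T, a, r, hTz, hT, har⟩ := hp
  obtain ⟨b1, b2⟩ := power_deg ht hu h1 h2 hT
  obtain ⟨c1, c2⟩ := tpow_deg ht hu h3 h4 p
  have d1 := isLE_retract c1 a r har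
  have d2 := isGE_retract c2 a r har
  have e1 := not_both hTz b1 d2
  have e2 := not_both hTz d1 b2
  omega

/-- Two t-structures one of which is bounded are equal if the heart of the bounded one is contained
in the heart of the other. -/
lemma eq_of_heart (hb : ∀ X : C, ∃ N : ℕ, t₀.IsLE X N ∧ t₀.IsGE X (-N))
    (hh : ∀ M, Hrt t₀ M → Hrt t M) : t = t₀ := by
  have key : ∀ (k : ℕ) (X : C) (a b : ℤ), b - a < k → a ≤ b → t₀.IsGE X a → t₀.IsLE X b →
      t.IsGE X a ∧ t.IsLE X b := by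
    intro k
    induction k with
    | zero => intro X a b hab hle _ _; push_cast at hab; omega
    | succ k ih =>
      intro X a b hab hle h1 h2
      obtain ⟨P, Z, hP, hZ, f, g, d, hT⟩ := t₀.exists_triangle X (b - 1) b (by omega)
      have a1 : t₀.IsLE P (b - 1) := ⟨hP⟩
      have a2 : t₀.IsGE Z b := ⟨hZ⟩
      have a3 : t₀.IsLE Z b := isLE3 hT (t₀.isLE_of_le P (b - 1) (b + 1)) h2
      have a4 : t₀.IsGE P a := isGE1 hT h1 (t₀.isGE_of_ge Z (a - 1) b)
      have z0 := hh (Z⟦b⟧) ⟨t₀.isLE_shift Z b b 0, t₀.isGE_shift Z b b 0⟩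
      have z1 : t.IsLE Z b := by
        have := z0.1
        exact t.isLE_of_shift Z b b 0
      have z2 : t.IsGE Z b := by
        have := z0.2
        exact t.isGE_of_shift Z b b 0
      by_cases hab' : a ≤ b - 1
      · obtain ⟨p1, p2⟩ := ih P a (b - 1) (by push_cast at hab; omega) hab' a4 a1
        exact ⟨isGE2 hT p1 (t.isGE_of_ge Z a b hle),
          isLE2 hT (t.isLE_of_le P (b - 1) b (by omega)) z1⟩
      · have : IsZero P := t₀.isZero P (b - 1) a (by omega)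
        exact ⟨isGE2 hT (t.isGE_of_isZero this a) (t.isGE_of_ge Z a b hle),
          isLE2 hT (t.isLE_of_isZero this b) z1⟩
  have kle : ∀ (n : ℤ) (X : C), t₀.IsLE X n → t.IsLE X n := by
    intro n X hX
    obtain ⟨N, h1, h2⟩ := hb X
    by_cases hn : -(N : ℤ) ≤ n
    · exact (key (n + N + 1).toNat X (-N) n (by omega) hn h2 hX).2
    · exact t.isLE_of_isZero (t₀.isZero X n (-N) (by omega)) n
  have kge : ∀ (n : ℤ) (X : C), t₀.IsGE X n → t.IsGE X n := by
    intro n X hX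
    obtain ⟨N, h1, h2⟩ := hb X
    by_cases hn : n ≤ (N : ℤ)
    · exact (key (N - n + 1).toNat X n N (by omega) hn hX h1).1
    · exact t.isGE_of_isZero (t₀.isZero X N n (by omega)) n
  have kle' : ∀ (n : ℤ) (X : C), t.IsLE X n → t₀.IsLE X n := by
    intro n X hX
    obtain ⟨A, B, hA, hB, f, g, d, hT⟩ := t₀.exists_triangle X n (n + 1) rfl
    have a1 : t₀.IsLE A n := ⟨hA⟩
    have a2 : t₀.IsGE B (n + 1) := ⟨hB⟩
    have a3 := kge (n + 1) B a2
    have e1 : g = 0 := t.zero_of_isLE_of_isGE _ n (n + 1) (by omega) hX a3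
    obtain ⟨r, hr⟩ := yo3 hT (𝟙 B) (by rw [e1, zero_comp])
    have a4 : t₀.IsLE (A⟦(1 : ℤ)⟧) (n - 1) := t₀.isLE_shift A n 1 (n - 1)
    have e2 : r = 0 := t₀.zero_of_isLE_of_isGE _ (n - 1) (n + 1) (by omega) a4 a2
    have hBz : IsZero B := by
      rw [IsZero.iff_id_eq_zero, hr, e2, comp_zero]
    have h6 := isIso1_of_isZero3 hT hBz
    exact @TStructure.isLE_of_iso _ _ _ _ _ _ _ t₀ _ _ (asIso f) _ a1
  have kge' : ∀ (n : ℤ) (X : C), t.IsGE X n → t₀.IsGE X n := by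
    intro n X hX
    obtain ⟨A, B, hA, hB, f, g, d, hT⟩ := t₀.exists_triangle X (n - 1) n (by omega)
    have a1 : t₀.IsLE A (n - 1) := ⟨hA⟩
    have a2 : t₀.IsGE B n := ⟨hB⟩
    have a3 := kle (n - 1) A a1
    have e1 : f = 0 := t.zero_of_isLE_of_isGE _ (n - 1) n (by omega) a3 hX
    obtain ⟨k, v, hv⟩ := co1 hT (𝟙 A) (by rw [Category.id_comp, e1])
    have a4 : t₀.IsGE (B⟦(-1 : ℤ)⟧) (n + 1) := t₀.isGE_shift B n (-1) (n + 1)
    have e2 : v = 0 := t₀.zero_of_isLE_of_isGE _ (n - 1) (n + 1) (by omega) a1 a4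
    have hAz : IsZero A := by
      rw [IsZero.iff_id_eq_zero, hv, e2, zero_comp]
    have h6 := isIso2_of_isZero1 hT hAz
    exact @TStructure.isGE_of_iso _ _ _ _ _ _ _ t₀ _ _ (asIso g).symm _ a2
  apply tstr_ext
  · funext n X
    exact propext ⟨fun h => (kle' n X ⟨h⟩).le, fun h => (kle n X ⟨h⟩).le⟩
  · funext n X
    exact propext ⟨fun h => (kge' n X ⟨h⟩).ge, fun h => (kge n X ⟨h⟩).ge⟩

/-- **All tensor compatible t-structures.** -/
theorem main_uni (hq : ∀ e : 𝟙_ C ⟶ 𝟙_ C, ∃ q : ℚ, e = q • 𝟙 _)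
    (h₀ : IsMotivic t₀ (fun _ : Unit => R)) (h : IsTensor t) :
    (∀ (M P Q : C) (f : P ⟶ M) (g : M ⟶ Q) (d : Q ⟶ P⟦(1 : ℤ)⟧) (i : ℤ),
      Triangle.mk f g d ∈ distTriang C → t₀.le 0 M → t₀.ge 0 M → t.le i P → t.ge (i + 1) Q →
      (t₀.le 0 P ∧ t₀.ge 0 P) ∧ (t₀.le 0 Q ∧ t₀.ge 0 Q)) ∧
    (∀ S : C, SimpleHeart t₀ S → ∃ i : ℤ, t.le i S ∧ t.ge i S) ∧
    (∀ (L S : C) (m i : ℤ) (p : ℕ) (n : ℤ), t.le m L → t.ge m L → t.le i S → t.ge i S →
      HasPower L S p n → p * i = n * m) ∧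
    (∀ X : C, ∃ a b : ℤ, t.ge a X ∧ t.le b X) ∧
    (∀ L : C, t.le 0 L → t.ge 0 L →
      (∀ S : C, SimpleHeart t₀ S → ∃ (p : ℕ) (n : ℤ), 0 < p ∧ HasPower L S p n) → t = t₀) := by
  have hid := idem_of_rat hq
  have ht₀ : TensorCompat t₀ := ⟨h₀.tensor_le, h₀.tensor_ge⟩
  have he : TExact t₀ R := ⟨h₀.exact_le (), h₀.exact_ge ()⟩
  have hu₀ := unit_hrt ht₀ h₀.nondeg_le h₀.nondeg_ge
  have hb := bounded_of_H ht₀ he hu₀ hid h₀.nondeg_le h₀.nondeg_ge
  refine ⟨?_, ?_, ?_, ?_, ?_⟩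
  · intro M P Q f g d i hT h1 h2 h3 h4
    obtain ⟨a, b⟩ := trunc_heart hq h₀ h hT ⟨⟨h1⟩, ⟨h2⟩⟩ ⟨h3⟩ ⟨h4⟩
    exact ⟨⟨a.1.le, a.2.ge⟩, b.1.le, b.2.ge⟩
  · intro S hS
    obtain ⟨i, h1, h2⟩ := simple_homogeneous hq h₀ h hS
    exact ⟨i, h1.le, h2.ge⟩
  · intro L S m i p n h1 h2 h3 h4 hp
    exact deg_formula h ⟨h1⟩ ⟨h2⟩ ⟨h3⟩ ⟨h4⟩ hp
  · -- boundedness
    have hB : ∀ M, Hrt t₀ M → ∃ a b : ℤ, t.IsGE M a ∧ t.IsLE M b := by
      intro M hM
      refine heart_induction ht₀ he hu₀ hid (fun X => ∃ a b : ℤ, t.IsGE X a ∧ t.IsLE X b) ?_ ?_ ?_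
        _ M hM le_rfl
      · intro X hX
        exact ⟨0, 0, t.isGE_of_isZero hX _, t.isLE_of_isZero hX _⟩
      · intro S hS
        obtain ⟨i, h1, h2⟩ := simple_homogeneous hq h₀ h hS
        exact ⟨i, i, h2, h1⟩
      · rintro X Y Z f g d hT ⟨a, b, h1, h2⟩ ⟨a', b', h1', h2'⟩
        exact ⟨min a a', max b b', isGE2 hT (t.isGE_of_ge X _ a (min_le_left _ _))
          (t.isGE_of_ge Z _ a' (min_le_right _ _)),
          isLE2 hT (t.isLE_of_le X b _ (le_max_left _ _))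
          (t.isLE_of_le Z b' _ (le_max_right _ _))⟩
    have hall : ∀ (k : ℕ) (b : ℤ) (X : C), Tow (fun b Z => t₀.IsLE Z b ∧ t₀.IsGE Z b) k b X →
        ∃ a b : ℤ, t.IsGE X a ∧ t.IsLE X b := by
      intro k
      induction k with
      | zero =>
        intro b X hX
        exact ⟨0, 0, t.isGE_of_isZero hX _, t.isLE_of_isZero hX _⟩
      | succ k ih =>
        rintro b X ⟨N', Z, f, g, d, hT, hN, hZ1, hZ2⟩
        obtain ⟨a, b1, h1, h2⟩ := ih _ _ hN
        obtain ⟨a', b', h1', h2'⟩ := hB (Z⟦b⟧) ⟨t₀.isLE_shift Z b b 0, t₀.isGE_shift Z b b 0⟩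
        have z1 : t.IsGE Z (a' + b) := t.isGE_of_shift Z (a' + b) b a'
        have z2 : t.IsLE Z (b' + b) := t.isLE_of_shift Z (b' + b) b b'
        exact ⟨min a (a' + b), max b1 (b' + b),
          isGE2 hT (t.isGE_of_ge N' _ a (min_le_left _ _))
          (t.isGE_of_ge Z _ (a' + b) (min_le_right _ _)),
          isLE2 hT (t.isLE_of_le N' b1 _ (le_max_left _ _))
          (t.isLE_of_le Z (b' + b) _ (le_max_right _ _))⟩
    intro X
    obtain ⟨N, h1, h2⟩ := hb X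
    have h3 := tow_exists (t := t₀) (2 * N + 1) (X := X) (a := -N) (b := N)
      (by push_cast; omega) h2 h1
    obtain ⟨a, b, h4, h5⟩ := hall _ _ _ h3
    exact ⟨a, b, h4.ge, h5.le⟩
  · intro L hL1 hL2 hS
    refine eq_of_heart hb fun M hM => ?_
    refine heart_induction ht₀ he hu₀ hid (fun X => Hrt t X) ?_ ?_ ?_ _ M hM le_rfl
    · intro X hX
      exact ⟨t.isLE_of_isZero hX _, t.isGE_of_isZero hX _⟩
    · intro S hS'
      obtain ⟨i, h1, h2⟩ := simple_homogeneous hq h₀ h hS'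
      obtain ⟨p, n, hp, hp'⟩ := hS S hS'
      have h3 := deg_formula h (m := 0) ⟨hL1⟩ ⟨hL2⟩ h1 h2 hp'
      have h4 : i = 0 := by
        rw [mul_zero] at h3
        rcases mul_eq_zero.1 h3 with h5 | h5
        · omega
        · exact h5
      subst h4
      exact ⟨h1, h2⟩
    · intro X Y Z f g d hT hX hZ
      exact ⟨isLE2 hT hX.1 hZ.1, isGE2 hT hX.2 hZ.2⟩

end Main

end Pool.Agent.Q65.TS

namespace Pool.Agent.Q65.TS

universe v u w

section Final

variable {C : Type u} [Category.{v} C] [Preadditive C] [HasZeroObject C] [HasShift C ℤ]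
  [∀ n : ℤ, (shiftFunctor C n).Additive] [Pretriangulated C] [MonoidalCategory C]

/-- Some tensor power of every simple object of the heart contains a power of `L` (a Tate object)
as a direct summand. -/
def TateSummands (t : TStructure C) (L : C) : Prop :=
  ∀ S : C, SimpleHeart t S → ∃ (p : ℕ) (n : ℤ), 0 < p ∧ HasPower L S p n

end Final

section Final2

variable {C : Type u} [Category.{v} C] [Preadditive C] [HasZeroObject C] [HasShift C ℤ]
  [∀ n : ℤ, (shiftFunctor C n).Additive] [Pretriangulated C] [IsTriangulated C]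
  [MonoidalCategory C] [SymmetricCategory C] [TensorTriangulated C] [MonoidalPreadditive C]
  [Linear ℚ C] [MonoidalLinear ℚ C] [RightRigidCategory C] [IsIdempotentComplete C]
  {Λ : Type*} [Nonempty Λ] {E : Λ → Type w} [∀ l, Field (E l)] [∀ l, CharZero (E l)]
  {R : ∀ l, Realisation C (E l)}

theorem main_uni2 (hq : ∀ e : 𝟙_ C ⟶ 𝟙_ C, ∃ q : ℚ, e = q • 𝟙 _) :
    (∀ (t₀ t : TStructure C) (l : Λ), IsMotivic t₀ (fun _ : Unit => R l) → IsTensor t →
      (∀ (M P Q : C) (f : P ⟶ M) (g : M ⟶ Q) (d : Q ⟶ P⟦(1 : ℤ)⟧) (i : ℤ),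
        Triangle.mk f g d ∈ distTriang C → t₀.le 0 M → t₀.ge 0 M → t.le i P → t.ge (i + 1) Q →
        (t₀.le 0 P ∧ t₀.ge 0 P) ∧ (t₀.le 0 Q ∧ t₀.ge 0 Q)) ∧
      (∀ S : C, SimpleHeart t₀ S → ∃ i : ℤ, t.le i S ∧ t.ge i S) ∧
      (∀ (L S : C) (m i : ℤ) (p : ℕ) (n : ℤ), t.le m L → t.ge m L → t.le i S → t.ge i S →
        HasPower L S p n → p * i = n * m) ∧
      (∀ X : C, ∃ a b : ℤ, t.ge a X ∧ t.le b X)) ∧
    (∀ (t₀ t : TStructure C) (l : Λ) (L : C), IsMotivic t₀ (fun _ : Unit => R l) →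
      TateSummands t₀ L → IsTensor t → t.le 0 L → t.ge 0 L → t = t₀) ∧
    (∀ (t : TStructure C) (L : C), IsTensor t → t.le 0 L → t.ge 0 L →
      ((∃ t₀ : TStructure C, IsMotivic t₀ R ∧ TateSummands t₀ L) ↔
        IsMotivic t R ∧ TateSummands t L)) := by
  refine ⟨?_, ?_, ?_⟩
  · intro t₀ t l h₀ h
    obtain ⟨h1, h2, h3, h4, -⟩ := main_uni hq h₀ h
    exact ⟨h1, h2, h3, h4⟩
  · intro t₀ t l L h₀ hS h hL1 hL2
    exact (main_uni hq h₀ h).2.2.2.2 L hL1 hL2 hS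
  · intro t L h hL1 hL2
    constructor
    · rintro ⟨t₀, h₀, hS⟩
      obtain ⟨l⟩ := ‹Nonempty Λ›
      have h₁ : IsMotivic t₀ (fun _ : Unit => R l) := ⟨h₀.nondeg_le, h₀.nondeg_ge,
        h₀.tensor_le, h₀.tensor_ge, fun _ => h₀.exact_le l, fun _ => h₀.exact_ge l⟩
      have h2 := (main_uni hq h₁ h).2.2.2.2 L hL1 hL2 hS
      rw [h2]
      exact ⟨h₀, hS⟩
    · rintro ⟨h1, h2⟩
      exact ⟨t, h1, h2⟩

end Final2

end Pool.Agent.Q65.TS
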